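import Mathlib

/-!
# Counting primes and prime-indexed primes (Chebyshev-type bounds)
-/

open Finset

namespace Pool.Agent.Lib.MP_5d7b92_nt

/-- Chebyshev lower bound in a convenient form. -/
theorem primeCounting_ge (n : ℕ) (hn : 2 ≤ n) :
    (1 / 10 : ℝ) * n / Real.log n ≤ (Nat.primeCounting n : ℝ) := by
  refine le_trans ?_ (Chebyshev.pi_ge n)
  have hlog : 0 < Real.log n := Real.log_pos (by exact_mod_cast hn)
  refine div_le_div_of_nonneg_right ?_ hlog.le
  -- n log 2 - log (n+1) ≥ n / 10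
  have hl2 : (0.6931471803 : ℝ) < Real.log 2 := Real.log_two_gt_d9
  have hn' : (2 : ℝ) ≤ n := by exact_mod_cast hn
  -- log (n+1) ≤ log 3 + (n+1)/3 - 1
  have h3 : Real.log ((n : ℝ) + 1) ≤ Real.log 3 + ((n + 1) / 3 - 1) := by
    have : Real.log ((n : ℝ) + 1) = Real.log 3 + Real.log ((n + 1) / 3) := by
      rw [← Real.log_mul (by norm_num) (by positivity)]
      congr 1
      ring
    rw [this]
    have := Real.log_le_sub_one_of_pos (show (0 : ℝ) < (n + 1) / 3 by positivity)
    linarith
  have hl3 : Real.log 3 < 1.0987 := by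
    have h : Real.log 3 < 1.0986122888 := Real.log_three_lt_d9
    linarith
  nlinarith

/-- Chebyshev upper bound in a convenient form. -/
theorem primeCounting_le (n : ℕ) (hn : 2 ≤ n) :
    (Nat.primeCounting n : ℝ) ≤ 5 * n / Real.log n := by
  have h1 : (1 : ℝ) < n := by exact_mod_cast hn
  have hlog : 0 < Real.log n := Real.log_pos h1
  have h := Chebyshev.pi_le_log4_mul_div h1
  rw [Nat.floor_natCast] at h
  refine h.trans ?_
  have hs : Real.log (√(n : ℝ)) = Real.log n / 2 := Real.log_sqrt (by positivity)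
  rw [hs]
  have hl4 : Real.log 4 = 2 * Real.log 2 := by
    rw [show (4 : ℝ) = 2 ^ 2 by norm_num, Real.log_pow]; norm_num
  have hl2 : Real.log 2 < 0.6931471808 := Real.log_two_lt_d9
  rw [le_div_iff₀ hlog, hl4]
  have e1 : (2 * Real.log 2 * (n : ℝ) / (Real.log n / 2) + √(n : ℝ)) * Real.log n
      = 4 * Real.log 2 * n + √(n : ℝ) * Real.log n := by
    field_simp
    ring
  rw [e1]
  have h2 : Real.log n ≤ 2 * √(n : ℝ) / Real.exp 1 := by
    have := Real.log_le_sub_one_of_pos (show (0 : ℝ) < √(n : ℝ) / Real.exp 1 by positivity)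
    rw [Real.log_div (by positivity) (by positivity), Real.log_exp, hs] at this
    have h4 : Real.log n / 2 ≤ √(n : ℝ) / Real.exp 1 := by linarith
    have : Real.log n = 2 * (Real.log n / 2) := by ring
    rw [this, mul_div_assoc]
    linarith
  have h3 : √(n : ℝ) * Real.log n ≤ 2 * n / Real.exp 1 := by
    calc √(n : ℝ) * Real.log n ≤ √(n : ℝ) * (2 * √(n : ℝ) / Real.exp 1) := by gcongr
      _ = 2 * (√(n : ℝ) * √(n : ℝ)) / Real.exp 1 := by ring
      _ = 2 * n / Real.exp 1 := by rw [Real.mul_self_sqrt (by positivity)]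
  have hexp : 2 * (n : ℝ) / Real.exp 1 ≤ 0.8 * n := by
    rw [div_le_iff₀ (Real.exp_pos 1)]
    have := Real.exp_one_gt_d9
    nlinarith
  nlinarith

/-- The prime-indexed primes up to `Y`. -/
noncomputable def pipLE (Y : ℕ) : Finset ℕ :=
  (Finset.Icc 1 Y).filter (fun p => p.Prime ∧ (Nat.primeCounting p).Prime)

theorem mem_pipLE {Y p : ℕ} : p ∈ pipLE Y ↔ p ≤ Y ∧ p.Prime ∧ (Nat.primeCounting p).Prime := by
  unfold pipLE
  simp only [Finset.mem_filter, Finset.mem_Icc]
  constructor
  · rintro ⟨⟨_, h⟩, h2⟩; exact ⟨h, h2⟩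
  · rintro ⟨h, h2⟩; exact ⟨⟨h2.1.one_lt.le, h⟩, h2⟩

theorem primeCounting_nth (k : ℕ) : Nat.primeCounting (Nat.nth Nat.Prime k) = k + 1 := by
  have h := Nat.primeCounting'_nth_eq k
  unfold Nat.primeCounting
  unfold Nat.primeCounting' at *
  rw [Nat.count_succ, h, if_pos (Nat.prime_nth_prime k)]

/-- There are at least `π (π Y)` prime-indexed primes up to `Y`. -/
theorem primeCounting_primeCounting_le_card (Y : ℕ) :
    Nat.primeCounting (Nat.primeCounting Y) ≤ (pipLE Y).card := by
  rw [← Nat.primesLE_card_eq_primeCounting (Nat.primeCounting Y)]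
  refine Finset.card_le_card_of_injOn (fun k => Nat.nth Nat.Prime (k - 1)) ?_ ?_
  · intro k hk
    have hk' := Nat.mem_primesLE.mp (by simpa using hk)
    have hk1 : 1 ≤ k := hk'.2.one_lt.le
    rw [Finset.mem_coe, mem_pipLE]
    refine ⟨?_, Nat.prime_nth_prime _, ?_⟩
    · have : Nat.nth Nat.Prime (k - 1) < Y + 1 := by
        apply Nat.nth_lt_of_lt_count
        have : Nat.count Nat.Prime (Y + 1) = Nat.primeCounting Y := rfl
        rw [this]
        omega
      exact Nat.lt_succ_iff.mp this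
    · dsimp only
      rw [primeCounting_nth]
      have : k - 1 + 1 = k := by omega
      rw [this]
      exact hk'.2
  · intro a ha b hb hab
    have ha' := Nat.mem_primesLE.mp (by simpa using ha)
    have hb' := Nat.mem_primesLE.mp (by simpa using hb)
    have := Nat.nth_injective Nat.infinite_setOfPred_prime hab
    have h1 : 1 ≤ a := ha'.2.one_lt.le
    have h2 : 1 ≤ b := hb'.2.one_lt.le
    omega

theorem pip_count : ∀ Y : ℕ, 3 ≤ Y →
    (1 / 100 : ℝ) * Y / (Real.log Y) ^ 2 ≤ ((pipLE Y).card : ℝ) := by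
  intro Y hY
  have hp2 : 2 ≤ Nat.primeCounting Y := by
    calc 2 = Nat.primeCounting 3 := by decide
      _ ≤ Nat.primeCounting Y := Nat.monotone_primeCounting hY
  have h1 := primeCounting_ge Y (by omega)
  have h2 := primeCounting_ge (Nat.primeCounting Y) hp2
  have h3 : ((Nat.primeCounting (Nat.primeCounting Y) : ℕ) : ℝ) ≤ ((pipLE Y).card : ℝ) := by
    exact_mod_cast primeCounting_primeCounting_le_card Y
  refine le_trans ?_ h3
  refine le_trans ?_ h2
  have hY' : (3 : ℝ) ≤ Y := by exact_mod_cast hY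
  have hlogY : 0 < Real.log Y := Real.log_pos (by linarith)
  have hp2' : (2 : ℝ) ≤ (Nat.primeCounting Y : ℝ) := by exact_mod_cast hp2
  have hlogp : 0 < Real.log (Nat.primeCounting Y) := Real.log_pos (by linarith)
  have hle : (Nat.primeCounting Y : ℝ) ≤ Y := by
    have : Nat.primeCounting Y ≤ Y := by
      rw [← Nat.primesLE_card_eq_primeCounting Y, Nat.primesLE_eq_filter_Icc_one]
      refine (Finset.card_filter_le _ _).trans ?_
      simp
    exact_mod_cast this
  have hloglog : Real.log (Nat.primeCounting Y) ≤ Real.log Y :=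
    Real.log_le_log (by linarith) hle
  calc (1 / 100 : ℝ) * Y / (Real.log Y) ^ 2
      = (1 / 10 : ℝ) * ((1 / 10 : ℝ) * Y / Real.log Y) / Real.log Y := by
        field_simp
        ring
    _ ≤ (1 / 10 : ℝ) * (Nat.primeCounting Y : ℝ) / Real.log Y := by gcongr
    _ ≤ (1 / 10 : ℝ) * (Nat.primeCounting Y : ℝ) / Real.log (Nat.primeCounting Y) := by
        gcongr

end Pool.Agent.Lib.MP_5d7b92_nt
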