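import Mathlib
import Pool.Agent.Lib.MP_5d7b92_nt.Count

/-!
# Second moment assembly
-/

open Finset

namespace Pool.Agent.Lib.MP_5d7b92_nt

/-- A Paley-Zygmund type inequality. -/
theorem paley_zygmund {ι : Type*} (N : Finset ι) (r : ι → ℝ) (hr : ∀ i ∈ N, 0 ≤ r i)
    (θ : ℝ) (hθ : 2 * (θ * N.card) ≤ ∑ i ∈ N, r i) :
    (∑ i ∈ N, r i) ^ 2 ≤ 4 * ((N.filter (fun i => θ ≤ r i)).card : ℝ) * ∑ i ∈ N, (r i) ^ 2 := by
  classical
  set S := ∑ i ∈ N, r i with hS
  have hS0 : 0 ≤ S := Finset.sum_nonneg hr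
  have hsplit : S = ∑ i ∈ N.filter (fun i => θ ≤ r i), r i
      + ∑ i ∈ N.filter (fun i => ¬ θ ≤ r i), r i :=
    (Finset.sum_filter_add_sum_filter_not N _ _).symm
  have hsmall : ∑ i ∈ N.filter (fun i => ¬ θ ≤ r i), r i ≤ S / 2 := by
    rcases le_or_gt 0 θ with h0 | h0
    · calc ∑ i ∈ N.filter (fun i => ¬ θ ≤ r i), r i
          ≤ ∑ i ∈ N.filter (fun i => ¬ θ ≤ r i), θ := by
            refine Finset.sum_le_sum fun i hi => ?_
            have := (Finset.mem_filter.mp hi).2
            exact (not_le.mp this).le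
        _ = θ * ((N.filter (fun i => ¬ θ ≤ r i)).card : ℝ) := by
            rw [Finset.sum_const, nsmul_eq_mul]; ring
        _ ≤ θ * (N.card : ℝ) := by
            refine mul_le_mul_of_nonneg_left ?_ h0
            exact_mod_cast Finset.card_filter_le _ _
        _ ≤ S / 2 := by linarith
    · have : N.filter (fun i => ¬ θ ≤ r i) = ∅ := by
        refine Finset.filter_eq_empty_iff.mpr fun i hi => ?_
        simp only [not_not]
        exact h0.le.trans (hr i hi)
      rw [this, Finset.sum_empty]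
      linarith
  have hbig : S / 2 ≤ ∑ i ∈ N.filter (fun i => θ ≤ r i), r i := by linarith
  have hcs : (∑ i ∈ N.filter (fun i => θ ≤ r i), r i) ^ 2
      ≤ ((N.filter (fun i => θ ≤ r i)).card : ℝ) * ∑ i ∈ N.filter (fun i => θ ≤ r i), (r i) ^ 2 :=
    sq_sum_le_card_mul_sum_sq
  have hsub : ∑ i ∈ N.filter (fun i => θ ≤ r i), (r i) ^ 2 ≤ ∑ i ∈ N, (r i) ^ 2 :=
    Finset.sum_le_sum_of_subset_of_nonneg (Finset.filter_subset _ _) (fun i _ _ => sq_nonneg _)
  have hcard : (0 : ℝ) ≤ ((N.filter (fun i => θ ≤ r i)).card : ℝ) := Nat.cast_nonneg _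
  have h1 : (S / 2) ^ 2 ≤ (∑ i ∈ N.filter (fun i => θ ≤ r i), r i) ^ 2 :=
    pow_le_pow_left₀ (by linarith) hbig 2
  have h2 := mul_le_mul_of_nonneg_left hsub hcard
  nlinarith

/-- number of pairs -/
noncomputable def rep (Q P : Finset ℕ) (n : ℕ) : ℕ :=
  ((Q ×ˢ P).filter (fun x => x.1 + x.2 = 2 * n)).card

theorem sum_rep (Q P : Finset ℕ) (X : ℕ)
    (hQP : ∀ q ∈ Q, ∀ p ∈ P, ∃ n, n ∈ Finset.Icc 1 X ∧ q + p = 2 * n) :
    ∑ n ∈ Finset.Icc 1 X, rep Q P n = Q.card * P.card := by
  rw [← Finset.card_product]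
  rw [Finset.card_eq_sum_card_fiberwise (f := fun x => (x.1 + x.2) / 2) (t := Finset.Icc 1 X)]
  · refine Finset.sum_congr rfl fun n hn => ?_
    unfold rep
    congr 1
    refine Finset.filter_congr fun x hx => ?_
    obtain ⟨m, hm, hm2⟩ := hQP x.1 (Finset.mem_product.mp hx).1 x.2 (Finset.mem_product.mp hx).2
    omega
  · intro x hx
    obtain ⟨m, hm, hm2⟩ := hQP x.1 (Finset.mem_product.mp hx).1 x.2 (Finset.mem_product.mp hx).2
    have : (x.1 + x.2) / 2 = m := by omega
    simpa [this] using hm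

/-- pairs of elements of `P` at distance `d` -/
noncomputable def pairCount (P : Finset ℕ) (d : ℕ) : ℕ :=
  (P.filter (fun p => p + d ∈ P)).card

theorem sum_rep_sq (Q P : Finset ℕ) (X : ℕ)
    (hQP : ∀ q ∈ Q, ∀ p ∈ P, ∃ n, n ∈ Finset.Icc 1 X ∧ q + p = 2 * n) :
    ∑ n ∈ Finset.Icc 1 X, (rep Q P n) ^ 2 ≤ Q.card * P.card +
      2 * ∑ q ∈ Q, ∑ q' ∈ Q.filter (fun q' => q < q'), pairCount P (q' - q) := by
  classical
  -- number of coincidences
  have h1 : ∑ n ∈ Finset.Icc 1 X, (rep Q P n) ^ 2
      = ∑ x ∈ Q ×ˢ P, ((Q ×ˢ P).filter (fun y => y.1 + y.2 = x.1 + x.2)).card := by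
    have : ∀ n ∈ Finset.Icc 1 X, (rep Q P n) ^ 2
        = ∑ x ∈ (Q ×ˢ P).filter (fun x => (x.1 + x.2) / 2 = n),
            ((Q ×ˢ P).filter (fun y => y.1 + y.2 = x.1 + x.2)).card := by
      intro n hn
      have hfil : (Q ×ˢ P).filter (fun x => (x.1 + x.2) / 2 = n)
          = (Q ×ˢ P).filter (fun x => x.1 + x.2 = 2 * n) := by
        refine Finset.filter_congr fun x hx => ?_
        obtain ⟨m, hm, hm2⟩ := hQP x.1 (Finset.mem_product.mp hx).1 x.2 (Finset.mem_product.mp hx).2
        omega
      rw [hfil]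
      have : ∀ x ∈ (Q ×ˢ P).filter (fun x => x.1 + x.2 = 2 * n),
          ((Q ×ˢ P).filter (fun y => y.1 + y.2 = x.1 + x.2)).card = rep Q P n := by
        intro x hx
        rw [(Finset.mem_filter.mp hx).2]
        rfl
      rw [Finset.sum_congr rfl this, Finset.sum_const, smul_eq_mul]
      unfold rep
      ring
    rw [Finset.sum_congr rfl this]
    rw [Finset.sum_fiberwise_of_maps_to]
    intro x hx
    obtain ⟨m, hm, hm2⟩ := hQP x.1 (Finset.mem_product.mp hx).1 x.2 (Finset.mem_product.mp hx).2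
    have : (x.1 + x.2) / 2 = m := by omega
    simpa [this] using hm
  rw [h1]
  -- expand into sum over q, q'
  have h2 : ∀ x : ℕ × ℕ, ((Q ×ˢ P).filter (fun y => y.1 + y.2 = x.1 + x.2)).card
      = ∑ q' ∈ Q, (P.filter (fun p' => q' + p' = x.1 + x.2)).card := by
    intro x
    rw [Finset.card_filter, Finset.sum_product]
    refine Finset.sum_congr rfl fun q' _ => ?_
    rw [Finset.card_filter]
  simp_rw [h2]
  rw [Finset.sum_product]
  -- ∑ q ∈ Q, ∑ p ∈ P, ∑ q' ∈ Q, ...
  have h3 : ∀ q ∈ Q, ∑ p ∈ P, ∑ q' ∈ Q, (P.filter (fun p' => q' + p' = q + p)).card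
      ≤ P.card + (∑ q' ∈ Q.filter (fun q' => q < q'), pairCount P (q' - q)
          + ∑ q' ∈ Q.filter (fun q' => q' < q), pairCount P (q - q')) := by
    intro q hq
    rw [Finset.sum_comm]
    -- ∑ q' ∈ Q, ∑ p ∈ P, card
    have hsp : ∀ f : ℕ → ℕ, ∑ q' ∈ Q, f q' = f q + (∑ q' ∈ Q.filter (fun q' => q < q'), f q'
        + ∑ q' ∈ Q.filter (fun q' => q' < q), f q') := by
      intro f
      rw [← Finset.sum_filter_add_sum_filter_not Q (fun q' => q < q')]
      have : Q.filter (fun q' => ¬ q < q') = insert q (Q.filter (fun q' => q' < q)) := by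
        ext a
        simp only [Finset.mem_filter, Finset.mem_insert, not_lt]
        constructor
        · rintro ⟨h, h'⟩
          rcases h'.lt_or_eq with h'' | h''
          · exact Or.inr ⟨h, h''⟩
          · exact Or.inl h''
        · rintro (h | h)
          · subst h; exact ⟨hq, le_rfl⟩
          · exact ⟨h.1, h.2.le⟩
      rw [this, Finset.sum_insert (by simp)]
      ring
    rw [hsp]
    refine Nat.add_le_add ?_ (Nat.add_le_add ?_ ?_)
    · -- diagonal
      calc ∑ p ∈ P, (P.filter (fun p' => q + p' = q + p)).card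
          ≤ ∑ p ∈ P, 1 := by
            refine Finset.sum_le_sum fun p _ => ?_
            refine Finset.card_le_one.mpr fun a ha b hb => ?_
            have ha := (Finset.mem_filter.mp ha).2
            have hb := (Finset.mem_filter.mp hb).2
            omega
        _ = P.card := by simp
    · refine Finset.sum_le_sum fun q' hq' => ?_
      have hlt := (Finset.mem_filter.mp hq').2
      -- q' + p' = q + p, p = p' + (q' - q)
      calc ∑ p ∈ P, (P.filter (fun p' => q' + p' = q + p)).card
          = ∑ p ∈ P, ∑ p' ∈ P, (if q' + p' = q + p then 1 else 0) := by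
            simp_rw [Finset.card_filter]
        _ = ∑ p' ∈ P, ∑ p ∈ P, (if q' + p' = q + p then 1 else 0) := Finset.sum_comm
        _ ≤ ∑ p' ∈ P, (if p' + (q' - q) ∈ P then 1 else 0) := by
            refine Finset.sum_le_sum fun p' _ => ?_
            rw [← Finset.card_filter]
            split_ifs with h
            · refine Finset.card_le_one.mpr fun a ha b hb => ?_
              have ha := (Finset.mem_filter.mp ha).2
              have hb := (Finset.mem_filter.mp hb).2
              omega
            · rw [Nat.le_zero, Finset.card_eq_zero]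
              refine Finset.filter_eq_empty_iff.mpr fun a ha hab => h ?_
              have : p' + (q' - q) = a := by omega
              rw [this]; exact ha
        _ = pairCount P (q' - q) := by
            unfold pairCount; rw [Finset.card_filter]
    · refine Finset.sum_le_sum fun q' hq' => ?_
      have hlt := (Finset.mem_filter.mp hq').2
      calc ∑ p ∈ P, (P.filter (fun p' => q' + p' = q + p)).card
          ≤ ∑ p ∈ P, (if p + (q - q') ∈ P then 1 else 0) := by
            refine Finset.sum_le_sum fun p _ => ?_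
            split_ifs with h
            · refine Finset.card_le_one.mpr fun a ha b hb => ?_
              have ha := (Finset.mem_filter.mp ha).2
              have hb := (Finset.mem_filter.mp hb).2
              omega
            · rw [Nat.le_zero, Finset.card_eq_zero]
              refine Finset.filter_eq_empty_iff.mpr fun a ha hab => h ?_
              have : p + (q - q') = a := by omega
              rw [this]; exact ha
        _ = pairCount P (q - q') := by
            unfold pairCount; rw [Finset.card_filter]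
  calc ∑ q ∈ Q, ∑ p ∈ P, ∑ q' ∈ Q, (P.filter (fun p' => q' + p' = (q, p).1 + (q, p).2)).card
      ≤ ∑ q ∈ Q, (P.card + (∑ q' ∈ Q.filter (fun q' => q < q'), pairCount P (q' - q)
          + ∑ q' ∈ Q.filter (fun q' => q' < q), pairCount P (q - q'))) :=
        Finset.sum_le_sum h3
    _ = Q.card * P.card + (∑ q ∈ Q, ∑ q' ∈ Q.filter (fun q' => q < q'), pairCount P (q' - q)
          + ∑ q ∈ Q, ∑ q' ∈ Q.filter (fun q' => q' < q), pairCount P (q - q')) := by
        rw [Finset.sum_add_distrib, Finset.sum_add_distrib, Finset.sum_const, smul_eq_mul]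
    _ = Q.card * P.card +
      2 * ∑ q ∈ Q, ∑ q' ∈ Q.filter (fun q' => q < q'), pairCount P (q' - q) := by
        have : ∑ q ∈ Q, ∑ q' ∈ Q.filter (fun q' => q' < q), pairCount P (q - q')
            = ∑ q ∈ Q, ∑ q' ∈ Q.filter (fun q' => q < q'), pairCount P (q' - q) := by
          simp_rw [Finset.sum_filter]
          rw [Finset.sum_comm]
        rw [this]
        ring

end Pool.Agent.Lib.MP_5d7b92_nt
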