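import Mathlib
import Pool.Agent.Lib.MP_5d7b92_nt.Assembly

/-!
# Final assembly, with the sieve bound and the averaging bound as hypotheses
-/

open Finset Filter

namespace Pool.Agent.Lib.MP_5d7b92_nt

theorem tendsto_log_nat : Tendsto (fun X : ℕ => Real.log (X : ℝ)) atTop atTop :=
  Real.tendsto_log_atTop.comp tendsto_natCast_atTop_atTop

/-- growth: `Y / (log Y)^2` dominates `log X` -/
theorem card_growth (K : ℝ) (hK : 0 < K) :
    ∃ C : ℝ, 1 ≤ C ∧ ∃ X₀ : ℕ, ∀ X Y : ℕ, X₀ ≤ X →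
      C * Real.log X * (Real.log (Real.log X)) ^ 2 ≤ Y →
      K * Real.log X ≤ Y / (Real.log Y) ^ 2 ∧ Real.log X ≤ Y := by
  refine ⟨max 1 (4 * K), le_max_left _ _, ?_⟩
  have hev : ∀ᶠ X : ℕ in atTop, (1 : ℝ) < Real.log X ∧ 1 ≤ Real.log (Real.log X) ∧
      (64 * K) ^ 2 ≤ Real.log X := by
    have t1 := tendsto_log_nat
    have t2 : Tendsto (fun X : ℕ => Real.log (Real.log (X : ℝ))) atTop atTop :=
      Real.tendsto_log_atTop.comp t1
    filter_upwards [t1.eventually_gt_atTop 1, t2.eventually_ge_atTop 1,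
      t1.eventually_ge_atTop ((64 * K) ^ 2)] with X h1 h2 h3
    exact ⟨h1, h2, h3⟩
  obtain ⟨X₀, hX₀⟩ := eventually_atTop.mp hev
  refine ⟨X₀, fun X Y hX hY => ?_⟩
  obtain ⟨h1, h2, h3⟩ := hX₀ X hX
  set L := Real.log (X : ℝ) with hL
  set C := max 1 (4 * K) with hC
  have hC1 : 1 ≤ C := le_max_left _ _
  have hC2 : 4 * K ≤ C := le_max_right _ _
  have hLL : 0 < Real.log L := by linarith
  have hYL : L ≤ Y := by
    have h4 : (1 : ℝ) ≤ C * (Real.log L) ^ 2 := by nlinarith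
    have h5 : L * 1 ≤ L * (C * (Real.log L) ^ 2) := mul_le_mul_of_nonneg_left h4 (by linarith)
    calc L = L * 1 := by ring
      _ ≤ L * (C * (Real.log L) ^ 2) := h5
      _ = C * L * (Real.log L) ^ 2 := by ring
      _ ≤ Y := hY
  have hY1 : (1 : ℝ) < Y := by linarith
  have hY0 : (0 : ℝ) < Y := by linarith
  have hlogY : 0 < Real.log Y := Real.log_pos hY1
  refine ⟨?_, hYL⟩
  rw [le_div_iff₀ (by positivity)]
  rcases le_or_gt (Y : ℝ) (L ^ 2) with hcase | hcase
  · have hlogle : Real.log Y ≤ 2 * Real.log L := by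
      have := Real.log_le_log hY0 hcase
      rw [Real.log_pow] at this
      exact_mod_cast this
    have hsq : (Real.log Y) ^ 2 ≤ (2 * Real.log L) ^ 2 := pow_le_pow_left₀ hlogY.le hlogle 2
    calc K * L * (Real.log Y) ^ 2 ≤ K * L * (2 * Real.log L) ^ 2 := by gcongr
      _ = (4 * K) * L * (Real.log L) ^ 2 := by ring
      _ ≤ C * L * (Real.log L) ^ 2 := by gcongr
      _ ≤ Y := hY
  · set s := Real.sqrt (Y : ℝ) with hs
    set u := Real.sqrt s with hu
    set t := Real.sqrt u with ht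
    have hs0 : 0 < s := Real.sqrt_pos.mpr hY0
    have hu0 : 0 < u := Real.sqrt_pos.mpr hs0
    have ht0 : 0 < t := Real.sqrt_pos.mpr hu0
    have hs2 : s ^ 2 = Y := Real.sq_sqrt hY0.le
    have hu2 : u ^ 2 = s := Real.sq_sqrt hs0.le
    have ht2 : t ^ 2 = u := Real.sq_sqrt hu0.le
    have hlog8 : Real.log Y = 8 * Real.log t := by
      rw [← hs2, ← hu2, ← ht2, ← pow_mul, ← pow_mul, Real.log_pow]
      norm_num
    have hltt : Real.log t ≤ t := by
      have := Real.log_le_sub_one_of_pos ht0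
      linarith
    have hlt0 : 0 < Real.log t := by linarith
    have hlogsq : (Real.log Y) ^ 2 ≤ 64 * u := by
      rw [hlog8, ← ht2]
      nlinarith
    have hLs : L < s := by
      have : L ^ 2 < s ^ 2 := by rw [hs2]; exact hcase
      exact lt_of_pow_lt_pow_left₀ 2 hs0.le this
    have hu64 : 64 * K ≤ u := by
      have : (64 * K) ^ 2 ≤ u ^ 2 := by rw [hu2]; linarith
      exact le_of_sq_le_sq this hu0.le
    calc K * L * (Real.log Y) ^ 2 ≤ K * s * (64 * u) := by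
          have : 0 ≤ K * L := by positivity
          gcongr
      _ = (64 * K) * (s * u) := by ring
      _ ≤ u * (s * u) := by gcongr
      _ = s * u ^ 2 := by ring
      _ = Y := by rw [hu2, ← hs2]; ring


/-- odd primes up to `X` -/
noncomputable def oddPrimesLE (X : ℕ) : Finset ℕ := (Finset.Icc 3 X).filter Nat.Prime

theorem card_oddPrimesLE_add_one (X : ℕ) :
    Nat.primeCounting X ≤ (oddPrimesLE X).card + 1 := by
  rw [← Nat.primesLE_card_eq_primeCounting X]
  have : Nat.primesLE X ⊆ insert 2 (oddPrimesLE X) := by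
    intro p hp
    rw [Nat.mem_primesLE] at hp
    unfold oddPrimesLE
    simp only [Finset.mem_insert, Finset.mem_filter, Finset.mem_Icc]
    have := hp.2.two_le
    rcases this.lt_or_eq with h | h
    · exact Or.inr ⟨⟨h, hp.1⟩, hp.2⟩
    · exact Or.inl h.symm
  exact (Finset.card_le_card this).trans (Finset.card_insert_le _ _)

theorem card_oddPrimesLE_le (X : ℕ) :
    (oddPrimesLE X).card ≤ Nat.primeCounting X := by
  rw [← Nat.primesLE_card_eq_primeCounting X]
  apply Finset.card_le_card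
  intro p hp
  unfold oddPrimesLE at hp
  rw [Nat.mem_primesLE]
  have := Finset.mem_filter.mp hp
  exact ⟨(Finset.mem_Icc.mp this.1).2, this.2⟩

theorem pip_ge_three {p : ℕ} (hp : p.Prime) (hpi : (Nat.primeCounting p).Prime) : 3 ≤ p := by
  by_contra h
  have h2 := hp.two_le
  have : p = 2 := by omega
  subst this
  have : Nat.primeCounting 2 = 1 := by decide
  rw [this] at hpi
  exact Nat.not_prime_one hpi

theorem odd_of_prime_of_three_le {p : ℕ} (hp : p.Prime) (h : 3 ≤ p) : p % 2 = 1 := by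
  rcases hp.eq_two_or_odd with h2 | h2
  · omega
  · exact h2

theorem pip_subset (Y : ℕ) : pipLE Y ⊆ Finset.Icc 1 Y := Finset.filter_subset _ _

/-- The set of good primes for `n`. -/
noncomputable def good (Y n : ℕ) : Finset ℕ :=
  (Finset.Icc 1 Y).filter (fun p => p.Prime ∧ (Nat.primeCounting p).Prime ∧ p < 2 * n ∧
            (2 * n - p).Prime)

theorem rep_le_good (X Y n : ℕ) : rep (pipLE Y) (oddPrimesLE X) n ≤ (good Y n).card := by
  unfold rep
  refine Finset.card_le_card_of_injOn (fun x => x.1) ?_ ?_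
  · intro x hx
    have hx := Finset.mem_filter.mp (Finset.mem_coe.mp hx)
    have h1 := mem_pipLE.mp (Finset.mem_product.mp hx.1).1
    have h2 := Finset.mem_filter.mp (Finset.mem_product.mp hx.1).2
    have h3 : 3 ≤ x.2 := (Finset.mem_Icc.mp h2.1).1
    have h4 := hx.2
    rw [Finset.mem_coe]
    unfold good
    simp only [Finset.mem_filter, Finset.mem_Icc]
    have h5 := h1.2.1.two_le
    refine ⟨⟨by omega, h1.1⟩, h1.2.1, h1.2.2, by omega, ?_⟩
    have : 2 * n - x.1 = x.2 := by omega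
    rw [this]
    exact h2.2
  · intro x hx y hy hxy
    have hx := (Finset.mem_filter.mp (Finset.mem_coe.mp hx)).2
    have hy := (Finset.mem_filter.mp (Finset.mem_coe.mp hy)).2
    have hxy : x.1 = y.1 := hxy
    ext
    · exact hxy
    · omega

theorem main_of
    (hA : ∃ C : ℝ, 0 < C ∧ ∀ N d : ℕ, 2 ≤ N → 1 ≤ d →
      (((Finset.Icc 1 N).filter (fun p => p.Prime ∧ (p + d).Prime)).card : ℝ) ≤
      C * ((d : ℝ) / (Nat.totient d : ℝ)) * (N : ℝ) / (Real.log N) ^ 2)
    (hB : ∀ c : ℝ, 0 < c → ∃ C : ℝ, 0 < C ∧ ∃ Y0 : ℕ, ∀ Y : ℕ, Y0 ≤ Y →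
      ∀ Q : Finset ℕ, Q ⊆ Finset.Icc 1 Y → c * Y / (Real.log Y) ^ 2 ≤ (Q.card : ℝ) →
      ∑ q ∈ Q, ∑ q' ∈ Q.filter (fun q' => q < q'),
        ((q' - q : ℕ) : ℝ) / (Nat.totient (q' - q) : ℝ)
      ≤ C * (Q.card : ℝ) ^ 2 * Real.log (Real.log (Real.log Y))) :
    ∃ c C : ℝ, 0 < c ∧ 0 < C ∧ ∃ X₀ : ℕ, ∀ X Y : ℕ, X₀ ≤ X → Y ≤ X →
      C * Real.log X * (Real.log (Real.log X)) ^ 2 ≤ Y →
      c * X / Real.log (Real.log (Real.log Y)) ≤
        (((Finset.Icc 1 X).filter (fun n =>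
          c * Y / ((Real.log Y) ^ 2 * Real.log X) ≤
            ((good Y n).card : ℝ))).card : ℝ) := by
  obtain ⟨CA, hCA, hA⟩ := hA
  obtain ⟨CB, hCB, Y0, hB⟩ := hB (1 / 100) (by norm_num)
  obtain ⟨C, hC1, X1, hgrow⟩ := card_growth 100 (by norm_num)
  -- eventual conditions
  have hev : ∀ᶠ X : ℕ in atTop, X1 ≤ X ∧ 3 ≤ X ∧ (Y0 : ℝ) ≤ Real.log X ∧ (3 : ℝ) ≤ Real.log X ∧
      0 < Real.log (Real.log X) ∧ 0 < Real.log (Real.log (Real.log X)) ∧
      1 ≤ Real.log (Real.log (Real.log (Real.log X))) := by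
    have t1 := tendsto_log_nat
    have t2 : Tendsto (fun X : ℕ => Real.log (Real.log (X : ℝ))) atTop atTop :=
      Real.tendsto_log_atTop.comp t1
    have t3 : Tendsto (fun X : ℕ => Real.log (Real.log (Real.log (X : ℝ)))) atTop atTop :=
      Real.tendsto_log_atTop.comp t2
    have t4 : Tendsto (fun X : ℕ => Real.log (Real.log (Real.log (Real.log (X : ℝ)))))
        atTop atTop := Real.tendsto_log_atTop.comp t3
    filter_upwards [eventually_ge_atTop X1, eventually_ge_atTop 3,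
      t1.eventually_ge_atTop (Y0 : ℝ), t1.eventually_ge_atTop 3, t2.eventually_gt_atTop 0,
      t3.eventually_gt_atTop 0, t4.eventually_ge_atTop 1] with X h1 h2 h3 h4 h5 h6 h7
    exact ⟨h1, h2, h3, h4, h5, h6, h7⟩
  obtain ⟨X₀, hX₀⟩ := eventually_atTop.mp hev
  -- constants
  set D : ℝ := 5 + 2 * CA * CB with hD
  have hD0 : 0 < D := by positivity
  set c : ℝ := min (1 / (4 * 20 ^ 2 * D)) (1 / 4000) with hc
  have hc0 : 0 < c := by positivity
  refine ⟨c, C, hc0, by linarith, X₀, fun X Y hX hYX hY => ?_⟩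
  obtain ⟨hX1, hX3, hLY0, hL3, hLL, hLLL, hLLLL⟩ := hX₀ X hX
  obtain ⟨hg1, hg2⟩ := hgrow X Y hX1 hY
  set L := Real.log (X : ℝ) with hL
  have hL0 : 0 < L := by linarith
  have hX0 : (0 : ℝ) < X := by
    have : (3 : ℝ) ≤ X := by exact_mod_cast hX3
    linarith
  have hY0 : (0 : ℝ) < Y := by linarith
  have hlogY : 0 < Real.log Y := Real.log_pos (by linarith)
  have hY3 : 3 ≤ Y := by
    have : (3 : ℝ) ≤ Y := by linarith
    exact_mod_cast this
  have hYY0 : Y0 ≤ Y := by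
    have : (Y0 : ℝ) ≤ Y := by linarith
    exact_mod_cast this
  -- iterated logs of Y
  have hl1 : Real.log L ≤ Real.log Y := Real.log_le_log hL0 hg2
  have hl2 : Real.log (Real.log L) ≤ Real.log (Real.log Y) := Real.log_le_log hLL hl1
  have hl3 : Real.log (Real.log (Real.log L)) ≤ Real.log (Real.log (Real.log Y)) :=
    Real.log_le_log hLLL hl2
  set T := Real.log (Real.log (Real.log (Y : ℝ))) with hT
  have hT1 : 1 ≤ T := by linarith
  -- sets
  set Q := pipLE Y with hQ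
  set P := oddPrimesLE X with hP
  have hQcard : (1 / 100 : ℝ) * Y / (Real.log Y) ^ 2 ≤ (Q.card : ℝ) := pip_count Y hY3
  have hQL : L ≤ (Q.card : ℝ) := by
    have : (1 / 100 : ℝ) * Y / (Real.log Y) ^ 2 = (1 / 100 : ℝ) * (Y / (Real.log Y) ^ 2) := by ring
    rw [this] at hQcard
    linarith
  have hQ0 : (0 : ℝ) < Q.card := by linarith
  have hpi2 : 2 ≤ Nat.primeCounting X := by
    calc 2 = Nat.primeCounting 3 := by decide
      _ ≤ Nat.primeCounting X := Nat.monotone_primeCounting hX3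
  have hPlow : (1 / 20 : ℝ) * X / L ≤ (P.card : ℝ) := by
    have h1 := primeCounting_ge X (by omega)
    have h2 : (Nat.primeCounting X : ℝ) ≤ (P.card : ℝ) + 1 := by
      exact_mod_cast card_oddPrimesLE_add_one X
    have h3 : (2 : ℝ) ≤ Nat.primeCounting X := by exact_mod_cast hpi2
    have h4 : (1 / 20 : ℝ) * X / L = ((1 / 10 : ℝ) * X / L) / 2 := by ring
    rw [h4]
    linarith
  have hPup : (P.card : ℝ) ≤ 5 * X / L := by
    have h1 := primeCounting_le X (by omega)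
    have h2 : (P.card : ℝ) ≤ (Nat.primeCounting X : ℝ) := by
      exact_mod_cast card_oddPrimesLE_le X
    linarith
  have hQP : ∀ q ∈ Q, ∀ p ∈ P, ∃ n, n ∈ Finset.Icc 1 X ∧ q + p = 2 * n := by
    intro q hq p hp
    have h1 := mem_pipLE.mp hq
    have hp := Finset.mem_filter.mp hp
    have hp1 := Finset.mem_Icc.mp hp.1
    have h3 := pip_ge_three h1.2.1 h1.2.2
    have h4 := odd_of_prime_of_three_le h1.2.1 h3
    have h5 := odd_of_prime_of_three_le hp.2 hp1.1
    refine ⟨(q + p) / 2, ?_, by omega⟩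
    rw [Finset.mem_Icc]
    omega
  -- first moment
  have hS1 : ∑ n ∈ Finset.Icc 1 X, (rep Q P n : ℝ) = (Q.card : ℝ) * P.card := by
    exact_mod_cast sum_rep Q P X hQP
  -- second moment
  have hpair : ∀ d : ℕ, 1 ≤ d → (pairCount P d : ℝ)
      ≤ CA * ((d : ℝ) / (Nat.totient d : ℝ)) * (X : ℝ) / L ^ 2 := by
    intro d hd
    refine le_trans ?_ (hA X d (by omega) hd)
    have : pairCount P d ≤ ((Finset.Icc 1 X).filter (fun p => p.Prime ∧ (p + d).Prime)).card := by
      unfold pairCount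
      apply Finset.card_le_card
      intro p hp
      have hp := Finset.mem_filter.mp hp
      have hp1 := Finset.mem_filter.mp hp.1
      have hp2 := Finset.mem_filter.mp hp.2
      have hp3 := Finset.mem_Icc.mp hp1.1
      simp only [Finset.mem_filter, Finset.mem_Icc]
      exact ⟨⟨by omega, hp3.2⟩, hp1.2, hp2.2⟩
    exact_mod_cast this
  have hS2 : ∑ n ∈ Finset.Icc 1 X, (rep Q P n : ℝ) ^ 2
      ≤ D * T * (Q.card : ℝ) ^ 2 * X / L ^ 2 := by
    have h1 : ∑ n ∈ Finset.Icc 1 X, (rep Q P n : ℝ) ^ 2 ≤ (Q.card : ℝ) * P.card +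
      2 * ∑ q ∈ Q, ∑ q' ∈ Q.filter (fun q' => q < q'), (pairCount P (q' - q) : ℝ) := by
      exact_mod_cast sum_rep_sq Q P X hQP
    have h2 : ∑ q ∈ Q, ∑ q' ∈ Q.filter (fun q' => q < q'), (pairCount P (q' - q) : ℝ)
        ≤ CA * X / L ^ 2 * ∑ q ∈ Q, ∑ q' ∈ Q.filter (fun q' => q < q'),
          ((q' - q : ℕ) : ℝ) / (Nat.totient (q' - q) : ℝ) := by
      rw [Finset.mul_sum]
      refine Finset.sum_le_sum fun q _ => ?_
      rw [Finset.mul_sum]
      refine Finset.sum_le_sum fun q' hq' => ?_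
      have := (Finset.mem_filter.mp hq').2
      have h3 := hpair (q' - q) (by omega)
      calc (pairCount P (q' - q) : ℝ) ≤ _ := h3
        _ = _ := by ring
    have h3 := hB Y hYY0 Q (pip_subset Y) hQcard
    have h4 : (Q.card : ℝ) * P.card ≤ 5 * T * (Q.card : ℝ) ^ 2 * X / L ^ 2 := by
      calc (Q.card : ℝ) * P.card ≤ (Q.card : ℝ) * (5 * X / L) := by gcongr
        _ = 5 * L * (Q.card : ℝ) * X / L ^ 2 := by field_simp
        _ ≤ 5 * (T * (Q.card : ℝ)) * (Q.card : ℝ) * X / L ^ 2 := by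
            gcongr
            nlinarith
        _ = 5 * T * (Q.card : ℝ) ^ 2 * X / L ^ 2 := by ring
    calc ∑ n ∈ Finset.Icc 1 X, (rep Q P n : ℝ) ^ 2
        ≤ 5 * T * (Q.card : ℝ) ^ 2 * X / L ^ 2
          + 2 * (CA * X / L ^ 2 * (CB * (Q.card : ℝ) ^ 2 * T)) := by
          refine h1.trans (add_le_add h4 ?_)
          refine mul_le_mul_of_nonneg_left (h2.trans ?_) (by norm_num)
          refine mul_le_mul_of_nonneg_left h3 (by positivity)
      _ = D * T * (Q.card : ℝ) ^ 2 * X / L ^ 2 := by rw [hD]; ring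
  -- Paley-Zygmund
  set θ : ℝ := c * Y / ((Real.log Y) ^ 2 * L) with hθ
  have hθ2 : 2 * (θ * ((Finset.Icc 1 X).card : ℝ)) ≤ ∑ n ∈ Finset.Icc 1 X, (rep Q P n : ℝ) := by
    rw [hS1, Nat.card_Icc]
    have hX' : ((X + 1 - 1 : ℕ) : ℝ) = X := by simp
    rw [hX', hθ]
    have hc4 : c ≤ 1 / 4000 := min_le_right _ _
    calc 2 * (c * Y / ((Real.log Y) ^ 2 * L) * X)
        = (2 * c) * (Y / (Real.log Y) ^ 2) * (X / L) := by field_simp
      _ ≤ (1 / 2000) * (Y / (Real.log Y) ^ 2) * (X / L) := by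
          gcongr
          linarith
      _ = ((1 / 100 : ℝ) * Y / (Real.log Y) ^ 2) * ((1 / 20 : ℝ) * X / L) := by ring
      _ ≤ (Q.card : ℝ) * P.card := by gcongr
  have hPZ := paley_zygmund (Finset.Icc 1 X) (fun n => (rep Q P n : ℝ))
    (fun n _ => Nat.cast_nonneg _) θ hθ2
  rw [hS1] at hPZ
  have hmono : (((Finset.Icc 1 X).filter (fun n => θ ≤ (rep Q P n : ℝ))).card : ℝ)
      ≤ (((Finset.Icc 1 X).filter (fun n => θ ≤ ((good Y n).card : ℝ))).card : ℝ) := by
    have : ((Finset.Icc 1 X).filter (fun n => θ ≤ (rep Q P n : ℝ))).card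
        ≤ ((Finset.Icc 1 X).filter (fun n => θ ≤ ((good Y n).card : ℝ))).card := by
      apply Finset.card_le_card
      intro n hn
      have hn := Finset.mem_filter.mp hn
      refine Finset.mem_filter.mpr ⟨hn.1, hn.2.trans ?_⟩
      exact_mod_cast rep_le_good X Y n
    exact_mod_cast this
  refine le_trans ?_ hmono
  set N := (((Finset.Icc 1 X).filter (fun n => θ ≤ (rep Q P n : ℝ))).card : ℝ) with hN
  have hN0 : 0 ≤ N := Nat.cast_nonneg _
  -- combine
  have h5 : ((Q.card : ℝ) * ((1 / 20 : ℝ) * X / L)) ^ 2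
      ≤ 4 * N * (D * T * (Q.card : ℝ) ^ 2 * X / L ^ 2) := by
    calc ((Q.card : ℝ) * ((1 / 20 : ℝ) * X / L)) ^ 2 ≤ ((Q.card : ℝ) * P.card) ^ 2 := by gcongr
      _ ≤ _ := hPZ
      _ ≤ _ := by gcongr
  have h6 : (X : ℝ) ≤ 4 * 20 ^ 2 * D * (N * T) := by
    have e1 : ((Q.card : ℝ) * ((1 / 20 : ℝ) * X / L)) ^ 2
        = ((Q.card : ℝ) ^ 2 * X / L ^ 2) * ((1 / 20 ^ 2) * X) := by field_simp
    have e2 : 4 * N * (D * T * (Q.card : ℝ) ^ 2 * X / L ^ 2)
        = ((Q.card : ℝ) ^ 2 * X / L ^ 2) * (4 * D * (N * T)) := by ring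
    rw [e1, e2] at h5
    have hpos : 0 < (Q.card : ℝ) ^ 2 * X / L ^ 2 := by positivity
    have := le_of_mul_le_mul_left h5 hpos
    linarith
  rw [div_le_iff₀ (by linarith)]
  have hc4 : c ≤ 1 / (4 * 20 ^ 2 * D) := min_le_left _ _
  calc c * X ≤ 1 / (4 * 20 ^ 2 * D) * X := by gcongr
    _ ≤ 1 / (4 * 20 ^ 2 * D) * (4 * 20 ^ 2 * D * (N * T)) := by gcongr
    _ = N * T := by field_simp

end Pool.Agent.Lib.MP_5d7b92_nt
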