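import Mathlib
import Pool.Agent.Lib.MP_5d7b92_nt.Final

/-!
# The admissible primes are typically not small

For every `ε > 0` there is `δ > 0` such that for all large `X`, at most `ε X` of the integers
`n ≤ X` have a prime `p ≤ δ log n (log log n)^2` with `p < 2n` and `π(p)`, `2n - p` both prime.
-/

open Finset Filter

namespace Pool.Agent.Lib.MP_5d7b92_nt.LeastAdmissible

open Pool.Agent.Lib.MP_5d7b92_nt

/-- upper bound for the number of prime-indexed primes -/
theorem card_pipLE_le (Y : ℕ) : (pipLE Y).card ≤ Nat.primeCounting (Nat.primeCounting Y) := by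
  rw [← Nat.primesLE_card_eq_primeCounting (Nat.primeCounting Y)]
  refine Finset.card_le_card_of_injOn (fun p => Nat.primeCounting p) ?_ ?_
  · intro p hp
    have hp' := mem_pipLE.mp (Finset.mem_coe.mp hp)
    rw [Finset.mem_coe, Nat.mem_primesLE]
    exact ⟨Nat.monotone_primeCounting hp'.1, hp'.2.2⟩
  · intro a ha b hb hab
    have ha' := (mem_pipLE.mp (Finset.mem_coe.mp ha)).2.1
    have hb' := (mem_pipLE.mp (Finset.mem_coe.mp hb)).2.1
    have key : ∀ x y : ℕ, y.Prime → x < y → Nat.primeCounting x < Nat.primeCounting y := by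
      intro x y hy hxy
      have h1 : Nat.primeCounting x ≤ Nat.primeCounting (y - 1) :=
        Nat.monotone_primeCounting (by omega)
      have h2 : Nat.primeCounting (y - 1) < Nat.primeCounting y := by
        obtain ⟨m, rfl⟩ : ∃ m, y = m + 1 := ⟨y - 1, by have := hy.pos; omega⟩
        rw [Nat.add_sub_cancel, ← Nat.primesLE_card_eq_primeCounting,
          ← Nat.primesLE_card_eq_primeCounting]
        apply Finset.card_lt_card
        rw [Finset.ssubset_iff_of_subset (Nat.primesLE_mono (by omega))]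
        exact ⟨m + 1, Nat.mem_primesLE.mpr ⟨le_rfl, hy⟩, fun h => by
          have := (Nat.mem_primesLE.mp h).1; omega⟩
      omega
    have hab : Nat.primeCounting a = Nat.primeCounting b := hab
    rcases lt_trichotomy a b with h | h | h
    · have := key a b hb' h; omega
    · exact h
    · have := key b a ha' h; omega

theorem exists_pip_upper : ∃ Y₁ : ℕ, ∀ Y : ℕ, Y₁ ≤ Y →
    ((pipLE Y).card : ℝ) ≤ 50 * Y / (Real.log Y) ^ 2 := by
  have hev : ∀ᶠ Y : ℕ in atTop, 3 ≤ Y ∧ 10 * Real.log Y ≤ Real.sqrt Y := by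
    have h := isLittleO_log_rpow_atTop (r := 1 / 2) (by norm_num)
    have h2 := h.def (c := 1 / 10) (by norm_num)
    have h3 := tendsto_natCast_atTop_atTop.eventually h2
    filter_upwards [h3, eventually_ge_atTop 3] with Y hY hY3
    refine ⟨hY3, ?_⟩
    have hY1 : (1 : ℝ) ≤ Y := by exact_mod_cast (by omega : 1 ≤ Y)
    rw [Real.norm_of_nonneg (Real.log_nonneg hY1), Real.norm_of_nonneg (by positivity),
      ← Real.sqrt_eq_rpow] at hY
    linarith
  obtain ⟨Y₁, hY₁⟩ := eventually_atTop.mp hev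
  refine ⟨Y₁, fun Y hY => ?_⟩
  obtain ⟨hY3, hYs⟩ := hY₁ Y hY
  have hYr : (3 : ℝ) ≤ Y := by exact_mod_cast hY3
  have hlog : 0 < Real.log Y := Real.log_pos (by linarith)
  have hp2 : 2 ≤ Nat.primeCounting Y := by
    calc 2 = Nat.primeCounting 3 := by decide
      _ ≤ Nat.primeCounting Y := Nat.monotone_primeCounting hY3
  have hp2' : (2 : ℝ) ≤ Nat.primeCounting Y := by exact_mod_cast hp2
  have h1 : ((pipLE Y).card : ℝ) ≤ (Nat.primeCounting (Nat.primeCounting Y) : ℝ) := by
    exact_mod_cast card_pipLE_le Y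
  have h2 := primeCounting_le (Nat.primeCounting Y) hp2
  have h3 := primeCounting_le Y (by omega)
  have h4 := primeCounting_ge Y (by omega)
  have hsq0 : 0 < Real.sqrt Y := Real.sqrt_pos.mpr (by linarith)
  -- log π(Y) ≥ (1/2) log Y
  have h5 : Real.log Y / 2 ≤ Real.log (Nat.primeCounting Y) := by
    have h6 : Real.sqrt Y ≤ Nat.primeCounting Y := by
      refine le_trans ?_ h4
      rw [le_div_iff₀ hlog]
      calc Real.sqrt Y * Real.log Y ≤ Real.sqrt Y * (Real.sqrt Y / 10) := by gcongr; linarith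
        _ = (1 / 10) * (Real.sqrt Y * Real.sqrt Y) := by ring
        _ = (1 / 10) * Y := by rw [Real.mul_self_sqrt (by linarith)]
    have := Real.log_le_log hsq0 h6
    rwa [Real.log_sqrt (by linarith)] at this
  calc ((pipLE Y).card : ℝ) ≤ 5 * (Nat.primeCounting Y : ℝ) / Real.log (Nat.primeCounting Y) :=
        h1.trans h2
    _ ≤ 5 * (5 * Y / Real.log Y) / (Real.log Y / 2) := by gcongr
    _ = 50 * Y / (Real.log Y) ^ 2 := by field_simp; ring

/-- union bound -/
theorem ncard_good_le (X Y : ℕ) :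
    {n : ℕ | n ≤ X ∧ ∃ p : ℕ, p.Prime ∧ (Nat.primeCounting p).Prime ∧
      p < 2 * n ∧ (2 * n - p).Prime ∧ p ≤ Y}.ncard
      ≤ (pipLE Y).card * Nat.primeCounting (2 * X) := by
  classical
  have hsub : {n : ℕ | n ≤ X ∧ ∃ p : ℕ, p.Prime ∧ (Nat.primeCounting p).Prime ∧
      p < 2 * n ∧ (2 * n - p).Prime ∧ p ≤ Y} ⊆
      (((pipLE Y).biUnion (fun p => (Finset.range (X + 1)).filter
        (fun n => p < 2 * n ∧ (2 * n - p).Prime)) : Finset ℕ) : Set ℕ) := by
    rintro n ⟨hnX, p, h1, h2, h3, h4, h5⟩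
    rw [Finset.mem_coe, Finset.mem_biUnion]
    exact ⟨p, mem_pipLE.mpr ⟨h5, h1, h2⟩,
      Finset.mem_filter.mpr ⟨Finset.mem_range.mpr (by omega), h3, h4⟩⟩
  refine (Set.ncard_le_ncard hsub (Finset.finite_toSet _)).trans ?_
  rw [Set.ncard_coe_finset]
  refine Finset.card_biUnion_le_card_mul _ _ _ fun p _ => ?_
  rw [← Nat.primesLE_card_eq_primeCounting]
  refine Finset.card_le_card_of_injOn (fun n => 2 * n - p) ?_ ?_
  · intro n hn
    have hn := Finset.mem_filter.mp (Finset.mem_coe.mp hn)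
    have := Finset.mem_range.mp hn.1
    rw [Finset.mem_coe, Nat.mem_primesLE]
    exact ⟨by show 2 * n - p ≤ 2 * X; omega, hn.2.2⟩
  · intro a ha b hb hab
    have ha := (Finset.mem_filter.mp (Finset.mem_coe.mp ha)).2.1
    have hb := (Finset.mem_filter.mp (Finset.mem_coe.mp hb)).2.1
    have hab : 2 * a - p = 2 * b - p := hab
    omega

/-- For almost all `n`, every admissible prime exceeds `δ log n (log log n)^2`. -/
theorem main : ∀ ε : ℝ, 0 < ε → ∃ δ : ℝ, 0 < δ ∧ ∃ X₀ : ℕ, ∀ X : ℕ, X₀ ≤ X →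
    ({n : ℕ | n ≤ X ∧ ∃ p : ℕ, p.Prime ∧ (Nat.primeCounting p).Prime ∧
      p < 2 * n ∧ (2 * n - p).Prime ∧
      (p : ℝ) ≤ δ * Real.log n * (Real.log (Real.log n)) ^ 2}.ncard : ℝ) ≤ ε * X := by
  intro ε hε
  obtain ⟨Y₁, hY₁⟩ := exists_pip_upper
  set δ : ℝ := ε / 2010 with hδ
  have hδ0 : 0 < δ := by positivity
  refine ⟨δ, hδ0, ?_⟩
  have hev : ∀ᶠ X : ℕ in atTop, 3 ≤ X ∧ (4 : ℝ) ≤ Real.log X ∧ 1 ≤ Real.log (Real.log X) ∧
      (Y₁ : ℝ) ≤ Real.sqrt (Real.log X) ∧ 1 / δ ≤ Real.sqrt (Real.log X) := by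
    have t1 := tendsto_log_nat
    have t2 : Tendsto (fun X : ℕ => Real.log (Real.log (X : ℝ))) atTop atTop :=
      Real.tendsto_log_atTop.comp t1
    have t3 : Tendsto (fun X : ℕ => Real.sqrt (Real.log (X : ℝ))) atTop atTop :=
      Real.tendsto_sqrt_atTop.comp t1
    filter_upwards [eventually_ge_atTop 3, t1.eventually_ge_atTop 4, t2.eventually_ge_atTop 1,
      t3.eventually_ge_atTop (Y₁ : ℝ), t3.eventually_ge_atTop (1 / δ)] with X h1 h2 h3 h4 h5
    exact ⟨h1, h2, h3, h4, h5⟩
  obtain ⟨X₀, hX₀⟩ := eventually_atTop.mp hev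
  refine ⟨X₀, fun X hX => ?_⟩
  obtain ⟨hX3, hL4, hLL1, hsY, hsδ⟩ := hX₀ X hX
  set L := Real.log (X : ℝ) with hL
  have hXr : (3 : ℝ) ≤ X := by exact_mod_cast hX3
  have hX0 : (0 : ℝ) < X := by linarith
  have hL0 : 0 < L := by linarith
  set s := Real.sqrt L with hs
  have hs0 : 0 < s := Real.sqrt_pos.mpr hL0
  have hss : s * s = L := Real.mul_self_sqrt hL0.le
  have hLLsq : 1 ≤ (Real.log L) ^ 2 := one_le_pow₀ hLL1
  set Y : ℕ := ⌊δ * L * (Real.log L) ^ 2⌋₊ with hY
  have hYle : (Y : ℝ) ≤ δ * L * (Real.log L) ^ 2 := Nat.floor_le (by positivity)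
  -- monotonicity of log n (log log n)^2
  have hmono : ∀ n : ℕ, n ≤ X →
      δ * Real.log n * (Real.log (Real.log n)) ^ 2 ≤ δ * L * (Real.log L) ^ 2 := by
    intro n hn
    have hln : 0 ≤ Real.log n := Real.log_natCast_nonneg n
    have hkey : Real.log n * (Real.log (Real.log n)) ^ 2 ≤ L * (Real.log L) ^ 2 := by
      rcases Nat.eq_zero_or_pos n with hn0 | hn0
      · subst hn0; simp; positivity
      have hn1 : (1 : ℝ) ≤ n := by exact_mod_cast hn0
      have hnX : (n : ℝ) ≤ X := by exact_mod_cast hn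
      have hlnL : Real.log n ≤ L := Real.log_le_log (by linarith) hnX
      rcases le_or_gt 1 (Real.log n) with h | h
      · have h0 : 0 ≤ Real.log (Real.log n) := Real.log_nonneg h
        have h1 : Real.log (Real.log n) ≤ Real.log L := Real.log_le_log (by linarith) hlnL
        have h2 : (Real.log (Real.log n)) ^ 2 ≤ (Real.log L) ^ 2 := pow_le_pow_left₀ h0 h1 2
        exact mul_le_mul hlnL h2 (sq_nonneg _) hL0.le
      · -- t (log t)^2 ≤ 4 on [0,1]
        rcases hln.eq_or_lt with h0 | h0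
        · rw [← h0]; simp; positivity
        · set t := Real.log n with ht
          have hst0 : 0 < Real.sqrt t := Real.sqrt_pos.mpr h0
          have hlt : Real.log t < 0 := Real.log_neg h0 h
          have h1 : -Real.log t ≤ 2 / Real.sqrt t := by
            have := Real.log_le_sub_one_of_pos (show 0 < 1 / Real.sqrt t by positivity)
            rw [Real.log_div one_ne_zero hst0.ne', Real.log_one, Real.log_sqrt h0.le] at this
            have h3 : 2 / Real.sqrt t = 2 * (1 / Real.sqrt t) := by ring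
            rw [h3]
            linarith
          have h2 : (Real.log t) ^ 2 ≤ (2 / Real.sqrt t) ^ 2 := by
            rw [← neg_sq]
            exact pow_le_pow_left₀ (by linarith) h1 2
          have h3 : t * (Real.log t) ^ 2 ≤ 4 := by
            calc t * (Real.log t) ^ 2 ≤ t * (2 / Real.sqrt t) ^ 2 := by gcongr
              _ = 4 * (t / (Real.sqrt t) ^ 2) := by ring
              _ = 4 := by rw [Real.sq_sqrt h0.le, div_self h0.ne']; ring
          nlinarith
    calc δ * Real.log n * (Real.log (Real.log n)) ^ 2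
        = δ * (Real.log n * (Real.log (Real.log n)) ^ 2) := by ring
      _ ≤ δ * (L * (Real.log L) ^ 2) := by gcongr
      _ = δ * L * (Real.log L) ^ 2 := by ring
  -- reduce to the union bound
  have hsub : {n : ℕ | n ≤ X ∧ ∃ p : ℕ, p.Prime ∧ (Nat.primeCounting p).Prime ∧
      p < 2 * n ∧ (2 * n - p).Prime ∧
      (p : ℝ) ≤ δ * Real.log n * (Real.log (Real.log n)) ^ 2} ⊆
      {n : ℕ | n ≤ X ∧ ∃ p : ℕ, p.Prime ∧ (Nat.primeCounting p).Prime ∧
      p < 2 * n ∧ (2 * n - p).Prime ∧ p ≤ Y} := by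
    rintro n ⟨hnX, p, h1, h2, h3, h4, h5⟩
    refine ⟨hnX, p, h1, h2, h3, h4, ?_⟩
    rw [hY]
    exact Nat.le_floor (h5.trans (hmono n hnX))
  have hfin : {n : ℕ | n ≤ X ∧ ∃ p : ℕ, p.Prime ∧ (Nat.primeCounting p).Prime ∧
      p < 2 * n ∧ (2 * n - p).Prime ∧ p ≤ Y}.Finite :=
    (Set.finite_Iic X).subset fun n hn => hn.1
  have h1 : ({n : ℕ | n ≤ X ∧ ∃ p : ℕ, p.Prime ∧ (Nat.primeCounting p).Prime ∧
      p < 2 * n ∧ (2 * n - p).Prime ∧
      (p : ℝ) ≤ δ * Real.log n * (Real.log (Real.log n)) ^ 2}.ncard : ℝ)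
      ≤ ((pipLE Y).card : ℝ) * (Nat.primeCounting (2 * X) : ℝ) := by
    have := (Set.ncard_le_ncard hsub hfin).trans (ncard_good_le X Y)
    exact_mod_cast this
  refine h1.trans ?_
  -- bound the number of prime-indexed primes
  have hpip : ((pipLE Y).card : ℝ) ≤ 201 * δ * L := by
    have hsδL : s ≤ δ * L := by
      have : 1 ≤ δ * s := by
        rw [div_le_iff₀ hδ0] at hsδ
        linarith
      calc s = 1 * s := by ring
        _ ≤ (δ * s) * s := by gcongr
        _ = δ * L := by rw [← hss]; ring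
    rcases le_or_gt (Y : ℝ) s with hcase | hcase
    · have h2 : ((pipLE Y).card : ℝ) ≤ Y := by
        have : (pipLE Y).card ≤ Y := by
          have := Finset.card_le_card (pip_subset Y)
          simpa using this
        exact_mod_cast this
      nlinarith
    · have hYY₁ : Y₁ ≤ Y := by
        have : (Y₁ : ℝ) ≤ Y := by linarith
        exact_mod_cast this
      have h2 := hY₁ Y hYY₁
      have h3 : Real.log L / 2 ≤ Real.log Y := by
        have := Real.log_le_log hs0 hcase.le
        rwa [hs, Real.log_sqrt hL0.le] at this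
      have h4 : (Real.log L / 2) ^ 2 ≤ (Real.log Y) ^ 2 := pow_le_pow_left₀ (by linarith) h3 2
      have h5 : 0 < (Real.log L / 2) ^ 2 := by positivity
      calc ((pipLE Y).card : ℝ) ≤ 50 * Y / (Real.log Y) ^ 2 := h2
        _ ≤ 50 * (δ * L * (Real.log L) ^ 2) / (Real.log L / 2) ^ 2 := by gcongr
        _ = 200 * δ * L := by
            have : Real.log L ≠ 0 := by linarith
            field_simp
            ring
        _ ≤ 201 * δ * L := by gcongr; norm_num
  have hpi : (Nat.primeCounting (2 * X) : ℝ) ≤ 10 * X / L := by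
    have h2 := primeCounting_le (2 * X) (by omega)
    push_cast at h2
    refine h2.trans ?_
    have h3 : L ≤ Real.log (2 * X) := Real.log_le_log hX0 (by linarith)
    calc 5 * (2 * (X : ℝ)) / Real.log (2 * X) ≤ 5 * (2 * (X : ℝ)) / L := by gcongr
      _ = 10 * X / L := by ring
  calc ((pipLE Y).card : ℝ) * (Nat.primeCounting (2 * X) : ℝ) ≤ (201 * δ * L) * (10 * X / L) := by
        gcongr
    _ = 2010 * δ * X := by field_simp; ring
    _ = ε * X := by rw [hδ]; ring

end Pool.Agent.Lib.MP_5d7b92_nt.LeastAdmissible
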