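import Mathlib

/-!
# Lower bound for the main sum of the Selberg sieve for prime pairs

For `d ≥ 1` let `κ p = 1` if `p ∣ d` and `κ p = 2` otherwise.  We show
`φ(d)/d * (∑_{a ≤ s} 1/a)^2 ≤ ∑_{l ∣ P, l ≤ s^2} ∏_{p ∣ l} (κ p / p) / (1 - κ p / p)`
whenever all primes `≤ s^2` divide the squarefree number `P`.
-/

namespace Pool.Agent.Lib.MP_5d7b92_nt.SieveLower

open Finset Nat

noncomputable section

/-- The completely multiplicative function with prescribed values at primes. -/
def cmulFun (c : ℕ → ℝ) : ℕ →* ℝ where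
  toFun m := if m = 0 then 0 else (m.primeFactorsList.map c).prod
  map_one' := by simp
  map_mul' a b := by
    by_cases ha : a = 0
    · simp [ha]
    by_cases hb : b = 0
    · simp [hb]
    rw [if_neg (mul_ne_zero ha hb), if_neg ha, if_neg hb,
      ((Nat.perm_primeFactorsList_mul ha hb).map c).prod_eq, List.map_append, List.prod_append]

lemma cmulFun_prime (c : ℕ → ℝ) {p : ℕ} (hp : p.Prime) : cmulFun c p = c p := by
  change (if p = 0 then 0 else (p.primeFactorsList.map c).prod) = c p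
  rw [if_neg hp.ne_zero, Nat.primeFactorsList_prime hp]; simp

lemma cmulFun_nonneg {c : ℕ → ℝ} (hc : ∀ p, p.Prime → 0 ≤ c p) (m : ℕ) : 0 ≤ cmulFun c m := by
  change 0 ≤ (if m = 0 then 0 else (m.primeFactorsList.map c).prod)
  split_ifs
  · exact le_rfl
  · apply List.prod_nonneg
    intro x hx
    rw [List.mem_map] at hx
    obtain ⟨p, hp, rfl⟩ := hx
    exact hc p (Nat.prime_of_mem_primeFactorsList hp)

/-- The radical. -/
def rad (m : ℕ) : ℕ := ∏ p ∈ m.primeFactors, p

lemma rad_dvd (m : ℕ) : rad m ∣ m := Nat.prod_primeFactors_dvd m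

lemma rad_primeFactors {m : ℕ} : (rad m).primeFactors = m.primeFactors := by
  unfold rad
  rw [Nat.primeFactors_prod]
  intro p hp
  exact Nat.prime_of_mem_primeFactors hp

/-- Sums of completely multiplicative functions are bounded by the squarefree sum. -/
lemma sum_le_squarefree_sum {c : ℕ → ℝ} (hc0 : ∀ p, p.Prime → 0 ≤ c p)
    (hc1 : ∀ p, p.Prime → c p < 1) {P z : ℕ} (hP : P ≠ 0)
    (hPz : ∀ p, p.Prime → p ≤ z → p ∣ P) :
    ∑ m ∈ Icc 1 z, cmulFun c m
      ≤ ∑ l ∈ P.divisors with l ≤ z, cmulFun c l * ∏ p ∈ l.primeFactors, (1 - c p)⁻¹ := by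
  classical
  -- the map to the radical
  have hmaps : ∀ m ∈ Icc 1 z, rad m ∈ P.divisors.filter (fun l => l ≤ z) := by
    intro m hm
    rw [mem_Icc] at hm
    rw [mem_filter, Nat.mem_divisors]
    refine ⟨⟨?_, hP⟩, (Nat.le_of_dvd (by omega) (rad_dvd m)).trans hm.2⟩
    unfold rad
    apply Finset.prod_primes_dvd
    · intro p hp
      exact (Nat.prime_of_mem_primeFactors hp).prime
    · intro p hp
      apply hPz p (Nat.prime_of_mem_primeFactors hp)
      exact (Nat.le_of_dvd (by omega) (Nat.dvd_of_mem_primeFactors hp)).trans hm.2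
  rw [← Finset.sum_fiberwise_of_maps_to hmaps]
  apply Finset.sum_le_sum
  intro l hl
  rw [mem_filter, Nat.mem_divisors] at hl
  have hl0 : l ≠ 0 := ne_zero_of_dvd_ne_zero hP hl.1.1
  have hnorm : ∀ {p : ℕ}, p.Prime → ‖cmulFun c p‖ < 1 := by
    intro p hp
    rw [cmulFun_prime c hp, Real.norm_of_nonneg (hc0 p hp)]
    exact hc1 p hp
  obtain ⟨-, hsum⟩ :=
    EulerProduct.summable_and_hasSum_factoredNumbers_prod_filter_prime_geometric hnorm
      l.primeFactors
  have hprod : ∏ p ∈ l.primeFactors with p.Prime, (1 - cmulFun c p)⁻¹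
      = ∏ p ∈ l.primeFactors, (1 - c p)⁻¹ := by
    rw [Finset.filter_true_of_mem (fun p hp => Nat.prime_of_mem_primeFactors hp)]
    apply Finset.prod_congr rfl
    intro p hp
    rw [cmulFun_prime c (Nat.prime_of_mem_primeFactors hp)]
  rw [hprod] at hsum
  rw [← hsum.tsum_eq]
  -- the fibre over l
  set A : Finset ℕ := (Icc 1 z).filter (fun m => rad m = l) with hA
  have hA' : ∀ m ∈ A, ∃ k, m = l * k ∧ k ∈ factoredNumbers l.primeFactors := by
    intro m hm
    rw [hA, mem_filter, mem_Icc] at hm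
    obtain ⟨k, hk⟩ := rad_dvd m
    rw [hm.2] at hk
    refine ⟨k, hk, ?_⟩
    rw [mem_factoredNumbers_iff_primeFactors_subset]
    have hk0 : k ≠ 0 := by rintro rfl; omega
    refine ⟨hk0, ?_⟩
    have h1 : k.primeFactors ⊆ m.primeFactors :=
      Nat.primeFactors_mono (Dvd.intro_left l hk.symm) (by omega)
    have h2 : l.primeFactors = m.primeFactors := by rw [← hm.2, rad_primeFactors]
    rwa [h2]
  have h1 : ∑ m ∈ A, cmulFun c m = cmulFun c l * ∑ m ∈ A, cmulFun c (m / l) := by
    rw [Finset.mul_sum]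
    apply Finset.sum_congr rfl
    intro m hm
    obtain ⟨k, rfl, -⟩ := hA' m hm
    rw [Nat.mul_div_cancel_left k (Nat.pos_of_ne_zero hl0), map_mul]
  rw [h1]
  apply mul_le_mul_of_nonneg_left _ (cmulFun_nonneg hc0 l)
  -- finite sum bounded by the series
  set B : Finset (factoredNumbers l.primeFactors) :=
    (A.image (fun m => m / l)).subtype (fun k => k ∈ factoredNumbers l.primeFactors) with hB
  have h2 : ∑ m ∈ A, cmulFun c (m / l) = ∑ k ∈ B, cmulFun c (k : ℕ) := by
    rw [hB, Finset.sum_subtype_of_mem (f := fun k => cmulFun c k)]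
    · rw [Finset.sum_image]
      intro a ha b hb hab
      obtain ⟨ka, rfl, -⟩ := hA' a ha
      obtain ⟨kb, rfl, -⟩ := hA' b hb
      simp only [Nat.mul_div_cancel_left _ (Nat.pos_of_ne_zero hl0)] at hab
      rw [hab]
    · intro k hk
      rw [mem_image] at hk
      obtain ⟨m, hm, rfl⟩ := hk
      obtain ⟨k, rfl, hk⟩ := hA' m hm
      rwa [Nat.mul_div_cancel_left k (Nat.pos_of_ne_zero hl0)]
  rw [h2]
  exact Summable.sum_le_tsum B (fun k _ => cmulFun_nonneg hc0 _) hsum.summable

/-- Removing one prime from the harmonic sum. -/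
lemma harmonic_step (s : ℕ) (T : Finset ℕ) {p : ℕ} (hp : p.Prime) :
    (∑ b ∈ Icc 1 s with (∀ q ∈ T, ¬ q ∣ b), (1 : ℝ) / b) * (1 - 1 / (p : ℝ))
      ≤ ∑ b ∈ Icc 1 s with (∀ q ∈ insert p T, ¬ q ∣ b), (1 : ℝ) / b := by
  classical
  set A := (Icc 1 s).filter (fun b => ∀ q ∈ T, ¬ q ∣ b) with hA
  have hsplit : ∑ b ∈ A, (1 : ℝ) / b
      = ∑ b ∈ A with p ∣ b, (1 : ℝ) / b + ∑ b ∈ A with ¬ p ∣ b, (1 : ℝ) / b :=
    (Finset.sum_filter_add_sum_filter_not A (fun b => p ∣ b) _).symm
  have h2 : (Icc 1 s).filter (fun b => ∀ q ∈ insert p T, ¬ q ∣ b) = A.filter (fun b => ¬ p ∣ b) := by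
    rw [hA, Finset.filter_filter]
    apply Finset.filter_congr
    intro b _
    simp only [Finset.mem_insert, forall_eq_or_imp]
    tauto
  have h3 : ∑ b ∈ A with p ∣ b, (1 : ℝ) / b ≤ 1 / (p : ℝ) * ∑ b ∈ A, (1 : ℝ) / b := by
    have h4 : ∀ b ∈ A.filter (fun b => p ∣ b), (1 : ℝ) / b = 1 / (p : ℝ) * (1 / ((b / p : ℕ) : ℝ)) := by
      intro b hb
      rw [mem_filter] at hb
      obtain ⟨_, k, rfl⟩ := hb
      rw [Nat.mul_div_cancel_left k hp.pos]
      push_cast
      rw [one_div_mul_one_div]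
    rw [Finset.sum_congr rfl h4, ← Finset.mul_sum]
    apply mul_le_mul_of_nonneg_left _ (by positivity)
    have h5 : ∑ b ∈ A with p ∣ b, (1 : ℝ) / ((b / p : ℕ) : ℝ)
        = ∑ k ∈ (A.filter (fun b => p ∣ b)).image (fun b => b / p), (1 : ℝ) / (k : ℝ) := by
      rw [Finset.sum_image]
      intro a ha b hb hab
      simp only [coe_filter, Set.mem_ofPred_eq] at ha hb
      obtain ⟨_, ka, rfl⟩ := ha
      obtain ⟨_, kb, rfl⟩ := hb
      simp only [Nat.mul_div_cancel_left _ hp.pos] at hab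
      rw [hab]
    rw [h5]
    apply Finset.sum_le_sum_of_subset_of_nonneg
    · intro k hk
      rw [mem_image] at hk
      obtain ⟨b, hb, rfl⟩ := hk
      rw [mem_filter, hA, mem_filter, mem_Icc] at hb
      obtain ⟨⟨hb1, hb2⟩, k, rfl⟩ := hb
      rw [Nat.mul_div_cancel_left k hp.pos, hA, mem_filter, mem_Icc]
      have hk0 : k ≠ 0 := by rintro rfl; omega
      refine ⟨⟨Nat.pos_of_ne_zero hk0, (Nat.le_mul_of_pos_left k hp.pos).trans hb1.2⟩, ?_⟩
      intro q hq hqk
      exact hb2 q hq (Dvd.dvd.mul_left hqk p)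
    · intro k _ _; positivity
  rw [h2]
  nlinarith [hsplit, h3]

lemma harmonic_coprime (s : ℕ) (T : Finset ℕ) (hT : ∀ p ∈ T, p.Prime) :
    (∑ b ∈ Icc 1 s, (1 : ℝ) / b) * ∏ p ∈ T, (1 - 1 / (p : ℝ))
      ≤ ∑ b ∈ Icc 1 s with (∀ q ∈ T, ¬ q ∣ b), (1 : ℝ) / b := by
  classical
  induction T using Finset.induction_on with
  | empty => simp
  | insert p T hpT ih =>
    have hp : p.Prime := hT p (Finset.mem_insert_self p T)
    have hT' : ∀ q ∈ T, q.Prime := fun q hq => hT q (Finset.mem_insert_of_mem hq)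
    rw [Finset.prod_insert hpT]
    have h1 : (0 : ℝ) ≤ 1 - 1 / (p : ℝ) := by
      have : (1 : ℝ) < p := by exact_mod_cast hp.one_lt
      rw [sub_nonneg, div_le_one (by linarith)]
      exact this.le
    calc (∑ b ∈ Icc 1 s, (1 : ℝ) / b) * ((1 - 1 / (p : ℝ)) * ∏ p ∈ T, (1 - 1 / (p : ℝ)))
        = ((∑ b ∈ Icc 1 s, (1 : ℝ) / b) * ∏ p ∈ T, (1 - 1 / (p : ℝ))) * (1 - 1 / (p : ℝ)) := by
          ring
      _ ≤ _ := mul_le_mul_of_nonneg_right (ih hT') h1
      _ ≤ _ := harmonic_step s T hp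

/-- `κ p = 1` if `p ∣ d` and `2` otherwise. -/
def kap (d p : ℕ) : ℕ := if p ∣ d then 1 else 2

/-- The number of divisors of `m` coprime to `d` is at most the completely multiplicative
function with values `κ p`. -/
lemma card_divisors_coprime_le (d m : ℕ) :
    (((m.divisors).filter (fun b => b.Coprime d)).card : ℝ)
      ≤ if m = 0 then 0 else cmulFun (fun p => (kap d p : ℝ)) m := by
  classical
  induction m using Nat.recOnMul with
  | zero => simp
  | one => simp [Finset.filter_singleton]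
  | prime p hp =>
    rw [if_neg hp.ne_zero, cmulFun_prime _ hp]
    unfold kap
    split_ifs with h
    · have : (p.divisors.filter (fun b => b.Coprime d)) ⊆ {1} := by
        intro b hb
        rw [mem_filter, Nat.mem_divisors] at hb
        rw [mem_singleton]
        rcases (Nat.dvd_prime hp).mp hb.1.1 with h1 | h1
        · exact h1
        · exfalso
          rw [h1] at hb
          exact (Nat.Prime.coprime_iff_not_dvd hp).mp hb.2 h
      have := Finset.card_le_card this
      simp only [card_singleton] at this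
      exact_mod_cast this
    · have : (p.divisors.filter (fun b => b.Coprime d)).card ≤ p.divisors.card :=
        Finset.card_filter_le _ _
      rw [hp.divisors] at this
      have h2 : ({1, p} : Finset ℕ).card ≤ 2 := Finset.card_le_two
      rw [hp.divisors]
      exact_mod_cast this.trans h2
  | mul a b ha hb =>
    by_cases ha0 : a = 0
    · simp [ha0]
    by_cases hb0 : b = 0
    · simp [hb0]
    rw [if_neg ha0] at ha
    rw [if_neg hb0] at hb
    rw [if_neg (mul_ne_zero ha0 hb0), map_mul]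
    have hsub : ((a * b).divisors.filter (fun x => x.Coprime d))
        ⊆ Finset.image₂ (fun x y => x * y) (a.divisors.filter (fun x => x.Coprime d))
          (b.divisors.filter (fun x => x.Coprime d)) := by
      intro x hx
      rw [mem_filter, Nat.mem_divisors] at hx
      obtain ⟨y, w, hy, hw, rfl⟩ := (Nat.dvd_mul).mp hx.1.1
      rw [Finset.mem_image₂]
      have hc := Nat.Coprime.coprime_mul_right hx.2
      have hc' := Nat.Coprime.coprime_mul_left hx.2
      refine ⟨y, ?_, w, ?_, rfl⟩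
      · rw [mem_filter, Nat.mem_divisors]; exact ⟨⟨hy, ha0⟩, hc⟩
      · rw [mem_filter, Nat.mem_divisors]; exact ⟨⟨hw, hb0⟩, hc'⟩
    have hcard := (Finset.card_le_card hsub).trans (Finset.card_image₂_le _ _ _)
    calc ((((a * b).divisors.filter (fun x => x.Coprime d)).card : ℕ) : ℝ)
        ≤ ((a.divisors.filter (fun x => x.Coprime d)).card : ℝ)
          * ((b.divisors.filter (fun x => x.Coprime d)).card : ℝ) := by exact_mod_cast hcard
      _ ≤ _ := by
        apply mul_le_mul ha hb (by positivity)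
        exact (by positivity : (0 : ℝ) ≤ _).trans ha

/-- Completely multiplicative functions and division by `m`. -/
lemma cmulFun_div (d : ℕ) {m : ℕ} (hm : m ≠ 0) :
    cmulFun (fun p => (kap d p : ℝ)) m / m = cmulFun (fun p => (kap d p : ℝ) / p) m := by
  induction m using Nat.recOnMul with
  | zero => exact absurd rfl hm
  | one => simp
  | prime p hp => rw [cmulFun_prime _ hp, cmulFun_prime _ hp]
  | mul a b ha hb =>
    have ha0 : a ≠ 0 := left_ne_zero_of_mul hm
    have hb0 : b ≠ 0 := right_ne_zero_of_mul hm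
    rw [map_mul, map_mul, ← ha ha0, ← hb hb0]
    push_cast
    rw [mul_div_mul_comm]

/-- Lower bound for the completely multiplicative sum. -/
lemma sum_cmulFun_ge (d s : ℕ) (hd : d ≠ 0) :
    (Nat.totient d : ℝ) / d * (∑ a ∈ Icc 1 s, (1 : ℝ) / a) ^ 2
      ≤ ∑ m ∈ Icc 1 (s ^ 2), cmulFun (fun p => (kap d p : ℝ) / p) m := by
  classical
  have htot : (Nat.totient d : ℝ) / d = ∏ p ∈ d.primeFactors, (1 - 1 / (p : ℝ)) := by
    have h1 := Nat.totient_eq_mul_prod_factors d
    have h2 : (Nat.totient d : ℝ) = (d : ℝ) * ∏ p ∈ d.primeFactors, (1 - (p : ℝ)⁻¹) := by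
      have := congrArg (fun q : ℚ => (q : ℝ)) h1
      push_cast at this
      exact this
    rw [h2]
    have hd' : (d : ℝ) ≠ 0 := by exact_mod_cast hd
    rw [mul_div_cancel_left₀ _ hd']
    apply Finset.prod_congr rfl
    intro p _
    rw [one_div]
  have h1 := harmonic_coprime s d.primeFactors (fun p hp => Nat.prime_of_mem_primeFactors hp)
  rw [← htot] at h1
  have hcop : (Icc 1 s).filter (fun b => ∀ q ∈ d.primeFactors, ¬ q ∣ b)
      = (Icc 1 s).filter (fun b => b.Coprime d) := by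
    apply Finset.filter_congr
    intro b _
    constructor
    · intro h
      rw [Nat.coprime_iff_gcd_eq_one]
      by_contra hne
      obtain ⟨q, hq, hqd⟩ := Nat.exists_prime_and_dvd hne
      exact h q (Nat.mem_primeFactors.mpr ⟨hq, hqd.trans (Nat.gcd_dvd_right _ _), hd⟩)
        (hqd.trans (Nat.gcd_dvd_left _ _))
    · intro h q hq hqb
      have hqp := Nat.prime_of_mem_primeFactors hq
      have : q ∣ Nat.gcd b d := Nat.dvd_gcd hqb (Nat.dvd_of_mem_primeFactors hq)
      rw [h] at this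
      exact hqp.one_lt.ne' (Nat.dvd_one.mp this)
  rw [hcop] at h1
  have hH : (0 : ℝ) ≤ ∑ a ∈ Icc 1 s, (1 : ℝ) / a := Finset.sum_nonneg fun _ _ => by positivity
  calc (Nat.totient d : ℝ) / d * (∑ a ∈ Icc 1 s, (1 : ℝ) / a) ^ 2
      = (∑ a ∈ Icc 1 s, (1 : ℝ) / a) * ((∑ a ∈ Icc 1 s, (1 : ℝ) / a) * ((Nat.totient d : ℝ) / d)) := by
        ring
    _ ≤ (∑ a ∈ Icc 1 s, (1 : ℝ) / a) * ∑ b ∈ Icc 1 s with b.Coprime d, (1 : ℝ) / b :=
        mul_le_mul_of_nonneg_left h1 hH
    _ = ∑ x ∈ Icc 1 s ×ˢ (Icc 1 s).filter (fun b => b.Coprime d), (1 : ℝ) / ((x.1 * x.2 : ℕ) : ℝ) := by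
        rw [Finset.sum_mul_sum, Finset.sum_product]
        apply Finset.sum_congr rfl; intro a _
        apply Finset.sum_congr rfl; intro b _
        push_cast
        rw [one_div_mul_one_div]
    _ = ∑ m ∈ Icc 1 (s ^ 2), ∑ x ∈ (Icc 1 s ×ˢ (Icc 1 s).filter (fun b => b.Coprime d)) with
          x.1 * x.2 = m, (1 : ℝ) / ((x.1 * x.2 : ℕ) : ℝ) := by
        rw [Finset.sum_fiberwise_of_maps_to]
        rintro ⟨a, b⟩ hx
        simp only [mem_product, mem_filter, mem_Icc] at hx ⊢
        refine ⟨Nat.mul_pos hx.1.1 hx.2.1.1, ?_⟩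
        rw [pow_two]
        exact Nat.mul_le_mul hx.1.2 hx.2.1.2
    _ ≤ ∑ m ∈ Icc 1 (s ^ 2), cmulFun (fun p => (kap d p : ℝ) / p) m := by
        apply Finset.sum_le_sum
        intro m hm
        rw [mem_Icc] at hm
        have hm0 : m ≠ 0 := by omega
        have e1 : ∑ x ∈ (Icc 1 s ×ˢ (Icc 1 s).filter (fun b => b.Coprime d)) with
            x.1 * x.2 = m, (1 : ℝ) / ((x.1 * x.2 : ℕ) : ℝ)
            = (((Icc 1 s ×ˢ (Icc 1 s).filter (fun b => b.Coprime d)).filter
              (fun x => x.1 * x.2 = m)).card : ℝ) * (1 / (m : ℝ)) := by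
          rw [← nsmul_eq_mul, ← Finset.sum_const]
          apply Finset.sum_congr rfl
          intro x hx
          rw [mem_filter] at hx
          rw [hx.2]
        have e2 : ((Icc 1 s ×ˢ (Icc 1 s).filter (fun b => b.Coprime d)).filter
            (fun x => x.1 * x.2 = m)).card ≤ ((m.divisors).filter (fun b => b.Coprime d)).card := by
          apply Finset.card_le_card_of_injOn (fun x => x.2)
          · rintro ⟨a, b⟩ hx
            simp only [coe_filter, mem_product, mem_filter, Set.mem_ofPred_eq] at hx ⊢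
            refine ⟨Nat.mem_divisors.mpr ⟨Dvd.intro_left a hx.2, hm0⟩, hx.1.2.2⟩
          · rintro ⟨a, b⟩ hx ⟨a', b'⟩ hx' hbb
            simp only [coe_filter, mem_product, mem_filter, Set.mem_ofPred_eq, mem_Icc] at hx hx'
            simp only at hbb
            subst hbb
            have : a * b = a' * b := by rw [hx.2, hx'.2]
            have hb : 0 < b := hx.1.2.1.1
            rw [Nat.eq_of_mul_eq_mul_right hb this]
        have e3 := card_divisors_coprime_le d m
        rw [if_neg hm0] at e3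
        rw [e1, ← cmulFun_div d hm0, mul_one_div]
        apply div_le_div_of_nonneg_right _ (Nat.cast_nonneg m)
        exact (by exact_mod_cast e2 : (_ : ℝ) ≤ _).trans e3

/-- **Lower bound for the main sum.** -/
theorem main_sum_lower (d s P : ℕ) (hd : d ≠ 0) (h2 : 2 ∣ d) (hP : P ≠ 0)
    (hPz : ∀ p, p.Prime → p ≤ s ^ 2 → p ∣ P) :
    (Nat.totient d : ℝ) / d * (∑ a ∈ Icc 1 s, (1 : ℝ) / a) ^ 2
      ≤ ∑ l ∈ P.divisors with l ≤ s ^ 2, cmulFun (fun p => (kap d p : ℝ) / p) l
        * ∏ p ∈ l.primeFactors, (1 - (kap d p : ℝ) / p)⁻¹ := by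
  refine (sum_cmulFun_ge d s hd).trans (sum_le_squarefree_sum ?_ ?_ hP hPz)
  · intro p _; positivity
  · intro p hp
    have hp0 : (0 : ℝ) < p := by exact_mod_cast hp.pos
    rw [div_lt_one hp0]
    unfold kap
    split_ifs with h
    · exact_mod_cast hp.one_lt
    · have : p ≠ 2 := by rintro rfl; exact h h2
      have := hp.two_le
      exact_mod_cast (by omega : 2 < p)

end

end Pool.Agent.Lib.MP_5d7b92_nt.SieveLower
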