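import Pool.Agent.Lib.MP_5d7b92_nt.Selberg
import Pool.Agent.Lib.MP_5d7b92_nt.SieveLower

/-!
# Upper bound for the number of prime pairs `p, p + d`

`pair_sieve`: uniformly in `N ≥ 2` and `d ≥ 1`, the number of `p ≤ N` with `p` and `p + d` both
prime is at most `C * (d / φ(d)) * N / (log N)^2`.
-/

namespace Pool.Agent.Lib.MP_5d7b92_nt

open Finset Nat ArithmeticFunction BoundingSieve
open Selberg SieveLower

noncomputable section

/-- Solutions of `x (x + d) = 0` modulo `l`. -/
abbrev Sol (d l : ℕ) : Type := {x : ZMod l // x * (x + (d : ZMod l)) = 0}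

/-- The number of solutions of `x (x + d) = 0` modulo `l`. -/
def rho (d l : ℕ) : ℕ := Nat.card (Sol d l)

lemma rho_mul (d : ℕ) {a b : ℕ} (h : a.Coprime b) : rho d (a * b) = rho d a * rho d b := by
  unfold rho
  rw [← Nat.card_prod]
  apply Nat.card_congr
  let e := ZMod.chineseRemainder h
  have he : ∀ x : ZMod (a * b), e (x * (x + (d : ZMod (a * b))))
      = e x * (e x + (d : ZMod a × ZMod b)) := by
    intro x
    rw [map_mul, map_add, map_natCast]
  refine ⟨fun x => (⟨(e x.1).1, ?_⟩, ⟨(e x.1).2, ?_⟩), fun y => ⟨e.symm (y.1.1, y.2.1), ?_⟩, ?_, ?_⟩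
  · have h1 := he x.1
    rw [x.2, _root_.map_zero] at h1
    exact (congrArg Prod.fst h1).symm
  · have h1 := he x.1
    rw [x.2, _root_.map_zero] at h1
    exact (congrArg Prod.snd h1).symm
  · apply e.injective
    rw [he, _root_.map_zero, RingEquiv.apply_symm_apply]
    exact Prod.ext y.1.2 y.2.2
  · intro x
    apply Subtype.ext
    simp
  · intro y
    simp

lemma rho_one (d : ℕ) : rho d 1 = 1 := by
  unfold rho
  rw [Nat.card_eq_one_iff_unique]
  constructor
  · constructor
    intro x y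
    apply Subtype.ext
    exact Subsingleton.elim _ _
  · exact ⟨⟨0, Subsingleton.elim _ _⟩⟩

lemma rho_prime (d : ℕ) {p : ℕ} (hp : p.Prime) : rho d p = kap d p := by
  have : Fact p.Prime := ⟨hp⟩
  unfold rho kap
  rw [Nat.subtype_card ({0, -(d : ZMod p)} : Finset (ZMod p))]
  · split_ifs with h
    · have : (d : ZMod p) = 0 := (ZMod.natCast_eq_zero_iff d p).mpr h
      simp [this]
    · have : (d : ZMod p) ≠ 0 := fun h' => h ((ZMod.natCast_eq_zero_iff d p).mp h')
      rw [Finset.card_pair]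
      intro h'
      exact this (neg_eq_zero.mp h'.symm)
  · intro x
    rw [mem_insert, mem_singleton, _root_.mul_eq_zero, add_eq_zero_iff_eq_neg]

/-- The sieve density. -/
def nuFun (d : ℕ) : ArithmeticFunction ℝ :=
  ⟨fun l => if l = 0 then 0 else (rho d l : ℝ) / l, by simp⟩

lemma nuFun_apply {d l : ℕ} (hl : l ≠ 0) : nuFun d l = (rho d l : ℝ) / l := by
  simp [nuFun, hl]

lemma nuFun_mult (d : ℕ) : (nuFun d).IsMultiplicative := by
  rw [IsMultiplicative.iff_ne_zero]
  constructor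
  · rw [nuFun_apply one_ne_zero, rho_one]; simp
  · intro m n hm hn h
    rw [nuFun_apply (mul_ne_zero hm hn), nuFun_apply hm, nuFun_apply hn, rho_mul d h]
    push_cast
    rw [mul_div_mul_comm]

lemma nuFun_prime (d : ℕ) {p : ℕ} (hp : p.Prime) : nuFun d p = (kap d p : ℝ) / p := by
  rw [nuFun_apply hp.ne_zero, rho_prime d hp]

lemma nuFun_prime_le {d : ℕ} (h2 : 2 ∣ d) {p : ℕ} (hp : p.Prime) : nuFun d p ≤ 2 / 3 := by
  rw [nuFun_prime d hp]
  have hp0 : (0 : ℝ) < p := by exact_mod_cast hp.pos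
  rw [div_le_div_iff₀ hp0 (by norm_num)]
  unfold kap
  split_ifs with h
  · have : (2 : ℝ) ≤ p := by exact_mod_cast hp.two_le
    push_cast; linarith
  · have : p ≠ 2 := by rintro rfl; exact h h2
    have := hp.two_le
    have : (3 : ℝ) ≤ p := by exact_mod_cast (by omega : 3 ≤ p)
    push_cast; linarith

/-- The sieve problem for `n (n + d)`, `n ≤ N`, sifted by all primes `≤ z`. -/
def pairSieve (N d z : ℕ) (h2 : 2 ∣ d) : BoundingSieve where
  support := (Ioc 0 N).image (fun n => n * (n + d))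
  prodPrimes := primorial z
  prodPrimes_squarefree := squarefree_primorial z
  weights := fun _ => 1
  weights_nonneg := fun _ => zero_le_one
  totalMass := N
  nu := nuFun d
  nu_mult := nuFun_mult d
  nu_pos_of_prime := by
    intro p hp _
    rw [nuFun_prime d hp]
    have hp0 : (0 : ℝ) < p := by exact_mod_cast hp.pos
    apply div_pos _ hp0
    unfold kap
    split_ifs <;> norm_num
  nu_lt_one_of_prime := by
    intro p hp _
    have := nuFun_prime_le h2 hp
    linarith

lemma quad_inj {d a b : ℕ} (ha : 0 < a) (h : a * (a + d) = b * (b + d)) : a = b := by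
  rcases lt_trichotomy a b with h1 | h1 | h1
  · exfalso
    have : a * (a + d) < b * (b + d) := by nlinarith
    omega
  · exact h1
  · exfalso
    have : b * (b + d) < a * (a + d) := by nlinarith
    omega

lemma quad_injOn (N d : ℕ) : Set.InjOn (fun n => n * (n + d)) (Ioc 0 N : Finset ℕ) := by
  intro a ha b _ h
  simp only [coe_Ioc, Set.mem_Ioc] at ha
  exact quad_inj ha.1 h

/-- Number of `n ≤ N` in a residue class. -/
lemma count_class (N l v : ℕ) (hl : 0 < l) :
    |(((Ioc 0 N).filter (fun n => n ≡ v [MOD l])).card : ℝ) - (N : ℝ) / l| ≤ 1 := by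
  have h := Nat.Ioc_filter_modEq_card 0 N hl v
  have hl' : (0 : ℝ) < l := by exact_mod_cast hl
  set A : ℤ := ⌊((N : ℚ) - v) / (l : ℚ)⌋ with hA
  set B : ℤ := ⌊(((0 : ℕ) : ℚ) - v) / (l : ℚ)⌋ with hB
  have hAB : B ≤ A := by
    rw [hA, hB]
    apply Int.floor_le_floor
    have : (0 : ℚ) < l := by exact_mod_cast hl
    gcongr
    exact Nat.zero_le N
  rw [max_eq_left (by linarith)] at h
  have h1 : (((Ioc 0 N).filter (fun n => n ≡ v [MOD l])).card : ℝ) = (A : ℝ) - B := by
    have : ((((Ioc 0 N).filter (fun n => n ≡ v [MOD l])).card : ℤ) : ℝ) = ((A - B : ℤ) : ℝ) := by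
      rw [h]
    push_cast at this
    exact this
  rw [h1]
  have a1 : (A : ℚ) ≤ ((N : ℚ) - v) / (l : ℚ) := Int.floor_le _
  have a2 : ((N : ℚ) - v) / (l : ℚ) < A + 1 := Int.lt_floor_add_one _
  have b1 : (B : ℚ) ≤ (((0 : ℕ) : ℚ) - v) / (l : ℚ) := Int.floor_le _
  have b2 : (((0 : ℕ) : ℚ) - v) / (l : ℚ) < B + 1 := Int.lt_floor_add_one _
  have a1' : (A : ℝ) ≤ ((N : ℝ) - v) / (l : ℝ) := by exact_mod_cast a1
  have a2' : ((N : ℝ) - v) / (l : ℝ) < A + 1 := by exact_mod_cast a2
  have b1' : (B : ℝ) ≤ (0 - (v : ℝ)) / (l : ℝ) := by exact_mod_cast b1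
  have b2' : (0 - (v : ℝ)) / (l : ℝ) < B + 1 := by exact_mod_cast b2
  have e1 : ((N : ℝ) - v) / (l : ℝ) - (0 - (v : ℝ)) / (l : ℝ) = (N : ℝ) / l := by
    field_simp; ring
  rw [abs_le]
  constructor <;> linarith

lemma rem_le (N d z : ℕ) (h2 : 2 ∣ d) {l : ℕ} (hl : l ≠ 0) :
    |(pairSieve N d z h2).rem l| ≤ rho d l := by
  have : NeZero l := ⟨hl⟩
  have hl' : 0 < l := Nat.pos_of_ne_zero hl
  have hmult : (pairSieve N d z h2).multSum l
      = (((Ioc 0 N).filter (fun n => l ∣ n * (n + d))).card : ℝ) := by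
    change ∑ k ∈ (Ioc 0 N).image (fun n => n * (n + d)), (if l ∣ k then (1 : ℝ) else 0) = _
    rw [Finset.sum_image (quad_injOn N d), Finset.card_filter]
    push_cast
    rfl
  have hsplit : (((Ioc 0 N).filter (fun n => l ∣ n * (n + d))).card : ℝ)
      = ∑ x : Sol d l, (((Ioc 0 N).filter (fun n => n ≡ (x.1).val [MOD l])).card : ℝ) := by
    have h1 : (Ioc 0 N).filter (fun n => l ∣ n * (n + d))
        = (Finset.univ : Finset (Sol d l)).biUnion
          (fun x => (Ioc 0 N).filter (fun n => n ≡ (x.1).val [MOD l])) := by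
      ext n
      simp only [mem_filter, mem_biUnion, mem_univ, true_and]
      constructor
      · rintro ⟨h3, h4⟩
        have h5 : (n : ZMod l) * ((n : ZMod l) + (d : ZMod l)) = 0 := by
          have := (ZMod.natCast_eq_zero_iff (n * (n + d)) l).mpr h4
          push_cast at this
          exact this
        refine ⟨⟨(n : ZMod l), h5⟩, h3, ?_⟩
        rw [← ZMod.natCast_eq_natCast_iff, ZMod.natCast_zmod_val]
      · rintro ⟨x, h3, h4⟩
        refine ⟨h3, ?_⟩
        rw [← ZMod.natCast_eq_natCast_iff, ZMod.natCast_zmod_val] at h4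
        have := x.2
        rw [← h4] at this
        rw [← ZMod.natCast_eq_zero_iff]
        push_cast
        exact this
    rw [h1, Finset.card_biUnion]
    · push_cast; rfl
    · intro x _ y _ hxy
      rw [Function.onFun, Finset.disjoint_left]
      intro n hn hn'
      rw [mem_filter] at hn hn'
      apply hxy
      have h3 := hn.2.symm.trans hn'.2
      rw [← ZMod.natCast_eq_natCast_iff, ZMod.natCast_zmod_val, ZMod.natCast_zmod_val] at h3
      exact Subtype.ext h3
  have hcard : (rho d l : ℝ) = ∑ _x : Sol d l, (1 : ℝ) := by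
    rw [rho, Nat.card_eq_fintype_card]; simp
  have hrem : (pairSieve N d z h2).rem l
      = ∑ x : Sol d l, ((((Ioc 0 N).filter (fun n => n ≡ (x.1).val [MOD l])).card : ℝ)
        - (N : ℝ) / l) := by
    unfold BoundingSieve.rem
    rw [hmult, hsplit, Finset.sum_sub_distrib]
    congr 1
    change nuFun d l * (N : ℝ) = _
    rw [nuFun_apply hl, hcard, Finset.sum_const, Finset.sum_const]
    simp only [nsmul_eq_mul, mul_one]
    ring
  rw [hrem, hcard]
  refine (Finset.abs_sum_le_sum_abs _ _).trans (Finset.sum_le_sum fun x _ => ?_)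
  exact count_class N l _ hl'

lemma rho_le {d l : ℕ} (hl : Squarefree l) : rho d l ≤ 2 ^ l.primeFactors.card := by
  have h1 : nuFun d l = ∏ p ∈ l.primeFactors, nuFun d p := by
    have := (nuFun_mult d).map_prod_of_subset_primeFactors l l.primeFactors subset_rfl
    rw [← this, Nat.prod_primeFactors_of_squarefree hl]
  have hl0 : (l : ℝ) ≠ 0 := by exact_mod_cast hl.ne_zero
  have h2 : (rho d l : ℝ) = ∏ p ∈ l.primeFactors, (kap d p : ℝ) := by
    have h3 : (rho d l : ℝ) = nuFun d l * l := by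
      rw [nuFun_apply hl.ne_zero]; field_simp
    rw [h3, h1]
    have h4 : (l : ℝ) = ∏ p ∈ l.primeFactors, (p : ℝ) := by
      have h6 : (l : ℝ) = ((∏ p ∈ l.primeFactors, p : ℕ) : ℝ) := by
        rw [Nat.prod_primeFactors_of_squarefree hl]
      rw [h6, Nat.cast_prod]
    conv_lhs => rw [h4]
    rw [← Finset.prod_mul_distrib]
    apply Finset.prod_congr rfl
    intro p hp
    have hpp := Nat.prime_of_mem_primeFactors hp
    have hp0 : (p : ℝ) ≠ 0 := by exact_mod_cast hpp.ne_zero
    rw [nuFun_prime d hpp]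
    field_simp
  have h5 : rho d l = ∏ p ∈ l.primeFactors, kap d p := by exact_mod_cast h2
  rw [h5]
  apply Finset.prod_le_pow_card
  intro p _
  unfold kap
  split_ifs <;> norm_num

lemma two_pow_card_le {l : ℕ} (hl : l ≠ 0) : 2 ^ l.primeFactors.card ≤ l := by
  calc 2 ^ l.primeFactors.card ≤ ∏ p ∈ l.primeFactors, p := by
        apply Finset.pow_card_le_prod
        intro p hp
        exact (Nat.prime_of_mem_primeFactors hp).two_le
    _ ≤ l := Nat.le_of_dvd (Nat.pos_of_ne_zero hl) (Nat.prod_primeFactors_dvd l)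

lemma card_primeFactors_lcm_le (a b : ℕ) :
    (Nat.lcm a b).primeFactors.card ≤ a.primeFactors.card + b.primeFactors.card := by
  by_cases ha : a = 0
  · simp [ha]
  by_cases hb : b = 0
  · simp [hb]
  have hsub : (Nat.lcm a b).primeFactors ⊆ a.primeFactors ∪ b.primeFactors := by
    intro p hp
    have hpp := Nat.prime_of_mem_primeFactors hp
    have h1 : p ∣ a * b := (Nat.dvd_of_mem_primeFactors hp).trans (Nat.lcm_dvd_mul a b)
    rw [mem_union, Nat.mem_primeFactors, Nat.mem_primeFactors]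
    rcases (Nat.Prime.dvd_mul hpp).mp h1 with h | h
    · left; exact ⟨hpp, h, ha⟩
    · right; exact ⟨hpp, h, hb⟩
  exact (Finset.card_le_card hsub).trans (Finset.card_union_le _ _)

/-- The error term in the application. -/
lemma error_le (N d z : ℕ) (h2 : 2 ∣ d) :
    ∑ d1 ∈ (pairSieve N d z h2).prodPrimes.divisors with d1 ≤ z,
      ∑ d2 ∈ (pairSieve N d z h2).prodPrimes.divisors with d2 ≤ z,
        (∏ p ∈ d1.primeFactors, (1 - (pairSieve N d z h2).nu p)⁻¹)
          * (∏ p ∈ d2.primeFactors, (1 - (pairSieve N d z h2).nu p)⁻¹)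
          * |(pairSieve N d z h2).rem (Nat.lcm d1 d2)|
      ≤ (z : ℝ) ^ 8 := by
  set s := pairSieve N d z h2 with hs
  have hw : ∀ e : ℕ, e ≠ 0 → e ≤ z →
      (∏ p ∈ e.primeFactors, (1 - s.nu p)⁻¹) * 2 ^ e.primeFactors.card ≤ (z : ℝ) ^ 3 := by
    intro e he hez
    have h3 : ∏ p ∈ e.primeFactors, (1 - s.nu p)⁻¹ ≤ (4 : ℝ) ^ e.primeFactors.card := by
      rw [← Finset.prod_const]
      apply Finset.prod_le_prod
      · intro p hp
        have hpp := Nat.prime_of_mem_primeFactors hp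
        have : s.nu p ≤ 2 / 3 := nuFun_prime_le h2 hpp
        rw [inv_nonneg]; linarith
      · intro p hp
        have hpp := Nat.prime_of_mem_primeFactors hp
        have : s.nu p ≤ 2 / 3 := nuFun_prime_le h2 hpp
        rw [inv_le_comm₀ (by linarith) (by norm_num)]
        linarith
    have h4 : ((2 : ℝ) ^ e.primeFactors.card) ≤ z := by
      have := (two_pow_card_le he).trans hez
      exact_mod_cast this
    calc (∏ p ∈ e.primeFactors, (1 - s.nu p)⁻¹) * 2 ^ e.primeFactors.card
        ≤ (4 : ℝ) ^ e.primeFactors.card * 2 ^ e.primeFactors.card := by gcongr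
      _ = ((2 : ℝ) ^ e.primeFactors.card) ^ 3 := by
          rw [show (4 : ℝ) = 2 ^ 2 by norm_num, ← pow_mul, ← pow_mul, ← pow_add]
          congr 1; ring
      _ ≤ (z : ℝ) ^ 3 := by gcongr
  have hcard : ((s.prodPrimes.divisors.filter (fun l => l ≤ z)).card : ℝ) ≤ z := by
    have : s.prodPrimes.divisors.filter (fun l => l ≤ z) ⊆ Icc 1 z := by
      intro l hl
      rw [mem_filter, Nat.mem_divisors] at hl
      rw [mem_Icc]
      exact ⟨Nat.pos_of_dvd_of_pos hl.1.1 (Nat.pos_of_ne_zero hl.1.2), hl.2⟩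
    have h5 := Finset.card_le_card this
    rw [Nat.card_Icc] at h5
    exact_mod_cast (by omega : (s.prodPrimes.divisors.filter (fun l => l ≤ z)).card ≤ z)
  have hterm : ∀ d1 ∈ s.prodPrimes.divisors.filter (fun l => l ≤ z),
      ∀ d2 ∈ s.prodPrimes.divisors.filter (fun l => l ≤ z),
      (∏ p ∈ d1.primeFactors, (1 - s.nu p)⁻¹) * (∏ p ∈ d2.primeFactors, (1 - s.nu p)⁻¹)
          * |s.rem (Nat.lcm d1 d2)| ≤ (z : ℝ) ^ 3 * (z : ℝ) ^ 3 := by
    intro d1 hd1 d2 hd2
    rw [mem_filter, Nat.mem_divisors] at hd1 hd2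
    have hd10 : d1 ≠ 0 := ne_zero_of_dvd_ne_zero hd1.1.2 hd1.1.1
    have hd20 : d2 ≠ 0 := ne_zero_of_dvd_ne_zero hd2.1.2 hd2.1.1
    have hl0 : Nat.lcm d1 d2 ≠ 0 := Nat.lcm_ne_zero hd10 hd20
    have hsq : Squarefree (Nat.lcm d1 d2) :=
      Squarefree.squarefree_of_dvd (Nat.lcm_dvd hd1.1.1 hd2.1.1) s.prodPrimes_squarefree
    have hr : |s.rem (Nat.lcm d1 d2)| ≤ 2 ^ d1.primeFactors.card * 2 ^ d2.primeFactors.card := by
      have h6 := rem_le N d z h2 hl0
      have h7 : (rho d (Nat.lcm d1 d2) : ℝ) ≤ 2 ^ (Nat.lcm d1 d2).primeFactors.card := by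
        exact_mod_cast rho_le hsq
      rw [← pow_add]
      exact (h6.trans h7).trans (pow_le_pow_right₀ (by norm_num) (card_primeFactors_lcm_le d1 d2))
    have hpos : ∀ e : ℕ, 0 ≤ ∏ p ∈ e.primeFactors, (1 - s.nu p)⁻¹ := by
      intro e
      apply Finset.prod_nonneg
      intro p hp
      have hpp := Nat.prime_of_mem_primeFactors hp
      have : s.nu p ≤ 2 / 3 := nuFun_prime_le h2 hpp
      rw [inv_nonneg]; linarith
    calc (∏ p ∈ d1.primeFactors, (1 - s.nu p)⁻¹) * (∏ p ∈ d2.primeFactors, (1 - s.nu p)⁻¹)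
          * |s.rem (Nat.lcm d1 d2)|
        ≤ (∏ p ∈ d1.primeFactors, (1 - s.nu p)⁻¹) * (∏ p ∈ d2.primeFactors, (1 - s.nu p)⁻¹)
          * (2 ^ d1.primeFactors.card * 2 ^ d2.primeFactors.card) := by
          apply mul_le_mul_of_nonneg_left hr
          exact mul_nonneg (hpos d1) (hpos d2)
      _ = ((∏ p ∈ d1.primeFactors, (1 - s.nu p)⁻¹) * 2 ^ d1.primeFactors.card)
          * ((∏ p ∈ d2.primeFactors, (1 - s.nu p)⁻¹) * 2 ^ d2.primeFactors.card) := by ring
      _ ≤ _ := by
          apply mul_le_mul (hw d1 hd10 hd1.2) (hw d2 hd20 hd2.2)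
          · exact mul_nonneg (hpos d2) (by positivity)
          · positivity
  calc _ ≤ ∑ d1 ∈ s.prodPrimes.divisors with d1 ≤ z, ∑ d2 ∈ s.prodPrimes.divisors with d2 ≤ z,
        (z : ℝ) ^ 3 * (z : ℝ) ^ 3 := by
        apply Finset.sum_le_sum; intro d1 hd1
        apply Finset.sum_le_sum; intro d2 hd2
        exact hterm d1 hd1 d2 hd2
    _ = ((s.prodPrimes.divisors.filter (fun l => l ≤ z)).card : ℝ)
        * ((s.prodPrimes.divisors.filter (fun l => l ≤ z)).card : ℝ)
        * ((z : ℝ) ^ 3 * (z : ℝ) ^ 3) := by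
        rw [Finset.sum_const, Finset.sum_const, nsmul_eq_mul, nsmul_eq_mul]; ring
    _ ≤ (z : ℝ) * z * ((z : ℝ) ^ 3 * (z : ℝ) ^ 3) := by gcongr
    _ = (z : ℝ) ^ 8 := by ring

/-- The main sum in terms of completely multiplicative data. -/
lemma Lsum_eq (N d z : ℕ) (h2 : 2 ∣ d) :
    Lsum (pairSieve N d z h2) z
      = ∑ l ∈ (primorial z).divisors with l ≤ z, cmulFun (fun p => (kap d p : ℝ) / p) l
        * ∏ p ∈ l.primeFactors, (1 - (kap d p : ℝ) / p)⁻¹ := by
  unfold Lsum
  change ∑ l ∈ (primorial z).divisors with l ≤ z, (pairSieve N d z h2).selbergTerms l = _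
  apply Finset.sum_congr rfl
  intro l hl
  rw [mem_filter, Nat.mem_divisors] at hl
  have hsq : Squarefree l := Squarefree.squarefree_of_dvd hl.1.1 (squarefree_primorial z)
  rw [selbergTerms_apply]
  have h1 : ∀ p ∈ l.primeFactors, (pairSieve N d z h2).nu p = (kap d p : ℝ) / p := by
    intro p hp
    exact nuFun_prime d (Nat.prime_of_mem_primeFactors hp)
  have h3 : (pairSieve N d z h2).nu l = cmulFun (fun p => (kap d p : ℝ) / p) l := by
    change nuFun d l = _
    have := (nuFun_mult d).map_prod_of_subset_primeFactors l l.primeFactors subset_rfl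
    conv_lhs => rw [← Nat.prod_primeFactors_of_squarefree hsq]
    conv_rhs => rw [← Nat.prod_primeFactors_of_squarefree hsq]
    rw [this, map_prod]
    apply Finset.prod_congr rfl
    intro p hp
    have hpp := Nat.prime_of_mem_primeFactors hp
    rw [nuFun_prime d hpp, cmulFun_prime _ hpp]
  rw [h3]
  congr 1
  apply Finset.prod_congr rfl
  intro p hp
  rw [h1 p hp]

/-- The number of prime pairs is bounded by the sifted sum. -/
lemma card_pairs_le (N d z : ℕ) (h2 : 2 ∣ d) :
    (((Finset.Icc 1 N).filter (fun p => p.Prime ∧ (p + d).Prime)).card : ℝ)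
      ≤ z + (pairSieve N d z h2).siftedSum := by
  have hsift : (pairSieve N d z h2).siftedSum
      = (((Ioc 0 N).filter (fun n => Nat.Coprime (primorial z) (n * (n + d)))).card : ℝ) := by
    change ∑ k ∈ (Ioc 0 N).image (fun n => n * (n + d)),
      (if Nat.Coprime (primorial z) k then (1 : ℝ) else 0) = _
    rw [Finset.sum_image (quad_injOn N d), Finset.card_filter]
    push_cast
    rfl
  rw [hsift]
  have hsub : ((Finset.Icc 1 N).filter (fun p => p.Prime ∧ (p + d).Prime))
      ⊆ Icc 1 z ∪ (Ioc 0 N).filter (fun n => Nat.Coprime (primorial z) (n * (n + d))) := by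
    intro p hp
    rw [mem_filter, mem_Icc] at hp
    rw [mem_union, mem_Icc, mem_filter, mem_Ioc]
    by_cases hpz : p ≤ z
    · left; exact ⟨hp.1.1, hpz⟩
    · right
      refine ⟨⟨hp.1.1, hp.1.2⟩, ?_⟩
      rw [Nat.coprime_mul_iff_right]
      have key : ∀ q : ℕ, q.Prime → z < q → Nat.Coprime (primorial z) q := by
        intro q hq hzq
        rw [Nat.coprime_comm, Nat.Prime.coprime_iff_not_dvd hq]
        intro hdvd
        have h3 : q ∈ (primorial z).primeFactors :=
          Nat.mem_primeFactors.mpr ⟨hq, hdvd, primorial_ne_zero z⟩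
        rw [primeFactors_primorial, Nat.mem_primesLE] at h3
        omega
      exact ⟨key p hp.2.1 (not_le.mp hpz), key (p + d) hp.2.2 (by omega)⟩
  have h3 := (Finset.card_le_card hsub).trans (Finset.card_union_le _ _)
  rw [Nat.card_Icc, Nat.add_sub_cancel] at h3
  exact_mod_cast h3

lemma sqrt_le_aux {N : ℕ} (hN : 2 ≤ N) :
    Real.sqrt N ≤ 16 * (N : ℝ) / (Real.log N) ^ 2 := by
  have hN0 : (0 : ℝ) ≤ N := Nat.cast_nonneg N
  have hN1 : (1 : ℝ) < N := by exact_mod_cast (by omega : 1 < N)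
  have hlog : 0 < Real.log N := Real.log_pos hN1
  have h1 : Real.log N ≤ (N : ℝ) ^ (1 / 4 : ℝ) / (1 / 4) :=
    Real.log_le_rpow_div hN0 (by norm_num)
  have h2 : (Real.log N) ^ 2 ≤ 16 * Real.sqrt N := by
    have h3 : ((N : ℝ) ^ (1 / 4 : ℝ)) ^ 2 = Real.sqrt N := by
      rw [← Real.rpow_natCast, ← Real.rpow_mul hN0, Real.sqrt_eq_rpow]
      norm_num
    calc (Real.log N) ^ 2 ≤ ((N : ℝ) ^ (1 / 4 : ℝ) / (1 / 4)) ^ 2 := by
          gcongr
      _ = 16 * Real.sqrt N := by rw [div_pow, h3]; ring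
  rw [le_div_iff₀ (by positivity)]
  calc Real.sqrt N * (Real.log N) ^ 2 ≤ Real.sqrt N * (16 * Real.sqrt N) := by gcongr
    _ = 16 * N := by rw [mul_left_comm, Real.mul_self_sqrt hN0]

/-- **Prime pairs**: a uniform upper bound of the right order of magnitude. -/
theorem pair_sieve : ∃ C : ℝ, 0 < C ∧ ∀ N d : ℕ, 2 ≤ N → 1 ≤ d →
    (((Finset.Icc 1 N).filter (fun p => p.Prime ∧ (p + d).Prime)).card : ℝ)
      ≤ C * ((d : ℝ) / (Nat.totient d : ℝ)) * (N : ℝ) / (Real.log N) ^ 2 := by
  refine ⟨1056, by norm_num, fun N d hN hd => ?_⟩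
  have hN0 : (0 : ℝ) ≤ N := Nat.cast_nonneg N
  have hN1 : (1 : ℝ) < N := by exact_mod_cast (by omega : 1 < N)
  have hlog : 0 < Real.log N := Real.log_pos hN1
  have htot : 0 < Nat.totient d := Nat.totient_pos.mpr hd
  have htot' : (0 : ℝ) < Nat.totient d := by exact_mod_cast htot
  have hd' : (0 : ℝ) < d := by exact_mod_cast hd
  have hratio : 1 ≤ (d : ℝ) / (Nat.totient d : ℝ) := by
    rw [one_le_div htot']
    exact_mod_cast Nat.totient_le d
  have hsqrt1 : 1 ≤ Real.sqrt N := by
    rw [Real.one_le_sqrt]; exact hN1.le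
  have haux := sqrt_le_aux hN
  by_cases h2 : 2 ∣ d
  · -- the main case
    set s : ℕ := Nat.floor ((N : ℝ) ^ (1 / 32 : ℝ)) with hs
    have hs1 : 1 ≤ s := by
      rw [hs, Nat.one_le_floor_iff]
      exact Real.one_le_rpow hN1.le (by norm_num)
    have hsle : (s : ℝ) ≤ (N : ℝ) ^ (1 / 32 : ℝ) := Nat.floor_le (by positivity)
    have hslt : (N : ℝ) ^ (1 / 32 : ℝ) < s + 1 := Nat.lt_floor_add_one _
    have hs16 : (s : ℝ) ^ 16 ≤ Real.sqrt N := by
      calc (s : ℝ) ^ 16 ≤ ((N : ℝ) ^ (1 / 32 : ℝ)) ^ 16 := by gcongr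
        _ = Real.sqrt N := by
          rw [← Real.rpow_natCast, ← Real.rpow_mul hN0, Real.sqrt_eq_rpow]
          norm_num
    have hlogs : Real.log N / 32 ≤ Real.log (s + 1) := by
      have h3 : Real.log ((N : ℝ) ^ (1 / 32 : ℝ)) ≤ Real.log (s + 1) := by
        apply Real.log_le_log _ hslt.le
        positivity
      rw [Real.log_rpow (by linarith)] at h3
      linarith
    have hH : Real.log N / 32 ≤ ∑ a ∈ Icc 1 s, (1 : ℝ) / a := by
      have h3 := log_add_one_le_harmonic s
      have h4 : ((harmonic s : ℚ) : ℝ) = ∑ a ∈ Icc 1 s, (1 : ℝ) / a := by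
        rw [harmonic_eq_sum_Icc]
        push_cast
        apply Finset.sum_congr rfl
        intro a _
        rw [one_div]
      rw [h4] at h3
      push_cast at h3
      linarith
    set z : ℕ := s ^ 2 with hz
    have hz1 : 1 ≤ z := Nat.one_le_pow _ _ hs1
    have hPz : ∀ p, p.Prime → p ≤ s ^ 2 → p ∣ primorial z := by
      intro p hp hpz
      apply Nat.dvd_of_mem_primeFactors
      rw [primeFactors_primorial, Nat.mem_primesLE]
      exact ⟨hpz, hp⟩
    have hL := main_sum_lower d s (primorial z) (by omega) h2 (primorial_ne_zero z) hPz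
    rw [← Lsum_eq N d z h2] at hL
    have hL2 : (Nat.totient d : ℝ) / d * (Real.log N / 32) ^ 2 ≤ Lsum (pairSieve N d z h2) z := by
      refine le_trans ?_ hL
      gcongr
    have hL0 : 0 < (Nat.totient d : ℝ) / d * (Real.log N / 32) ^ 2 := by positivity
    have hsel := selberg_upper_bound (s := pairSieve N d z h2) hz1
    have herr := error_le N d z h2
    have hcard := card_pairs_le N d z h2
    have hmass : (pairSieve N d z h2).totalMass = N := rfl
    rw [hmass] at hsel
    have hmain : (N : ℝ) / Lsum (pairSieve N d z h2) z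
        ≤ 1024 * ((d : ℝ) / (Nat.totient d : ℝ)) * (N : ℝ) / (Real.log N) ^ 2 := by
      calc (N : ℝ) / Lsum (pairSieve N d z h2) z
          ≤ (N : ℝ) / ((Nat.totient d : ℝ) / d * (Real.log N / 32) ^ 2) := by gcongr
        _ = 1024 * ((d : ℝ) / (Nat.totient d : ℝ)) * (N : ℝ) / (Real.log N) ^ 2 := by
          field_simp
          norm_num
    have hz8 : (z : ℝ) ^ 8 ≤ Real.sqrt N := by
      rw [hz]
      push_cast
      rw [← pow_mul]
      exact hs16
    have hzle : (z : ℝ) ≤ Real.sqrt N := by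
      have h5 : (z : ℝ) ≤ (z : ℝ) ^ 8 := by
        have : (1 : ℝ) ≤ z := by exact_mod_cast hz1
        exact le_self_pow₀ this (by norm_num)
      exact h5.trans hz8
    have hextra : 32 * (N : ℝ) / (Real.log N) ^ 2
        ≤ 32 * ((d : ℝ) / (Nat.totient d : ℝ)) * (N : ℝ) / (Real.log N) ^ 2 := by
      apply div_le_div_of_nonneg_right _ (by positivity)
      nlinarith
    have hsum : 1056 * ((d : ℝ) / (Nat.totient d : ℝ)) * (N : ℝ) / (Real.log N) ^ 2
        = 1024 * ((d : ℝ) / (Nat.totient d : ℝ)) * (N : ℝ) / (Real.log N) ^ 2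
          + 32 * ((d : ℝ) / (Nat.totient d : ℝ)) * (N : ℝ) / (Real.log N) ^ 2 := by ring
    have h16 : 2 * Real.sqrt N ≤ 32 * (N : ℝ) / (Real.log N) ^ 2 := by
      calc 2 * Real.sqrt N ≤ 2 * (16 * (N : ℝ) / (Real.log N) ^ 2) := by gcongr
        _ = 32 * (N : ℝ) / (Real.log N) ^ 2 := by ring
    rw [hsum]
    linarith
  · -- odd d: at most one such prime
    have hcard : ((Finset.Icc 1 N).filter (fun p => p.Prime ∧ (p + d).Prime)).card ≤ 1 := by
      rw [Finset.card_le_one]
      have key : ∀ p ∈ (Finset.Icc 1 N).filter (fun p => p.Prime ∧ (p + d).Prime), p = 2 := by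
        intro p hp
        rw [mem_filter] at hp
        rcases hp.2.1.eq_two_or_odd with h | h
        · exact h
        · exfalso
          rcases hp.2.2.eq_two_or_odd with h' | h'
          · have := hp.2.1.two_le
            omega
          · omega
      intro a ha b hb
      rw [key a ha, key b hb]
    have h1 : (((Finset.Icc 1 N).filter (fun p => p.Prime ∧ (p + d).Prime)).card : ℝ) ≤ 1 := by
      exact_mod_cast hcard
    calc _ ≤ (1 : ℝ) := h1
      _ ≤ Real.sqrt N := hsqrt1
      _ ≤ 16 * (N : ℝ) / (Real.log N) ^ 2 := haux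
      _ ≤ 1056 * ((d : ℝ) / (Nat.totient d : ℝ)) * (N : ℝ) / (Real.log N) ^ 2 := by
        apply div_le_div_of_nonneg_right _ (by positivity)
        nlinarith

end

end Pool.Agent.Lib.MP_5d7b92_nt
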