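import Mathlib
import Pool.Agent.Lib.MP_5d7b92_nt.LeastAdmissible
import Pool.Agent.Lib.Sieve.CoveringApply

/-!
# Erdős–Rankin lower bound for the least admissible prime
-/

open Finset Filter

namespace Pool.Agent.Lib.MP_5d7b92_nt.Rankin

open Pool.Agent.Lib.MP_5d7b92_nt Pool.Agent.Lib.MP_5d7b92_nt.LeastAdmissible Pool.Agent.Lib.Sieve

theorem main : ∃ c : ℝ, 0 < c ∧ ∃ X₀ : ℕ, ∀ X : ℕ, X₀ ≤ X → ∃ n : ℕ, n ≤ X ∧ X ≤ n ^ 3 ∧
    ∀ p : ℕ, p.Prime → (Nat.primeCounting p).Prime → (2 * n - p).Prime →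
      c * Real.log X * (Real.log (Real.log X)) ^ 3 *
        Real.log (Real.log (Real.log (Real.log X))) / (Real.log (Real.log (Real.log X))) ^ 2 < p := by
  obtain ⟨c₀, hc₀, z₁, hcov⟩ := covering_main 3 (by norm_num)
  obtain ⟨Y₁, hY₁⟩ := exists_pip_upper
  set c₁ : ℝ := min (c₀ / 50) 1 with hc₁
  have hc₁pos : 0 < c₁ := lt_min (by positivity) one_pos
  have hc₁le : c₁ ≤ 1 := min_le_right _ _
  have hc₁le' : 50 * c₁ ≤ c₀ := by
    have : c₁ ≤ c₀ / 50 := min_le_left _ _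
    linarith
  obtain ⟨z₂, hz₂⟩ := eventually_logs (1 / c₁)
  have hev : ∀ᶠ X : ℕ in atTop, 3 * ((max (max z₁ z₂) (max Y₁ 10000) : ℕ) : ℝ) ≤ Real.log X :=
    (Real.tendsto_log_atTop.comp tendsto_natCast_atTop_atTop).eventually_ge_atTop _
  obtain ⟨X₀, hX₀⟩ := eventually_atTop.mp hev
  refine ⟨c₁ / 64, by positivity, X₀, fun X hX => ?_⟩
  have hX := hX₀ X hX
  set z : ℕ := ⌊Real.log X / 3⌋₊ with hz
  have hzmax : max (max z₁ z₂) (max Y₁ 10000) ≤ z := by
    apply Nat.le_floor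
    linarith
  have hzz₁ : z₁ ≤ z := ((le_max_left _ _).trans (le_max_left _ _)).trans hzmax
  have hzz₂ : z₂ ≤ z := ((le_max_right _ _).trans (le_max_left _ _)).trans hzmax
  have hzY₁ : Y₁ ≤ z := ((le_max_left _ _).trans (le_max_right _ _)).trans hzmax
  have hz10 : 10000 ≤ z := ((le_max_right _ _).trans (le_max_right _ _)).trans hzmax
  have hlogX0 : 0 ≤ Real.log X := Real.log_natCast_nonneg X
  have hzX : 3 * (z : ℝ) ≤ Real.log X := by
    have : (z : ℝ) ≤ Real.log X / 3 := Nat.floor_le (by positivity)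
    linarith
  have hzX' : Real.log X ≤ 3 * (z : ℝ) + 3 := by
    have : Real.log X / 3 < (z : ℝ) + 1 := Nat.lt_floor_add_one _
    linarith
  have hXpos : (0 : ℝ) < X := by
    by_contra h
    have h1 : (X : ℝ) = 0 := le_antisymm (not_lt.mp h) (Nat.cast_nonneg X)
    rw [h1, Real.log_zero] at hzX
    have : (10000 : ℝ) ≤ z := by exact_mod_cast hz10
    linarith
  clear_value z
  obtain ⟨hL1, hL2, hcL2, hL3⟩ := hz₂ z hzz₂
  have hzr : (10000 : ℝ) ≤ z := by exact_mod_cast hz10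
  have hz0 : (0 : ℝ) < z := by linarith
  have hcov := hcov z hzz₁
  set L1 := Real.log z with hL1def
  set L2 := Real.log L1 with hL2def
  set L3 := Real.log L2 with hL3def
  have hzexp : (z : ℝ) = Real.exp L1 := (Real.exp_log hz0).symm
  have hL1exp : L1 = Real.exp L2 := (Real.exp_log hL1).symm
  have hL2exp : L2 = Real.exp L3 := (Real.exp_log hL2).symm
  have hL3pos : 0 < L3 := by linarith
  have hL32 : L3 ≤ L2 := by
    have := Real.add_one_le_exp L3
    rw [← hL2exp] at this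
    linarith
  have hL21 : L2 ^ 2 ≤ 2 * L1 := by
    have := sq_half_le_exp (x := L2) hL2.le
    rw [← hL1exp] at this
    linarith
  have hL1z : L1 ≤ z := by
    have := Real.add_one_le_exp L1
    rw [← hzexp] at this
    linarith
  have hL240 : 40 ≤ L2 := by linarith
  have hL140 : 1 ≤ L1 := by
    have := Real.add_one_le_exp L2
    rw [← hL1exp] at this
    linarith
  -- the size of the interval
  set T : ℝ := c₁ * z * L1 ^ 3 * L3 / L2 ^ 2 with hT
  have hTpos : 0 < T := by positivity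
  set Y : ℕ := ⌊T⌋₊ with hY
  have hYT : (Y : ℝ) ≤ T := Nat.floor_le hTpos.le
  have hTY : T < (Y : ℝ) + 1 := Nat.lt_floor_add_one _
  have hTle : T ≤ z * L1 ^ 3 := by
    rw [hT, div_le_iff₀ (by positivity)]
    have h1 : L3 ≤ L2 ^ 2 := by nlinarith
    have h2 : c₁ * z * L1 ^ 3 * L3 ≤ 1 * z * L1 ^ 3 * L2 ^ 2 := by gcongr
    linarith
  have hTge : (z : ℝ) ≤ T := by
    rw [hT, le_div_iff₀ (by positivity)]
    have h1 : 1 ≤ c₁ * L1 := by
      have h2 : 1 / c₁ ≤ L1 := by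
        have := Real.add_one_le_exp L2
        rw [← hL1exp] at this
        linarith
      rw [div_le_iff₀ hc₁pos] at h2
      linarith
    have h3 : L2 ^ 2 ≤ L1 ^ 2 * L3 := by
      have h4 : 2 * L1 ≤ L1 ^ 2 * L3 := by nlinarith
      linarith
    calc (z : ℝ) * L2 ^ 2 ≤ z * (L1 ^ 2 * L3) := by gcongr
      _ = 1 * (z * (L1 ^ 2 * L3)) := (one_mul _).symm
      _ ≤ (c₁ * L1) * (z * (L1 ^ 2 * L3)) := by gcongr
      _ = c₁ * z * L1 ^ 3 * L3 := by ring
  have hzY : z ≤ Y := Nat.le_floor hTge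
  have hY0 : (0 : ℝ) < Y := by
    have : (z : ℝ) ≤ Y := by exact_mod_cast hzY
    linarith
  -- the covering
  have hlogY : L1 ≤ Real.log Y := Real.log_le_log hz0 (by exact_mod_cast hzY)
  have hcard : ((pipLE Y).card : ℝ) ≤ c₀ * z * L1 * L3 / L2 ^ 2 := by
    calc ((pipLE Y).card : ℝ) ≤ 50 * Y / (Real.log Y) ^ 2 := hY₁ Y (hzY₁.trans hzY)
      _ ≤ 50 * T / L1 ^ 2 := by gcongr
      _ = (50 * c₁) * z * L1 * L3 / L2 ^ 2 := by rw [hT]; field_simp
      _ ≤ c₀ * z * L1 * L3 / L2 ^ 2 := by gcongr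
  have hYle : (Y : ℝ) ≤ z * L1 ^ (3 : ℝ) := by
    have : L1 ^ (3 : ℝ) = L1 ^ 3 := by
      rw [← Real.rpow_natCast]; norm_num
    rw [this]
    linarith
  have hsub : pipLE Y ⊆ Finset.Icc 1 Y := by
    intro p hp
    have hp := mem_pipLE.mp hp
    exact Finset.mem_Icc.mpr ⟨hp.2.1.one_lt.le, hp.1⟩
  obtain ⟨N₀, hN2, hN⟩ := hcov Y hYle (pipLE Y) hsub hcard
  have hYz4 : Y ≤ z ^ 4 := by
    have : (Y : ℝ) ≤ (z : ℝ) ^ 4 := by
      calc (Y : ℝ) ≤ z * L1 ^ 3 := by linarith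
        _ ≤ z * (z : ℝ) ^ 3 := by gcongr
        _ = (z : ℝ) ^ 4 := by ring
    exact_mod_cast this
  obtain ⟨m, hm2, hm4, hmle, hm⟩ := exists_even_of_cover z Y N₀ (by omega) (pipLE Y)
    (fun a ha => (mem_pipLE.mp ha).1) hN2 hN (size_bound z hz10 Y hYz4)
  obtain ⟨n, rfl⟩ := hm2
  -- size of n
  have hnr : (2 : ℝ) * n ≤ 2 * 4 ^ (2 * z) := by exact_mod_cast hmle
  have hnr' : (4 : ℝ) ^ z ≤ 2 * n := by exact_mod_cast hm4
  have hlog4u : Real.log 4 ≤ 7 / 5 := by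
    have h1 : Real.log 4 = 2 * Real.log 2 := by
      rw [show (4 : ℝ) = 2 ^ 2 by norm_num, Real.log_pow]; norm_num
    have := Real.log_two_lt_d9
    rw [h1]; linarith
  have hlog4l : (13 : ℝ) / 10 ≤ Real.log 4 := by
    have h1 : Real.log 4 = 2 * Real.log 2 := by
      rw [show (4 : ℝ) = 2 ^ 2 by norm_num, Real.log_pow]; norm_num
    have := Real.log_two_gt_d9
    rw [h1]; linarith
  have hn0 : (0 : ℝ) < n := by
    have : (0 : ℝ) < 4 ^ z := by positivity
    linarith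
  have hlog2 : (0 : ℝ) ≤ Real.log 2 ∧ Real.log 2 ≤ 1 :=
    ⟨Real.log_nonneg (by norm_num), by have := Real.log_two_lt_d9; linarith⟩
  have hx1 : (z : ℝ) ≤ Real.log X := by linarith
  have hx2 : Real.log X ≤ 4 * z := by linarith
  obtain ⟨hc1, hc2, hc3, hc4, hc5⟩ := log_compare z (Real.log X) hx1 hx2 hL3 hL2 hL1 (by linarith)
  rw [← hL1def] at hc1 hc2 hc3 hc4 hc5
  rw [← hL2def] at hc3 hc4 hc5
  rw [← hL3def] at hc5
  refine ⟨n, ?_, ?_, ?_⟩
  · have h1 : (n : ℝ) ≤ X := by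
      rw [← Real.log_le_log_iff hn0 hXpos]
      have h1 : Real.log n ≤ Real.log ((4 : ℝ) ^ (2 * z)) := Real.log_le_log hn0 (by linarith)
      rw [Real.log_pow] at h1
      push_cast at h1
      nlinarith
    exact_mod_cast h1
  · have h1 : (X : ℝ) ≤ (n : ℝ) ^ 3 := by
      rw [← Real.log_le_log_iff hXpos (by positivity), Real.log_pow]
      have h1 : Real.log ((4 : ℝ) ^ z / 2) ≤ Real.log n :=
        Real.log_le_log (by positivity) (by linarith)
      rw [Real.log_div (by positivity) (by norm_num), Real.log_pow] at h1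
      push_cast
      nlinarith
    exact_mod_cast h1
  · intro p hp hpp hnp
    have hpY : Y < p := by
      by_contra h
      exact hm p (mem_pipLE.mpr ⟨not_lt.mp h, hp, hpp⟩) hnp
    have hpY' : (Y : ℝ) + 1 ≤ p := by exact_mod_cast hpY
    refine lt_of_le_of_lt ?_ (lt_of_lt_of_le hTY hpY')
    set x := Real.log X with hx
    have hlx0 : 0 ≤ Real.log x := by linarith
    have hllx0 : 0 < Real.log (Real.log x) := by linarith
    have hnum : c₁ / 64 * x * (Real.log x) ^ 3 * Real.log (Real.log (Real.log x)) ≤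
        c₁ / 64 * (4 * z) * (2 * L1) ^ 3 * (2 * L3) := by
      have h0 : 0 ≤ c₁ / 64 * x * (Real.log x) ^ 3 := by
        have : 0 ≤ x := by linarith
        positivity
      calc c₁ / 64 * x * (Real.log x) ^ 3 * Real.log (Real.log (Real.log x))
          ≤ c₁ / 64 * x * (Real.log x) ^ 3 * (2 * L3) := by gcongr
        _ ≤ c₁ / 64 * (4 * z) * (2 * L1) ^ 3 * (2 * L3) := by gcongr
    calc c₁ / 64 * x * (Real.log x) ^ 3 * Real.log (Real.log (Real.log x)) /
          (Real.log (Real.log x)) ^ 2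
        ≤ c₁ / 64 * (4 * z) * (2 * L1) ^ 3 * (2 * L3) / (Real.log (Real.log x)) ^ 2 := by gcongr
      _ ≤ c₁ / 64 * (4 * z) * (2 * L1) ^ 3 * (2 * L3) / L2 ^ 2 := by gcongr
      _ = T := by rw [hT]; ring

end Pool.Agent.Lib.MP_5d7b92_nt.Rankin
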