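import Mathlib

/-!
# The Selberg upper bound sieve

Starting from Mathlib's `BoundingSieve` (Λ² sieve and its diagonalised quadratic form) we choose
the optimal weights and obtain a ready-to-use upper bound:
`selberg_upper_bound : siftedSum ≤ totalMass / L(z) + ∑_{d₁,d₂ ≤ z} |w d₁| |w d₂| |rem [d₁,d₂]|`,
together with the crude bound `|w d| ≤ ∏_{p ∣ d} (1 - ν p)⁻¹` for the weights.
-/

namespace Pool.Agent.Lib.MP_5d7b92_nt.Selberg

open BoundingSieve Finset Nat ArithmeticFunction
open scoped ArithmeticFunction.Moebius ArithmeticFunction.zeta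

noncomputable section

variable (s : BoundingSieve) (z : ℕ)

/-- `L(z) = ∑_{l ∣ P, l ≤ z} g(l)`. -/
def Lsum : ℝ := ∑ l ∈ s.prodPrimes.divisors with l ≤ z, s.selbergTerms l

/-- The optimal Selberg weights. -/
def wt (d : ℕ) : ℝ :=
  (μ d : ℝ) / (s.nu d * Lsum s z) *
    ∑ m ∈ s.prodPrimes.divisors with m ≤ z ∧ d ∣ m, s.selbergTerms m

variable {s z}

lemma selbergTerms_one : s.selbergTerms 1 = 1 :=
  selbergTerms_isMultiplicative.map_one

lemma Lsum_ge_one (hz : 1 ≤ z) : 1 ≤ Lsum s z := by
  have h1 : (1 : ℕ) ∈ s.prodPrimes.divisors.filter (fun l => l ≤ z) := by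
    rw [mem_filter, Nat.mem_divisors]
    exact ⟨⟨one_dvd _, prodPrimes_ne_zero⟩, hz⟩
  calc (1 : ℝ) = s.selbergTerms 1 := selbergTerms_one.symm
    _ ≤ Lsum s z := by
      unfold Lsum
      apply Finset.single_le_sum (f := fun l => s.selbergTerms l) _ h1
      intro l hl
      rw [mem_filter, Nat.mem_divisors] at hl
      exact (selbergTerms_pos hl.1.1).le

lemma wt_one (hz : 1 ≤ z) : wt s z 1 = 1 := by
  have hL : Lsum s z ≠ 0 := by have := Lsum_ge_one (s := s) hz; positivity
  unfold wt
  have h1 : ∑ m ∈ s.prodPrimes.divisors with m ≤ z ∧ 1 ∣ m, s.selbergTerms m = Lsum s z := by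
    unfold Lsum; simp
  rw [h1, s.nu_mult.map_one]
  simp [hL]

lemma wt_eq_zero {d : ℕ} (hd : z < d) : wt s z d = 0 := by
  unfold wt
  have : (s.prodPrimes.divisors.filter (fun m => m ≤ z ∧ d ∣ m)) = ∅ := by
    apply Finset.filter_eq_empty_iff.mpr
    rintro m hm ⟨h1, h2⟩
    rw [Nat.mem_divisors] at hm
    have : 0 < m := Nat.pos_of_dvd_of_pos hm.1 (Nat.pos_of_ne_zero hm.2)
    have := Nat.le_of_dvd this h2
    omega
  rw [this, Finset.sum_empty, mul_zero]

lemma sum_moebius (k : ℕ) : ∑ e ∈ k.divisors, (μ e : ℝ) = if k = 1 then 1 else 0 := by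
  have h := coe_mul_zeta_apply (f := (μ : ArithmeticFunction ℝ)) (x := k)
  rw [coe_moebius_mul_coe_zeta] at h
  simp only [intCoe_apply, one_apply] at h
  exact h.symm

/-- Möbius sum over `d` with `l ∣ d ∣ m`. -/
lemma sum_moebius_between {l m : ℕ} (hm : Squarefree m) (hm0 : m ≠ 0) :
    ∑ d ∈ m.divisors with l ∣ d, (μ d : ℝ) = if l = m then (μ l : ℝ) else 0 := by
  by_cases hlm : l ∣ m
  · obtain ⟨k, rfl⟩ := hlm
    have hl0 : l ≠ 0 := left_ne_zero_of_mul hm0
    have hk0 : k ≠ 0 := right_ne_zero_of_mul hm0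
    have hcop : Nat.Coprime l k := Nat.coprime_of_squarefree_mul hm
    have himg : ((l * k).divisors.filter (fun d => l ∣ d)) = k.divisors.image (fun e => l * e) := by
      ext d
      simp only [mem_filter, Nat.mem_divisors, mem_image]
      constructor
      · rintro ⟨⟨h1, _⟩, e, rfl⟩
        exact ⟨e, ⟨Nat.dvd_of_mul_dvd_mul_left (Nat.pos_of_ne_zero hl0) h1, hk0⟩, rfl⟩
      · rintro ⟨e, ⟨h1, _⟩, rfl⟩
        exact ⟨⟨Nat.mul_dvd_mul_left l h1, hm0⟩, Dvd.intro _ rfl⟩
    rw [himg, Finset.sum_image (fun a _ b _ h => Nat.eq_of_mul_eq_mul_left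
      (Nat.pos_of_ne_zero hl0) h)]
    have h1 : ∀ e ∈ k.divisors, (μ (l * e) : ℝ) = (μ l : ℝ) * (μ e : ℝ) := by
      intro e he
      rw [Nat.mem_divisors] at he
      have : Nat.Coprime l e := Nat.Coprime.coprime_dvd_right he.1 hcop
      rw [isMultiplicative_moebius.map_mul_of_coprime this]
      push_cast; ring
    rw [Finset.sum_congr rfl h1, ← Finset.mul_sum, sum_moebius]
    by_cases hk : k = 1
    · simp [hk]
    · have : l ≠ l * k := by
        intro h
        apply hk
        have : l * k = l * 1 := by rw [mul_one]; exact h.symm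
        exact Nat.eq_of_mul_eq_mul_left (Nat.pos_of_ne_zero hl0) this
      simp [hk, this]
  · rw [if_neg]
    · apply Finset.sum_eq_zero
      intro d hd
      rw [mem_filter, Nat.mem_divisors] at hd
      exact absurd (hd.2.trans hd.1.1) hlm
    · rintro rfl; exact hlm dvd_rfl

/-- The diagonal variables for the optimal weights. -/
lemma diag_wt {l : ℕ} (hl : l ∈ s.prodPrimes.divisors) :
    (∑ d ∈ s.prodPrimes.divisors, if l ∣ d then s.nu d * wt s z d else 0)
      = if l ≤ z then (μ l : ℝ) * s.selbergTerms l / Lsum s z else 0 := by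
  have hP := prodPrimes_ne_zero (s := s)
  have h1 : ∀ d ∈ s.prodPrimes.divisors, (if l ∣ d then s.nu d * wt s z d else 0)
      = ∑ m ∈ s.prodPrimes.divisors with m ≤ z,
        (if (l ∣ d ∧ d ∣ m) then (μ d : ℝ) else 0) * (s.selbergTerms m / Lsum s z) := by
    intro d hd
    rw [Nat.mem_divisors] at hd
    have hnu := nu_ne_zero hd.1
    split_ifs with h
    · have h2 : s.nu d * wt s z d
          = (μ d : ℝ) / Lsum s z * ∑ m ∈ s.prodPrimes.divisors with m ≤ z ∧ d ∣ m,
            s.selbergTerms m := by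
        unfold wt
        by_cases hL : Lsum s z = 0
        · simp [hL]
        · field_simp
      rw [h2, ← Finset.filter_filter, Finset.sum_filter, Finset.mul_sum]
      apply Finset.sum_congr rfl
      intro m _
      by_cases hdm : d ∣ m
      · simp only [hdm, if_true, h, and_self]
        ring
      · simp [hdm]
    · symm
      apply Finset.sum_eq_zero
      intro m _
      simp [h]
  rw [Finset.sum_congr rfl h1, Finset.sum_comm]
  have h3 : ∀ m ∈ s.prodPrimes.divisors.filter (fun m => m ≤ z),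
      ∑ d ∈ s.prodPrimes.divisors,
        (if (l ∣ d ∧ d ∣ m) then (μ d : ℝ) else 0) * (s.selbergTerms m / Lsum s z)
      = if l = m then (μ l : ℝ) * s.selbergTerms l / Lsum s z else 0 := by
    intro m hm
    rw [mem_filter] at hm
    obtain ⟨hm, _⟩ := hm
    rw [← Finset.sum_mul]
    have hmdvd := (Nat.mem_divisors.mp hm).1
    have hm0 : m ≠ 0 := ne_zero_of_dvd_ne_zero hP hmdvd
    have h4 : ∑ d ∈ s.prodPrimes.divisors, (if (l ∣ d ∧ d ∣ m) then (μ d : ℝ) else 0)
        = ∑ d ∈ m.divisors with l ∣ d, (μ d : ℝ) := by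
      rw [← Finset.sum_filter]
      apply Finset.sum_congr _ (fun _ _ => rfl)
      ext d
      simp only [mem_filter, Nat.mem_divisors]
      constructor
      · rintro ⟨_, h5, h6⟩; exact ⟨⟨h6, hm0⟩, h5⟩
      · rintro ⟨⟨h6, _⟩, h5⟩; exact ⟨⟨h6.trans hmdvd, hP⟩, h5, h6⟩
    rw [h4, sum_moebius_between (squarefree_of_mem_divisors_prodPrimes hm) hm0]
    split_ifs with h
    · subst h; ring
    · ring
  rw [Finset.sum_congr rfl h3, Finset.sum_ite_eq]
  congr 1
  simp [hl]

/-- The main term for the optimal weights. -/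
lemma mainSum_wt (hz : 1 ≤ z) : s.mainSum (lambdaSquared (wt s z)) = 1 / Lsum s z := by
  have hL : 0 < Lsum s z := lt_of_lt_of_le one_pos (Lsum_ge_one hz)
  rw [mainSum_lambdaSquared_eq_sum_mul_sum_sq]
  have h1 : ∀ l ∈ s.prodPrimes.divisors, (s.selbergTerms l)⁻¹ *
      (∑ d ∈ s.prodPrimes.divisors, if l ∣ d then s.nu d * wt s z d else 0) ^ 2
      = (if l ≤ z then s.selbergTerms l else 0) / Lsum s z ^ 2 := by
    intro l hl
    rw [diag_wt hl]
    have hg : 0 < s.selbergTerms l := selbergTerms_pos (Nat.mem_divisors.mp hl).1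
    have hsq : ((μ l : ℝ)) ^ 2 = 1 := by
      exact_mod_cast moebius_sq_eq_one_of_squarefree (squarefree_of_mem_divisors_prodPrimes hl)
    split_ifs
    · rw [div_pow, mul_pow, hsq]
      field_simp
    · simp
  rw [Finset.sum_congr rfl h1, ← Finset.sum_div, ← Finset.sum_filter]
  change Lsum s z / Lsum s z ^ 2 = 1 / Lsum s z
  field_simp

/-- Crude bound for the weights. -/
lemma abs_wt_le (hz : 1 ≤ z) {d : ℕ} (hd : d ∣ s.prodPrimes) :
    |wt s z d| ≤ ∏ p ∈ d.primeFactors, (1 - s.nu p)⁻¹ := by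
  have hL : 0 < Lsum s z := lt_of_lt_of_le one_pos (Lsum_ge_one hz)
  have hnu := nu_pos_of_dvd_prodPrimes hd
  have hP := prodPrimes_ne_zero (s := s)
  have hd0 : d ≠ 0 := ne_zero_of_dvd_ne_zero hP hd
  have hsum : ∑ m ∈ s.prodPrimes.divisors with m ≤ z ∧ d ∣ m, s.selbergTerms m
      ≤ s.selbergTerms d * Lsum s z := by
    have h1 : ∀ m ∈ s.prodPrimes.divisors.filter (fun m => m ≤ z ∧ d ∣ m),
        s.selbergTerms m = s.selbergTerms d * s.selbergTerms (m / d) := by
      intro m hm
      rw [mem_filter] at hm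
      obtain ⟨hm, _, k, rfl⟩ := hm
      rw [Nat.mul_div_cancel_left k (Nat.pos_of_ne_zero hd0)]
      exact selbergTerms_isMultiplicative.map_mul_of_coprime
        (Nat.coprime_of_squarefree_mul (squarefree_of_mem_divisors_prodPrimes hm))
    rw [Finset.sum_congr rfl h1, ← Finset.mul_sum]
    apply mul_le_mul_of_nonneg_left _ (selbergTerms_pos hd).le
    have h2 : ∑ m ∈ s.prodPrimes.divisors with m ≤ z ∧ d ∣ m, s.selbergTerms (m / d)
        = ∑ k ∈ (s.prodPrimes.divisors.filter (fun m => m ≤ z ∧ d ∣ m)).image (fun m => m / d),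
          s.selbergTerms k := by
      rw [Finset.sum_image]
      intro a ha b hb hab
      simp only [coe_filter, Set.mem_ofPred_eq] at ha hb
      obtain ⟨_, _, ka, rfl⟩ := ha
      obtain ⟨_, _, kb, rfl⟩ := hb
      simp only [Nat.mul_div_cancel_left _ (Nat.pos_of_ne_zero hd0)] at hab
      rw [hab]
    rw [h2]
    apply Finset.sum_le_sum_of_subset_of_nonneg
    · intro k hk
      rw [mem_image] at hk
      obtain ⟨m, hm, rfl⟩ := hk
      rw [mem_filter] at hm
      obtain ⟨hm, hmz, k, rfl⟩ := hm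
      rw [Nat.mul_div_cancel_left k (Nat.pos_of_ne_zero hd0), mem_filter, Nat.mem_divisors]
      refine ⟨⟨(Dvd.intro_left d rfl).trans (Nat.mem_divisors.mp hm).1, hP⟩, ?_⟩
      exact (Nat.le_mul_of_pos_left k (Nat.pos_of_ne_zero hd0)).trans hmz
    · intro k hk _
      rw [mem_filter, Nat.mem_divisors] at hk
      exact (selbergTerms_pos hk.1.1).le
  have hsum0 : 0 ≤ ∑ m ∈ s.prodPrimes.divisors with m ≤ z ∧ d ∣ m, s.selbergTerms m := by
    apply Finset.sum_nonneg
    intro m hm
    rw [mem_filter, Nat.mem_divisors] at hm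
    exact (selbergTerms_pos hm.1.1).le
  unfold wt
  rw [abs_mul, abs_div, abs_of_nonneg hsum0, abs_of_pos (mul_pos hnu hL)]
  have hmu : |(μ d : ℝ)| ≤ 1 := by
    have := abs_moebius_le_one (n := d)
    exact_mod_cast this
  calc |(μ d : ℝ)| / (s.nu d * Lsum s z) *
        ∑ m ∈ s.prodPrimes.divisors with m ≤ z ∧ d ∣ m, s.selbergTerms m
      ≤ 1 / (s.nu d * Lsum s z) * (s.selbergTerms d * Lsum s z) := by
        gcongr
    _ = s.selbergTerms d / s.nu d := by field_simp
    _ = ∏ p ∈ d.primeFactors, (1 - s.nu p)⁻¹ := by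
        rw [selbergTerms_apply]; field_simp

/-- The error term of a Λ² sieve. -/
lemma errSum_lambdaSquared_le (w : ℕ → ℝ) :
    s.errSum (lambdaSquared w)
      ≤ ∑ d1 ∈ s.prodPrimes.divisors, ∑ d2 ∈ s.prodPrimes.divisors,
        |w d1| * |w d2| * |s.rem (Nat.lcm d1 d2)| := by
  have hP := prodPrimes_ne_zero (s := s)
  unfold errSum
  calc ∑ d ∈ s.prodPrimes.divisors, |lambdaSquared w d| * |s.rem d|
      ≤ ∑ d ∈ s.prodPrimes.divisors, (∑ d1 ∈ s.prodPrimes.divisors,
          ∑ d2 ∈ s.prodPrimes.divisors,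
            if d = Nat.lcm d1 d2 then |w d1| * |w d2| * |s.rem (Nat.lcm d1 d2)| else 0) := by
        apply Finset.sum_le_sum
        intro d hd
        have hdP := (Nat.mem_divisors.mp hd).1
        have hsub : d.divisors ⊆ s.prodPrimes.divisors := Nat.divisors_subset_of_dvd hP hdP
        have h1 : |lambdaSquared w d| ≤ ∑ d1 ∈ d.divisors, ∑ d2 ∈ d.divisors,
            if d = Nat.lcm d1 d2 then |w d1| * |w d2| else 0 := by
          unfold lambdaSquared
          refine (Finset.abs_sum_le_sum_abs _ _).trans (Finset.sum_le_sum fun d1 _ => ?_)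
          refine (Finset.abs_sum_le_sum_abs _ _).trans (Finset.sum_le_sum fun d2 _ => ?_)
          split_ifs
          · rw [abs_mul]
          · simp
        calc |lambdaSquared w d| * |s.rem d|
            ≤ (∑ d1 ∈ d.divisors, ∑ d2 ∈ d.divisors,
              if d = Nat.lcm d1 d2 then |w d1| * |w d2| else 0) * |s.rem d| := by
              gcongr
          _ = ∑ d1 ∈ d.divisors, ∑ d2 ∈ d.divisors,
              if d = Nat.lcm d1 d2 then |w d1| * |w d2| * |s.rem (Nat.lcm d1 d2)| else 0 := by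
              rw [Finset.sum_mul]
              apply Finset.sum_congr rfl; intro d1 _
              rw [Finset.sum_mul]
              apply Finset.sum_congr rfl; intro d2 _
              split_ifs with h
              · rw [← h]
              · simp
          _ ≤ _ := by
              refine (Finset.sum_le_sum fun d1 _ => Finset.sum_le_sum_of_subset_of_nonneg hsub
                fun _ _ _ => ?_).trans (Finset.sum_le_sum_of_subset_of_nonneg hsub
                fun _ _ _ => Finset.sum_nonneg fun _ _ => ?_)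
              all_goals split_ifs <;> positivity
    _ = ∑ d1 ∈ s.prodPrimes.divisors, ∑ d2 ∈ s.prodPrimes.divisors,
          |w d1| * |w d2| * |s.rem (Nat.lcm d1 d2)| := by
        rw [Finset.sum_comm]
        apply Finset.sum_congr rfl; intro d1 hd1
        rw [Finset.sum_comm]
        apply Finset.sum_congr rfl; intro d2 hd2
        rw [Finset.sum_ite_eq' s.prodPrimes.divisors (Nat.lcm d1 d2), if_pos]
        rw [Nat.mem_divisors]
        exact ⟨Nat.lcm_dvd (Nat.mem_divisors.mp hd1).1 (Nat.mem_divisors.mp hd2).1, hP⟩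

/-- **Selberg's upper bound sieve.** -/
theorem selberg_upper_bound (hz : 1 ≤ z) :
    s.siftedSum ≤ s.totalMass / Lsum s z
      + ∑ d1 ∈ s.prodPrimes.divisors with d1 ≤ z, ∑ d2 ∈ s.prodPrimes.divisors with d2 ≤ z,
        (∏ p ∈ d1.primeFactors, (1 - s.nu p)⁻¹) * (∏ p ∈ d2.primeFactors, (1 - s.nu p)⁻¹)
          * |s.rem (Nat.lcm d1 d2)| := by
  have h1 := siftedSum_le_mainSum_errSum_of_upperMoebius (s := s) (lambdaSquared (wt s z))
    (upperMoebius_lambdaSquared (wt s z) (wt_one hz))
  rw [mainSum_wt hz, mul_one_div] at h1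
  refine h1.trans (by
    gcongr
    refine (errSum_lambdaSquared_le (wt s z)).trans ?_
    rw [Finset.sum_filter]
    apply Finset.sum_le_sum
    intro d1 hd1
    have hd1P := (Nat.mem_divisors.mp hd1).1
    split_ifs with hz1
    · rw [Finset.sum_filter]
      apply Finset.sum_le_sum
      intro d2 hd2
      have hd2P := (Nat.mem_divisors.mp hd2).1
      split_ifs with hz2
      · have e1 := abs_wt_le hz hd1P
        have e2 := abs_wt_le hz hd2P
        gcongr
        exact (abs_nonneg _).trans e1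
      · rw [wt_eq_zero (not_le.mp hz2)]; simp
    · rw [wt_eq_zero (not_le.mp hz1)]; simp)

end

end Pool.Agent.Lib.MP_5d7b92_nt.Selberg
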