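import Mathlib
import Pool.Agent.Lib.Sieve.PairSieve
import Pool.Agent.Lib.Sieve.SingularAverage
import Pool.Agent.Lib.MP_5d7b92_nt.Final

/-!
# A thin set of prime-indexed primes that still gives many representations
-/

open Finset Filter

namespace Pool.Agent.Lib.MP_5d7b92_nt.Thin

open Pool.Agent.Lib.MP_5d7b92_nt

/-- the energy of a set -/
noncomputable def energy (h : ℕ → ℕ → ℝ) (S : Finset ℕ) : ℝ := ∑ a ∈ S, ∑ b ∈ S, h a b

theorem energy_erase (h : ℕ → ℕ → ℝ) (hd : ∀ a, h a a = 0) (S : Finset ℕ) (c : ℕ) (hc : c ∈ S) :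
    energy h (S.erase c) = energy h S - ∑ b ∈ S, h c b - ∑ a ∈ S, h a c := by
  unfold energy
  have h1 : ∑ a ∈ S.erase c, ∑ b ∈ S.erase c, h a b =
      ∑ a ∈ S.erase c, (∑ b ∈ S, h a b - h a c) := by
    refine Finset.sum_congr rfl fun a _ => ?_
    rw [← Finset.add_sum_erase S (fun b => h a b) hc]
    ring
  have h2 := Finset.add_sum_erase S (fun a => ∑ b ∈ S, h a b) hc
  have h3 := Finset.add_sum_erase S (fun a => h a c) hc
  rw [h1, Finset.sum_sub_distrib]
  simp only [hd] at h3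
  linarith

theorem exists_erase (h : ℕ → ℕ → ℝ) (hd : ∀ a, h a a = 0) (S : Finset ℕ) (hS : S.Nonempty) :
    ∃ c ∈ S, (S.card : ℝ) * energy h (S.erase c) ≤ ((S.card : ℝ) - 2) * energy h S := by
  have hsum : ∑ c ∈ S, energy h (S.erase c) = ((S.card : ℝ) - 2) * energy h S := by
    calc ∑ c ∈ S, energy h (S.erase c)
        = ∑ c ∈ S, (energy h S - ∑ b ∈ S, h c b - ∑ a ∈ S, h a c) :=
          Finset.sum_congr rfl fun c hc => energy_erase h hd S c hc
      _ = ((S.card : ℝ) - 2) * energy h S := by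
          rw [Finset.sum_sub_distrib, Finset.sum_sub_distrib, Finset.sum_const, nsmul_eq_mul,
            Finset.sum_comm (f := fun c a => h a c)]
          unfold energy
          ring
  have hcard : (0 : ℝ) < S.card := by exact_mod_cast Finset.card_pos.mpr hS
  have h2 : ∑ c ∈ S, energy h (S.erase c) ≤
      ∑ c ∈ S, (((S.card : ℝ) - 2) * energy h S / S.card) := by
    rw [hsum, Finset.sum_const, nsmul_eq_mul, mul_div_cancel₀ _ hcard.ne']
  obtain ⟨c, hc, hle⟩ := Finset.exists_le_of_sum_le hS h2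
  refine ⟨c, hc, ?_⟩
  rw [le_div_iff₀ hcard] at hle
  linarith

/-- **Thinning.** -/
theorem thinning (h : ℕ → ℕ → ℝ) (hd : ∀ a, h a a = 0) (P : Finset ℕ) :
    ∀ k : ℕ, k ≤ P.card → ∃ S ⊆ P, S.card + k = P.card ∧
      (P.card : ℝ) * ((P.card : ℝ) - 1) * energy h S ≤
        (S.card : ℝ) * ((S.card : ℝ) - 1) * energy h P := by
  intro k
  induction k with
  | zero => intro _; exact ⟨P, Finset.Subset.refl _, by simp, le_rfl⟩
  | succ k ih =>
    intro hk
    obtain ⟨S, hSP, hScard, hSE⟩ := ih (by omega)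
    have hSne : S.Nonempty := by rw [← Finset.card_pos]; omega
    obtain ⟨c, hc, hcE⟩ := exists_erase h hd S hSne
    have hs1 : 1 ≤ S.card := Finset.card_pos.mpr hSne
    have hcardE : (S.erase c).card = S.card - 1 := Finset.card_erase_of_mem hc
    refine ⟨S.erase c, (Finset.erase_subset _ _).trans hSP, by omega, ?_⟩
    have hcast : ((S.erase c).card : ℝ) = (S.card : ℝ) - 1 := by
      rw [hcardE, Nat.cast_sub hs1]; simp
    rw [hcast]
    rcases Nat.lt_or_ge S.card 2 with h2 | h2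
    · have h1 : S.card = 1 := by omega
      have hempty : S.erase c = ∅ := by
        rw [← Finset.card_eq_zero]; omega
      rw [hempty, h1]
      simp [energy]
    · have h2r : (2 : ℝ) ≤ S.card := by exact_mod_cast h2
      set s : ℝ := (S.card : ℝ) with hs
      set p : ℝ := (P.card : ℝ) with hp
      have hps : s ≤ p := by rw [hs, hp]; exact_mod_cast (by omega : S.card ≤ P.card)
      have hpp : 0 ≤ p * (p - 1) := by nlinarith
      have e1 : (p * (p - 1)) * (s * energy h (S.erase c)) ≤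
          (p * (p - 1)) * ((s - 2) * energy h S) := mul_le_mul_of_nonneg_left hcE hpp
      have e2 : (s - 2) * (p * (p - 1) * energy h S) ≤ (s - 2) * (s * (s - 1) * energy h P) :=
        mul_le_mul_of_nonneg_left hSE (by linarith)
      have e3 : s * (p * (p - 1) * energy h (S.erase c)) ≤
          s * ((s - 1) * (s - 1 - 1) * energy h P) := by nlinarith
      exact le_of_mul_le_mul_left e3 (by linarith)

/-- the kernel -/
noncomputable def ker (a b : ℕ) : ℝ :=
  if a < b then ((b - a : ℕ) : ℝ) / (Nat.totient (b - a) : ℝ) else 0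

theorem ker_self (a : ℕ) : ker a a = 0 := by simp [ker]

theorem energy_ker (S : Finset ℕ) : energy ker S =
    ∑ q ∈ S, ∑ q' ∈ S.filter (fun q' => q < q'),
        ((q' - q : ℕ) : ℝ) / (Nat.totient (q' - q) : ℝ) := by
  unfold energy ker
  refine Finset.sum_congr rfl fun q _ => ?_
  rw [Finset.sum_filter]

theorem energy_ker_nonneg (S : Finset ℕ) : 0 ≤ energy ker S := by
  unfold energy ker
  refine Finset.sum_nonneg fun a _ => Finset.sum_nonneg fun b _ => ?_
  split_ifs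
  · positivity
  · exact le_rfl

/-- Small sets of prime-indexed primes with small energy. -/
theorem exists_block : ∃ C : ℝ, 0 < C ∧ ∃ Y₀ : ℕ, ∀ Y : ℕ, Y₀ ≤ Y → ∀ t : ℕ,
    (t : ℝ) ≤ 2 * Real.log Y →
    ∃ S : Finset ℕ, S ⊆ pipLE Y ∧ (∀ p ∈ S, Nat.sqrt Y < p) ∧ S.card = t ∧
      energy ker S ≤ C * (t : ℝ) ^ 2 * Real.log (Real.log (Real.log Y)) := by
  obtain ⟨C, hC, Y0, hB⟩ := Pool.Agent.Lib.Sieve.singular_average (1 / 200) (by norm_num)
  have hev : ∀ᶠ Y : ℕ in atTop, Y0 ≤ Y ∧ 3 ≤ Y ∧ 1 ≤ Real.log Y ∧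
      800 * (Real.log Y) ^ 3 ≤ Real.sqrt Y ∧ 0 ≤ Real.log (Real.log (Real.log Y)) := by
    have t1 := tendsto_log_nat
    have t2 : Tendsto (fun X : ℕ => Real.log (Real.log (X : ℝ))) atTop atTop :=
      Real.tendsto_log_atTop.comp t1
    have t3 : Tendsto (fun X : ℕ => Real.log (Real.log (Real.log (X : ℝ)))) atTop atTop :=
      Real.tendsto_log_atTop.comp t2
    have h := isLittleO_log_rpow_rpow_atTop (s := 1 / 2) 3 (by norm_num)
    have h2 := h.def (c := 1 / 800) (by norm_num)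
    have h3 := tendsto_natCast_atTop_atTop.eventually h2
    filter_upwards [eventually_ge_atTop Y0, eventually_ge_atTop 3, t1.eventually_ge_atTop 1, h3,
      t3.eventually_ge_atTop 0] with Y g1 g2 g3 g4 g5
    refine ⟨g1, g2, g3, ?_, g5⟩
    have e1 : (Real.log (Y : ℝ)) ^ (3 : ℝ) = (Real.log Y) ^ 3 := by
      rw [← Real.rpow_natCast]; norm_num
    rw [e1, Real.norm_of_nonneg (by positivity), Real.norm_of_nonneg (by positivity),
      ← Real.sqrt_eq_rpow] at g4
    linarith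
  obtain ⟨Y1, hY1⟩ := eventually_atTop.mp hev
  refine ⟨2 * C, by positivity, Y1, fun Y hY t ht => ?_⟩
  obtain ⟨hY0, hY3, hL1, hsq, hLLL⟩ := hY1 Y hY
  set L := Real.log (Y : ℝ) with hL
  have hYr : (0 : ℝ) < Y := by
    have : (3 : ℝ) ≤ Y := by exact_mod_cast hY3
    linarith
  set Q := (pipLE Y).filter (fun p => Nat.sqrt Y < p) with hQ
  have hss : Real.sqrt Y * Real.sqrt Y = Y := Real.mul_self_sqrt hYr.le
  have hsY : (Nat.sqrt Y : ℝ) ≤ Real.sqrt Y := Real.nat_sqrt_le_real_sqrt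
  have hQcard : (1 / 200 : ℝ) * Y / L ^ 2 ≤ (Q.card : ℝ) := by
    have h1 : (1 / 100 : ℝ) * Y / L ^ 2 ≤ ((pipLE Y).card : ℝ) := pip_count Y hY3
    have h2 : (pipLE Y).card ≤ Q.card + Nat.sqrt Y := by
      rw [← Finset.card_filter_add_card_filter_not (s := pipLE Y) (fun p => Nat.sqrt Y < p)]
      refine Nat.add_le_add_left ?_ _
      calc ((pipLE Y).filter (fun p => ¬ Nat.sqrt Y < p)).card
          ≤ (Finset.Icc 1 (Nat.sqrt Y)).card := by
            apply Finset.card_le_card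
            intro p hp
            have hp := Finset.mem_filter.mp hp
            have h3 := mem_pipLE.mp hp.1
            exact Finset.mem_Icc.mpr ⟨h3.2.1.one_lt.le, not_lt.mp hp.2⟩
        _ = Nat.sqrt Y := by simp
    have h3 : ((pipLE Y).card : ℝ) ≤ (Q.card : ℝ) + (Nat.sqrt Y : ℝ) := by exact_mod_cast h2
    have h4 : Real.sqrt Y ≤ (1 / 200 : ℝ) * Y / L ^ 2 := by
      rw [le_div_iff₀ (by positivity)]
      have h5 : L ^ 2 ≤ L ^ 3 := pow_le_pow_right₀ hL1 (by norm_num)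
      have h6 : 0 ≤ Real.sqrt Y := Real.sqrt_nonneg _
      nlinarith
    have h5 : (1 / 100 : ℝ) * Y / L ^ 2 = (1 / 200 : ℝ) * Y / L ^ 2 + (1 / 200 : ℝ) * Y / L ^ 2 := by
      ring
    linarith
  have hQY : Q ⊆ Finset.Icc 1 Y := (Finset.filter_subset _ _).trans (pip_subset Y)
  have hE := hB Y hY0 Q hQY hQcard
  rw [← energy_ker] at hE
  -- size of Q
  have hQbig : 4 * L ≤ (Q.card : ℝ) := by
    refine le_trans ?_ hQcard
    rw [le_div_iff₀ (by positivity)]
    have h6 : 0 ≤ Real.sqrt Y := Real.sqrt_nonneg _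
    have h7 : 1 ≤ Real.sqrt Y := by
      have : 1 ≤ L ^ 3 := one_le_pow₀ hL1
      linarith
    nlinarith
  have htQ : t ≤ Q.card := by
    have : (t : ℝ) ≤ Q.card := by linarith
    exact_mod_cast this
  obtain ⟨S, hSQ, hScard, hSE⟩ := thinning ker ker_self Q (Q.card - t) (by omega)
  have hSt : S.card = t := by omega
  refine ⟨S, hSQ.trans (Finset.filter_subset _ _), ?_, hSt, ?_⟩
  · intro p hp
    exact (Finset.mem_filter.mp (hSQ hp)).2
  · rw [hSt] at hSE
    set q : ℝ := (Q.card : ℝ) with hq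
    have hq4 : 4 ≤ q := by linarith
    have e1 : (t : ℝ) * ((t : ℝ) - 1) * energy ker Q ≤
        (t : ℝ) ^ 2 * (C * q ^ 2 * Real.log (Real.log L)) := by
      have hEQ := energy_ker_nonneg Q
      have ht0 : (0 : ℝ) ≤ t := Nat.cast_nonneg t
      calc (t : ℝ) * ((t : ℝ) - 1) * energy ker Q ≤ (t : ℝ) ^ 2 * energy ker Q := by
            apply mul_le_mul_of_nonneg_right _ hEQ
            nlinarith
        _ ≤ (t : ℝ) ^ 2 * (C * q ^ 2 * Real.log (Real.log L)) :=
            mul_le_mul_of_nonneg_left hE (by positivity)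
    have hES := energy_ker_nonneg S
    have e2 : q ^ 2 / 2 * energy ker S ≤ q * (q - 1) * energy ker S := by
      apply mul_le_mul_of_nonneg_right _ hES
      nlinarith
    have e3 : q ^ 2 * energy ker S ≤ q ^ 2 * (2 * C * (t : ℝ) ^ 2 * Real.log (Real.log L)) := by
      nlinarith
    exact le_of_mul_le_mul_left e3 (by positivity)

/-- Number of integers reached by a block. -/
theorem count_block (K K₂ : ℝ) (hK : 0 < K) (hK₂ : 0 < K₂) : ∃ c : ℝ, 0 < c ∧ ∀ X : ℕ, 3 ≤ X →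
    ∀ S : Finset ℕ, ∀ T : ℝ, (∀ p ∈ S, p.Prime ∧ 3 ≤ p ∧ p ≤ X) →
      energy ker S ≤ K * (S.card : ℝ) ^ 2 * T → (S.card : ℝ) * T ≤ K₂ * Real.log X →
      c * S.card * X / Real.log X ≤
        (((Finset.Icc 1 X).filter (fun n => ∃ p ∈ S, p < 2 * n ∧ (2 * n - p).Prime)).card : ℝ) := by
  classical
  obtain ⟨CA, hCA, hA⟩ := Pool.Agent.Lib.Sieve.pair_sieve
  set D : ℝ := 5 + 2 * CA * K * K₂ with hD
  have hD0 : 0 < D := by positivity
  refine ⟨1 / (400 * D), by positivity, fun X hX3 S T hS hE hT => ?_⟩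
  have hX0 : (0 : ℝ) < X := by
    have : (3 : ℝ) ≤ X := by exact_mod_cast hX3
    linarith
  set L := Real.log (X : ℝ) with hL
  have hL0 : 0 < L := Real.log_pos (by exact_mod_cast (by omega : 1 < X))
  set P := oddPrimesLE X with hP
  have hpi2 : 2 ≤ Nat.primeCounting X := by
    calc 2 = Nat.primeCounting 3 := by decide
      _ ≤ Nat.primeCounting X := Nat.monotone_primeCounting hX3
  have hPlow : (1 / 20 : ℝ) * X / L ≤ (P.card : ℝ) := by
    have h1 := primeCounting_ge X (by omega)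
    have h2 : (Nat.primeCounting X : ℝ) ≤ (P.card : ℝ) + 1 := by
      exact_mod_cast card_oddPrimesLE_add_one X
    have h3 : (2 : ℝ) ≤ Nat.primeCounting X := by exact_mod_cast hpi2
    have h4 : (1 / 20 : ℝ) * X / L = ((1 / 10 : ℝ) * X / L) / 2 := by ring
    rw [h4]
    linarith
  have hPup : (P.card : ℝ) ≤ 5 * X / L := by
    have h1 := primeCounting_le X (by omega)
    have h2 : (P.card : ℝ) ≤ (Nat.primeCounting X : ℝ) := by
      exact_mod_cast card_oddPrimesLE_le X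
    linarith
  have hQP : ∀ q ∈ S, ∀ p ∈ P, ∃ n, n ∈ Finset.Icc 1 X ∧ q + p = 2 * n := by
    intro q hq p hp
    obtain ⟨h1, h3, hqX⟩ := hS q hq
    have hp := Finset.mem_filter.mp hp
    have hp1 := Finset.mem_Icc.mp hp.1
    have h4 := odd_of_prime_of_three_le h1 h3
    have h5 := odd_of_prime_of_three_le hp.2 hp1.1
    refine ⟨(q + p) / 2, ?_, by omega⟩
    rw [Finset.mem_Icc]
    omega
  have hS1 : ∑ n ∈ Finset.Icc 1 X, (rep S P n : ℝ) = (S.card : ℝ) * P.card := by
    exact_mod_cast sum_rep S P X hQP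
  have hpair : ∀ d : ℕ, 1 ≤ d → (pairCount P d : ℝ)
      ≤ CA * ((d : ℝ) / (Nat.totient d : ℝ)) * (X : ℝ) / L ^ 2 := by
    intro d hd
    refine le_trans ?_ (hA X d (by omega) hd)
    have : pairCount P d ≤ ((Finset.Icc 1 X).filter (fun p => p.Prime ∧ (p + d).Prime)).card := by
      unfold pairCount
      apply Finset.card_le_card
      intro p hp
      have hp := Finset.mem_filter.mp hp
      have hp1 := Finset.mem_filter.mp hp.1
      have hp2 := Finset.mem_filter.mp hp.2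
      have hp3 := Finset.mem_Icc.mp hp1.1
      simp only [Finset.mem_filter, Finset.mem_Icc]
      exact ⟨⟨by omega, hp3.2⟩, hp1.2, hp2.2⟩
    exact_mod_cast this
  have hS2 : ∑ n ∈ Finset.Icc 1 X, (rep S P n : ℝ) ^ 2 ≤ D * S.card * X / L := by
    have h1 : ∑ n ∈ Finset.Icc 1 X, (rep S P n : ℝ) ^ 2 ≤ (S.card : ℝ) * P.card +
      2 * ∑ q ∈ S, ∑ q' ∈ S.filter (fun q' => q < q'), (pairCount P (q' - q) : ℝ) := by
      exact_mod_cast sum_rep_sq S P X hQP
    have h2 : ∑ q ∈ S, ∑ q' ∈ S.filter (fun q' => q < q'), (pairCount P (q' - q) : ℝ)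
        ≤ CA * X / L ^ 2 * energy ker S := by
      rw [energy_ker, Finset.mul_sum]
      refine Finset.sum_le_sum fun q _ => ?_
      rw [Finset.mul_sum]
      refine Finset.sum_le_sum fun q' hq' => ?_
      have := (Finset.mem_filter.mp hq').2
      have h3 := hpair (q' - q) (by omega)
      calc (pairCount P (q' - q) : ℝ) ≤ _ := h3
        _ = _ := by ring
    have h3 : (S.card : ℝ) * P.card ≤ (S.card : ℝ) * (5 * X / L) :=
      mul_le_mul_of_nonneg_left hPup (Nat.cast_nonneg _)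
    have h4 : CA * X / L ^ 2 * energy ker S ≤ CA * X / L ^ 2 * (K * (S.card : ℝ) * (K₂ * L)) := by
      refine mul_le_mul_of_nonneg_left ?_ (by positivity)
      calc energy ker S ≤ K * (S.card : ℝ) ^ 2 * T := hE
        _ = K * (S.card : ℝ) * ((S.card : ℝ) * T) := by ring
        _ ≤ K * (S.card : ℝ) * (K₂ * L) := mul_le_mul_of_nonneg_left hT (by positivity)
    calc ∑ n ∈ Finset.Icc 1 X, (rep S P n : ℝ) ^ 2
        ≤ (S.card : ℝ) * (5 * X / L) + 2 * (CA * X / L ^ 2 * (K * (S.card : ℝ) * (K₂ * L))) := by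
          linarith
      _ = D * S.card * X / L := by rw [hD]; field_simp
  -- Cauchy-Schwarz
  set F := (Finset.Icc 1 X).filter (fun n => ∃ p ∈ S, p < 2 * n ∧ (2 * n - p).Prime) with hF
  have hzero : ∀ n ∈ Finset.Icc 1 X, n ∉ F → (rep S P n : ℝ) = 0 := by
    intro n hn hnF
    have : rep S P n = 0 := by
      unfold rep
      rw [Finset.card_eq_zero]
      refine Finset.filter_eq_empty_iff.mpr ?_
      rintro ⟨a, b⟩ hab hsum
      apply hnF
      have hab := Finset.mem_product.mp hab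
      have hb := Finset.mem_filter.mp hab.2
      have hb1 := Finset.mem_Icc.mp hb.1
      refine Finset.mem_filter.mpr ⟨hn, a, hab.1, ?_, ?_⟩
      · simp only at hsum hb1
        omega
      · have : 2 * n - a = b := by simp only at hsum; omega
        rw [this]; exact hb.2
    exact_mod_cast this
  have hsumF : ∑ n ∈ Finset.Icc 1 X, (rep S P n : ℝ) = ∑ n ∈ F, (rep S P n : ℝ) := by
    symm
    exact Finset.sum_subset (Finset.filter_subset _ _) hzero
  have hcs : (∑ n ∈ F, (rep S P n : ℝ)) ^ 2 ≤ (F.card : ℝ) * ∑ n ∈ F, (rep S P n : ℝ) ^ 2 :=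
    sq_sum_le_card_mul_sum_sq
  have hsub : ∑ n ∈ F, (rep S P n : ℝ) ^ 2 ≤ ∑ n ∈ Finset.Icc 1 X, (rep S P n : ℝ) ^ 2 :=
    Finset.sum_le_sum_of_subset_of_nonneg (Finset.filter_subset _ _) (fun _ _ _ => sq_nonneg _)
  rw [← hsumF, hS1] at hcs
  rcases Nat.eq_zero_or_pos S.card with h0 | h0
  · rw [h0]; simp
  · have ht0 : (0 : ℝ) < S.card := by exact_mod_cast h0
    have hF0 : (0 : ℝ) ≤ F.card := Nat.cast_nonneg _
    have e1 : ((S.card : ℝ) * ((1 / 20 : ℝ) * X / L)) ^ 2 ≤ (F.card : ℝ) * (D * S.card * X / L) := by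
      calc ((S.card : ℝ) * ((1 / 20 : ℝ) * X / L)) ^ 2 ≤ ((S.card : ℝ) * P.card) ^ 2 := by gcongr
        _ ≤ (F.card : ℝ) * ∑ n ∈ F, (rep S P n : ℝ) ^ 2 := hcs
        _ ≤ (F.card : ℝ) * (D * S.card * X / L) :=
            mul_le_mul_of_nonneg_left (hsub.trans hS2) hF0
    have e2 : ((S.card : ℝ) * ((1 / 20 : ℝ) * X / L)) ^ 2 =
        (1 / (400 * D) * S.card * X / L) * (D * S.card * X / L) := by
      field_simp
      norm_num
    rw [e2] at e1
    exact le_of_mul_le_mul_right e1 (by positivity)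

/-- the scale -/
def scaleY (j : ℕ) : ℕ := 2 ^ (2 ^ j)

/-- the iterated logarithm of the scale -/
noncomputable def ell (j : ℕ) : ℝ := Real.log (Real.log (Real.log ((scaleY j : ℕ) : ℝ)))

theorem log_scaleY (j : ℕ) : Real.log ((scaleY j : ℕ) : ℝ) = 2 ^ j * Real.log 2 := by
  unfold scaleY
  push_cast
  rw [Real.log_pow]
  push_cast
  ring

theorem scaleY_mono {i j : ℕ} (h : i ≤ j) : scaleY i ≤ scaleY j :=
  Nat.pow_le_pow_right (by norm_num) (Nat.pow_le_pow_right (by norm_num) h)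

theorem le_scaleY (j : ℕ) : j ≤ scaleY j := by
  unfold scaleY
  have h1 : j < 2 ^ j := Nat.lt_two_pow_self
  have h2 : 2 ^ j < 2 ^ (2 ^ j) := Nat.lt_two_pow_self
  omega

theorem sqrt_scaleY (j : ℕ) : Nat.sqrt (scaleY (j + 1)) = scaleY j := by
  have : scaleY (j + 1) = scaleY j * scaleY j := by
    unfold scaleY
    rw [← pow_add]
    congr 1
    ring
  rw [this, Nat.sqrt_eq]

theorem main : ∃ B : Set ℕ, (∀ p ∈ B, p.Prime ∧ (Nat.primeCounting p).Prime) ∧
    ∃ c C : ℝ, 0 < c ∧ 0 < C ∧ ∃ X₀ : ℕ, ∀ X : ℕ, X₀ ≤ X →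
      ((B ∩ Set.Iic X).ncard : ℝ) ≤ C * Real.log X / Real.log (Real.log (Real.log X)) ∧
      c * X / Real.log (Real.log (Real.log X)) ≤
        ({n : ℕ | n ≤ X ∧ ∃ p ∈ B, p < 2 * n ∧ (2 * n - p).Prime}.ncard : ℝ) := by
  classical
  obtain ⟨K, hK, Y₀, hblock⟩ := exists_block
  obtain ⟨c, hc, hcount⟩ := count_block K 2 hK (by norm_num)
  -- large starting index
  have hev : ∀ᶠ X : ℕ in atTop, 3 ≤ Real.log (Real.log (Real.log (X : ℝ))) ∧
      1 ≤ Real.log (Real.log (X : ℝ)) ∧ 1 ≤ Real.log (X : ℝ) ∧ Y₀ ≤ X := by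
    have t1 := tendsto_log_nat
    have t2 : Tendsto (fun X : ℕ => Real.log (Real.log (X : ℝ))) atTop atTop :=
      Real.tendsto_log_atTop.comp t1
    have t3 : Tendsto (fun X : ℕ => Real.log (Real.log (Real.log (X : ℝ)))) atTop atTop :=
      Real.tendsto_log_atTop.comp t2
    filter_upwards [t3.eventually_ge_atTop 3, t2.eventually_ge_atTop 1, t1.eventually_ge_atTop 1,
      eventually_ge_atTop Y₀] with X g1 g2 g3 g4
    exact ⟨g1, g2, g3, g4⟩
  obtain ⟨X₁, hX₁⟩ := eventually_atTop.mp hev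
  set j₀ : ℕ := max X₁ 1 with hj₀
  have hj₀1 : 1 ≤ j₀ := le_max_right _ _
  have hbig : ∀ j, j₀ ≤ j → 3 ≤ ell j ∧ 1 ≤ Real.log (Real.log ((scaleY j : ℕ) : ℝ)) ∧
      1 ≤ Real.log ((scaleY j : ℕ) : ℝ) ∧ Y₀ ≤ scaleY j := by
    intro j hj
    exact hX₁ (scaleY j) ((le_max_left _ _).trans (hj.trans (le_scaleY j)))
  have hlog2 : (1 / 2 : ℝ) ≤ Real.log 2 ∧ Real.log 2 ≤ 1 :=
    ⟨by have := Real.log_two_gt_d9; linarith, by have := Real.log_two_lt_d9; linarith⟩
  -- the sizes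
  set a : ℕ → ℝ := fun j => 2 ^ j / ell j with ha
  set t : ℕ → ℕ := fun j => ⌊a j⌋₊ with ht
  have ha0 : ∀ j, j₀ ≤ j → 0 < a j := by
    intro j hj
    have := (hbig j hj).1
    have h0 : 0 < ell j := by linarith
    simp only [ha]
    positivity
  have hta : ∀ j, j₀ ≤ j → (t j : ℝ) ≤ a j := fun j hj => Nat.floor_le (ha0 j hj).le
  have hstep : ∀ j, j₀ ≤ j → 3 / 2 * a j ≤ a (j + 1) := by
    intro j hj
    obtain ⟨h1, h2, h3, _⟩ := hbig j hj
    have h0 : 0 < ell j := by linarith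
    have h1' := (hbig (j + 1) (by omega)).1
    have h0' : 0 < ell (j + 1) := by linarith
    have e1 : Real.log ((scaleY (j + 1) : ℕ) : ℝ) = 2 * Real.log ((scaleY j : ℕ) : ℝ) := by
      rw [log_scaleY, log_scaleY, pow_succ]; ring
    have e2 : Real.log (Real.log ((scaleY (j + 1) : ℕ) : ℝ)) ≤
        2 * Real.log (Real.log ((scaleY j : ℕ) : ℝ)) := by
      rw [e1, Real.log_mul (by norm_num) (by linarith)]
      linarith [hlog2.2]
    have e3 : ell (j + 1) ≤ 4 / 3 * ell j := by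
      have e4 : ell (j + 1) ≤ Real.log (2 * Real.log (Real.log ((scaleY j : ℕ) : ℝ))) := by
        apply Real.log_le_log _ e2
        have := (hbig (j + 1) (by omega)).2.1
        linarith
      rw [Real.log_mul (by norm_num) (by linarith)] at e4
      have e5 : Real.log (Real.log (Real.log ((scaleY j : ℕ) : ℝ))) = ell j := rfl
      rw [e5] at e4
      linarith [hlog2.2]
    simp only [ha]
    rw [le_div_iff₀ h0', pow_succ]
    have e6 : (0 : ℝ) < 2 ^ j := by positivity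
    have e7 : 3 / 2 * (2 ^ j / ell j) * ell (j + 1) ≤ 3 / 2 * (2 ^ j / ell j) * (4 / 3 * ell j) :=
      mul_le_mul_of_nonneg_left e3 (by positivity)
    have e8 : 3 / 2 * (2 ^ j / ell j) * (4 / 3 * ell j) = 2 ^ j * 2 := by
      field_simp
      norm_num
    linarith
  have hsum : ∀ m, j₀ ≤ m → ∑ i ∈ Finset.Icc j₀ m, a i ≤ 3 * a m := by
    intro m hm
    induction m, hm using Nat.le_induction with
    | base => simp; linarith [ha0 j₀ le_rfl]
    | succ m hm ih =>
      rw [Finset.sum_Icc_succ_top (by omega)]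
      have := hstep m hm
      linarith
  -- the blocks
  have hbl : ∀ j, j₀ ≤ j → ∃ S : Finset ℕ, S ⊆ pipLE (scaleY j) ∧
      (∀ p ∈ S, Nat.sqrt (scaleY j) < p) ∧ S.card = t j ∧
      energy ker S ≤ K * (t j : ℝ) ^ 2 * ell j := by
    intro j hj
    obtain ⟨h1, h2, h3, h4⟩ := hbig j hj
    refine hblock (scaleY j) h4 (t j) ?_
    refine (hta j hj).trans ?_
    rw [log_scaleY]
    simp only [ha]
    rw [div_le_iff₀ (by linarith)]
    have e6 : (0 : ℝ) < 2 ^ j := by positivity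
    have e7 : (2 : ℝ) ^ j * 1 ≤ 2 ^ j * (2 * Real.log 2) :=
      mul_le_mul_of_nonneg_left (by linarith [hlog2.1]) e6.le
    have e8 : 2 * ((2 : ℝ) ^ j * Real.log 2) * 1 ≤ 2 * ((2 : ℝ) ^ j * Real.log 2) * ell j :=
      mul_le_mul_of_nonneg_left (by linarith) (by linarith)
    linarith
  choose! blk hblk1 hblk2 hblk3 hblk4 using hbl
  refine ⟨{p | ∃ j, j₀ ≤ j ∧ p ∈ blk j}, ?_, c / 4, 12, by positivity, by norm_num, scaleY j₀,
    fun X hX => ?_⟩
  · rintro p ⟨j, hj, hp⟩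
    exact (mem_pipLE.mp (hblk1 j hj hp)).2
  -- the index of X
  have hX1 : 1 ≤ X := le_trans (Nat.one_le_pow _ _ (by norm_num)) hX
  set j := Nat.log 2 (Nat.log 2 X) with hj
  have hlogX : 2 ^ j₀ ≤ Nat.log 2 X := by
    have : Nat.log 2 (2 ^ (2 ^ j₀)) ≤ Nat.log 2 X := Nat.log_mono_right hX
    rwa [Nat.log_pow (by norm_num)] at this
  have hjj₀ : j₀ ≤ j := by
    have : Nat.log 2 (2 ^ j₀) ≤ Nat.log 2 (Nat.log 2 X) := Nat.log_mono_right hlogX
    rwa [Nat.log_pow (by norm_num)] at this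
  have hYX : scaleY j ≤ X := by
    have h1 : 2 ^ j ≤ Nat.log 2 X := Nat.pow_log_le_self 2 (by
      have : 0 < 2 ^ j₀ := by positivity
      omega)
    calc scaleY j = 2 ^ (2 ^ j) := rfl
      _ ≤ 2 ^ (Nat.log 2 X) := Nat.pow_le_pow_right (by norm_num) h1
      _ ≤ X := Nat.pow_log_le_self 2 (by omega)
  have hXY : X < scaleY (j + 1) := by
    have h1 : Nat.log 2 X < 2 ^ (j + 1) := Nat.lt_pow_succ_log_self (by norm_num) _
    calc X < 2 ^ (Nat.log 2 X + 1) := Nat.lt_pow_succ_log_self (by norm_num) _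
      _ ≤ 2 ^ (2 ^ (j + 1)) := Nat.pow_le_pow_right (by norm_num) h1
      _ = scaleY (j + 1) := rfl
  have hX0 : (0 : ℝ) < X := by exact_mod_cast hX1
  have hY0 : (0 : ℝ) < ((scaleY j : ℕ) : ℝ) := by
    unfold scaleY; positivity
  obtain ⟨b1, b2, b3, b4⟩ := hbig j hjj₀
  obtain ⟨b1', b2', b3', b4'⟩ := hbig (j + 1) (by omega)
  have l1 : Real.log ((scaleY j : ℕ) : ℝ) ≤ Real.log X := Real.log_le_log hY0 (by exact_mod_cast hYX)
  have l2 : Real.log X ≤ Real.log ((scaleY (j + 1) : ℕ) : ℝ) :=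
    Real.log_le_log hX0 (by exact_mod_cast hXY.le)
  have l3 : Real.log (Real.log ((scaleY j : ℕ) : ℝ)) ≤ Real.log (Real.log X) :=
    Real.log_le_log (by linarith) l1
  have l4 : Real.log (Real.log X) ≤ Real.log (Real.log ((scaleY (j + 1) : ℕ) : ℝ)) :=
    Real.log_le_log (by linarith) l2
  have l5 : ell j ≤ Real.log (Real.log (Real.log X)) := Real.log_le_log (by linarith) l3
  have l6 : Real.log (Real.log (Real.log X)) ≤ ell (j + 1) := Real.log_le_log (by linarith) l4
  set T := Real.log (Real.log (Real.log (X : ℝ))) with hT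
  have hT0 : 0 < T := by linarith
  set L := Real.log (X : ℝ) with hL
  have hL0 : 0 < L := by linarith
  have p1 : (2 : ℝ) ^ j * Real.log 2 ≤ L := by rw [← log_scaleY]; exact l1
  have p2 : L ≤ (2 : ℝ) ^ (j + 1) * Real.log 2 := by rw [← log_scaleY]; exact l2
  have hpow : (0 : ℝ) < 2 ^ j := by positivity
  constructor
  · -- counting function of B
    have hsub : ({p | ∃ j, j₀ ≤ j ∧ p ∈ blk j} ∩ Set.Iic X : Set ℕ) ⊆
        ((Finset.Icc j₀ (j + 1)).biUnion blk : Finset ℕ) := by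
      rintro p ⟨⟨i, hi, hp⟩, hpX⟩
      rw [Finset.coe_biUnion, Set.mem_iUnion₂]
      refine ⟨i, ?_, hp⟩
      rw [Finset.mem_coe, Finset.mem_Icc]
      refine ⟨hi, ?_⟩
      by_contra hcon
      have hcon : j + 2 ≤ i := by omega
      obtain ⟨i', rfl⟩ : ∃ i', i = i' + 1 := ⟨i - 1, by omega⟩
      have h1 := hblk2 (i' + 1) hi p hp
      rw [sqrt_scaleY] at h1
      have h2 : scaleY (j + 1) ≤ scaleY i' := scaleY_mono (by omega)
      have h3 : p ≤ X := hpX
      omega
    have hcard : ({p | ∃ j, j₀ ≤ j ∧ p ∈ blk j} ∩ Set.Iic X : Set ℕ).ncard ≤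
        ∑ i ∈ Finset.Icc j₀ (j + 1), t i := by
      refine (Set.ncard_le_ncard hsub (Finset.finite_toSet _)).trans ?_
      rw [Set.ncard_coe_finset]
      refine Finset.card_biUnion_le.trans (Finset.sum_le_sum fun i hi => ?_)
      rw [hblk3 i (Finset.mem_Icc.mp hi).1]
    have hcard' : (({p | ∃ j, j₀ ≤ j ∧ p ∈ blk j} ∩ Set.Iic X : Set ℕ).ncard : ℝ) ≤
        ∑ i ∈ Finset.Icc j₀ (j + 1), (t i : ℝ) := by exact_mod_cast hcard
    have h1 : ∑ i ∈ Finset.Icc j₀ (j + 1), (t i : ℝ) ≤ 3 * a (j + 1) :=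
      (Finset.sum_le_sum fun i hi => hta i (Finset.mem_Icc.mp hi).1).trans (hsum (j + 1) (by omega))
    have h2 : a (j + 1) ≤ 4 * L / T := by
      simp only [ha]
      rw [div_le_div_iff₀ (by linarith) hT0, pow_succ]
      have e1 : (2 : ℝ) ^ j * 2 ≤ 4 * L := by nlinarith [hlog2.1]
      have e2 : (0 : ℝ) < 2 ^ j * 2 := by positivity
      nlinarith
    calc (({p | ∃ j, j₀ ≤ j ∧ p ∈ blk j} ∩ Set.Iic X : Set ℕ).ncard : ℝ)
        ≤ 3 * a (j + 1) := hcard'.trans h1
      _ ≤ 3 * (4 * L / T) := by linarith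
      _ = 12 * L / T := by ring
  · -- number of integers
    have hS := hcount X (by
      have h3 : 3 ≤ scaleY j := by
        have : (3 : ℝ) ≤ ((scaleY j : ℕ) : ℝ) := by
          have h4 := Real.add_one_le_exp (Real.log ((scaleY j : ℕ) : ℝ))
          rw [Real.exp_log hY0] at h4
          have h5 := Real.add_one_le_exp (Real.log (Real.log ((scaleY j : ℕ) : ℝ)))
          rw [Real.exp_log (by linarith)] at h5
          linarith
        exact_mod_cast this
      omega) (blk j) (ell j) (by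
        intro p hp
        have h1 := mem_pipLE.mp (hblk1 j hjj₀ hp)
        exact ⟨h1.2.1, pip_ge_three h1.2.1 h1.2.2, h1.1.trans hYX⟩) (by
        rw [hblk3 j hjj₀]; exact hblk4 j hjj₀) (by
        rw [hblk3 j hjj₀]
        calc (t j : ℝ) * ell j ≤ a j * ell j := by
              apply mul_le_mul_of_nonneg_right (hta j hjj₀) (by linarith)
          _ = 2 ^ j := by simp only [ha]; field_simp
          _ ≤ 2 * L := by nlinarith [hlog2.1])
    rw [hblk3 j hjj₀] at hS
    have hsub : (((Finset.Icc 1 X).filter (fun n => ∃ p ∈ blk j, p < 2 * n ∧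
        (2 * n - p).Prime) : Finset ℕ) : Set ℕ) ⊆
        {n : ℕ | n ≤ X ∧ ∃ p ∈ {p | ∃ j, j₀ ≤ j ∧ p ∈ blk j}, p < 2 * n ∧ (2 * n - p).Prime} := by
      intro n hn
      have hn := Finset.mem_filter.mp (Finset.mem_coe.mp hn)
      obtain ⟨p, hp, h1, h2⟩ := hn.2
      exact ⟨(Finset.mem_Icc.mp hn.1).2, p, ⟨j, hjj₀, hp⟩, h1, h2⟩
    have hfin : {n : ℕ | n ≤ X ∧ ∃ p ∈ {p | ∃ j, j₀ ≤ j ∧ p ∈ blk j},
        p < 2 * n ∧ (2 * n - p).Prime}.Finite :=
      (Set.finite_Iic X).subset fun n hn => hn.1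
    have hle := Set.ncard_le_ncard hsub hfin
    rw [Set.ncard_coe_finset] at hle
    have hle' : (((Finset.Icc 1 X).filter (fun n => ∃ p ∈ blk j, p < 2 * n ∧
        (2 * n - p).Prime)).card : ℝ) ≤
        ({n : ℕ | n ≤ X ∧ ∃ p ∈ {p | ∃ j, j₀ ≤ j ∧ p ∈ blk j},
          p < 2 * n ∧ (2 * n - p).Prime}.ncard : ℝ) := by exact_mod_cast hle
    refine le_trans ?_ (hS.trans hle')
    -- c/4 X / T ≤ c t X / L
    have e1 : L / (2 * T) ≤ a j := by
      simp only [ha]
      rw [div_le_div_iff₀ (by positivity) (by linarith)]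
      rw [pow_succ] at p2
      have e2 : L ≤ 2 ^ j * 2 := by nlinarith [hlog2.2]
      nlinarith
    have e2 : a j / 2 ≤ t j := by
      have h1 : a j < (t j : ℝ) + 1 := Nat.lt_floor_add_one _
      have h2 : 2 ≤ a j := by
        simp only [ha]
        rw [le_div_iff₀ (by linarith)]
        have f1 := Real.add_one_le_exp (Real.log (Real.log (Real.log ((scaleY j : ℕ) : ℝ))))
        rw [Real.exp_log (by linarith)] at f1
        have f2 := Real.quadratic_le_exp_of_nonneg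
          (x := Real.log (Real.log ((scaleY j : ℕ) : ℝ))) (by linarith)
        rw [Real.exp_log (by linarith), log_scaleY] at f2
        have f3 : Real.log (Real.log (Real.log ((scaleY j : ℕ) : ℝ))) = ell j := rfl
        rw [f3] at f1
        rw [log_scaleY] at f1
        have f4 : (2 : ℝ) ^ j * Real.log 2 ≤ 2 ^ j := by nlinarith [hlog2.2]
        nlinarith
      linarith
    have e3 : L / (4 * T) ≤ t j := by
      have : L / (4 * T) = (L / (2 * T)) / 2 := by field_simp; norm_num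
      rw [this]; linarith
    calc c / 4 * X / T = c * (L / (4 * T)) * X / L := by field_simp
      _ ≤ c * (t j : ℝ) * X / L := by gcongr

end Pool.Agent.Lib.MP_5d7b92_nt.Thin
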